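import Pool.Agent.T2h82.Ln.Stk

/-!
# The theorems on the stacky line
-/

set_option autoImplicit false

namespace Pool.Agent.T2h82.Ln

open Finset Filter Topology MeasureTheory

variable (P : Pre) (S : Finset ℕ)

/-- the exponent -/
noncomputable def Pre.th : ℝ := ((P.m : ℝ) + 1) / ((P.q : ℝ) * P.m + P.j)

/-- the end of the range of the heights -/
noncomputable def Pre.kap : ℝ := (P.m : ℝ) / ((P.q : ℝ) * P.m + P.j) *
  (((P.m : ℝ) + 1) / ((P.m : ℝ) + 1 - 1 / (6 * ((P.q : ℝ) + 1))))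

theorem dat_d (σ : ℕ) : ((P.dat σ).d : ℝ) = (P.q : ℝ) * P.m + P.j := by
  unfold Dat.d Pre.dat
  push_cast
  rfl

theorem dat_th (σ : ℕ) : θ (P.dat σ) = P.th := by
  unfold θ Pre.th
  rw [dat_d]
  rfl

theorem dat_kap (σ : ℕ) : κ₀ (P.dat σ) = P.kap := by
  unfold κ₀ Pre.kap η
  rw [dat_d]
  rfl

/-- the constant -/
noncomputable def Pre.cst : ℝ := ∑ σ ∈ Sig P.m S, cc (P.dat σ) S

theorem one_mem_sig {m : ℕ} (hS : ∀ r ∈ S, r.Prime) : 1 ∈ Sig m S := by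
  unfold Sig
  exact Nat.one_mem_divisors.2 (sig_ne hS)

theorem cst_pos (hS : ∀ r ∈ S, r.Prime) : 0 < P.cst S :=
  sum_pos (fun σ _ => cc_pos (P.dat σ) S) ⟨1, one_mem_sig S hS⟩

theorem stk_count (hS : ∀ r ∈ S, r.Prime) {κ : ℝ} (h1 : (P.m : ℝ) / ((P.q : ℝ) * P.m + P.j) < κ)
    (h2 : κ < P.kap) :
    Tendsto (fun X : ℝ => ({p | P.Pt S p ∧ (P.R S p : ℝ) ≤ X ∧ (Hh p : ℝ) ≤ X ^ κ}.ncard : ℝ) /
      X ^ P.th) atTop (𝓝 (P.cst S)) := by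
  have h3 : Tendsto (fun X : ℝ => ∑ σ ∈ Sig P.m S, ({p | (P.dat σ).Ok p ∧
      (Ht (P.dat σ) p : ℝ) ≤ X ^ κ ∧ (RS (P.dat σ) S p : ℝ) ≤ X}.ncard : ℝ) / X ^ P.th) atTop
      (𝓝 (P.cst S)) := by
    unfold Pre.cst
    refine tendsto_finsetSum _ (fun σ _ => ?_)
    have := count (P.dat σ) S (κ := κ) (by rw [dat_d]; exact h1) (by rw [dat_kap]; exact h2)
    rwa [dat_th] at this
  refine h3.congr' ?_
  filter_upwards [eventually_gt_atTop 0] with X hX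
  rw [← sum_div]
  congr 1
  have h4 := ncard_pts P (S := S) hS (fun r h => (r : ℝ) ≤ X ∧ (h : ℝ) ≤ X ^ κ)
    (fun σ _ => (ht_fin (P.dat σ) (X ^ κ)).subset (fun p hp => ⟨hp.1, hp.2.2⟩))
  rw [h4]
  push_cast
  refine sum_congr rfl (fun σ _ => ?_)
  congr 2
  ext p
  simp only [Set.mem_ofPred_eq]
  tauto

/-- the limit law -/
noncomputable def Pre.GL (τ : ℝ) : ℝ := ∑ σ ∈ Sig P.m S, GG (P.dat σ) S τ

theorem gl_mono : MonotoneOn (P.GL S) (Set.Ioi 0) := fun τ hτ τ' hτ' h =>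
  sum_le_sum (fun σ _ => gg_mono (P.dat σ) S hτ hτ' h)

theorem gl_lim : Tendsto (P.GL S) atTop (𝓝 (P.cst S)) :=
  tendsto_finsetSum _ (fun σ _ => gg_lim (P.dat σ) S)

theorem gl_small : ∃ τ₀ : ℝ, 0 < τ₀ ∧ ∀ τ : ℝ, 0 < τ → τ < τ₀ → P.GL S τ = 0 := by
  have h1 : ∀ A : Finset ℕ, ∃ τ₀ : ℝ, 0 < τ₀ ∧ ∀ τ : ℝ, 0 < τ → τ < τ₀ →
      ∑ σ ∈ A, GG (P.dat σ) S τ = 0 := by
    intro A
    induction A using Finset.induction_on with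
    | empty => exact ⟨1, one_pos, fun τ _ _ => sum_empty⟩
    | insert a A ha ih =>
      obtain ⟨τ₁, h1, h2⟩ := ih
      obtain ⟨τ₂, h3, h4⟩ := gg_small (P.dat a) S
      refine ⟨min τ₁ τ₂, lt_min h1 h3, fun τ hτ hτ' => ?_⟩
      rw [sum_insert ha, h4 τ hτ (hτ'.trans_le (min_le_right _ _)),
        h2 τ hτ (hτ'.trans_le (min_le_left _ _)), add_zero]
  exact h1 _

theorem law_iff {H R τ m d : ℝ} {mn dn : ℕ} (hH : 0 ≤ H) (hR : 0 < R) (hτ : 0 < τ)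
    (hdn : dn ≠ 0) (hm : m = mn) (hd : d = dn) :
    H ^ dn ≤ τ ^ dn * R ^ mn ↔ H ≤ τ * R ^ (m / d) := by
  have hd0 : (dn : ℝ) ≠ 0 := by exact_mod_cast hdn
  have h1 : τ ^ dn * R ^ mn = (τ * R ^ (m / d)) ^ dn := by
    rw [mul_pow, ← Real.rpow_natCast (R ^ (m / d)), ← Real.rpow_mul hR.le, hm, hd,
      div_mul_cancel₀ _ hd0, Real.rpow_natCast]
  rw [h1]
  exact pow_le_pow_iff_left₀ hH (by positivity) hdn

theorem ok_ht_nonneg {D : Dat} (p : ℤ × ℤ) : (0 : ℝ) ≤ Ht D p := by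
  exact_mod_cast ht_nonneg (D := D) p

theorem lw_fin (D : Dat) {τ X : ℝ} (hτ : 0 < τ) (hX : 0 < X) :
    (Lw D S τ (X ^ (1 / (D.d : ℝ)))).Finite := by
  rw [lw_eq D S hτ (by positivity)]
  exact Pool.Agent.T2h82.As.pt_finite _ (Bx (max 1 τ)) (bx_bdd _)
    (fn_sub D S (fun w => rb_sub D _ τ w)) (by positivity) (by positivity)

theorem stk_law (hS : ∀ r ∈ S, r.Prime) {τ : ℝ} (hτ : 0 < τ) :
    Tendsto (fun X : ℝ => ({p | P.Pt S p ∧ (P.R S p : ℝ) ≤ X ∧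
      (Hh p : ℝ) ≤ τ * (P.R S p : ℝ) ^ ((P.m : ℝ) / ((P.q : ℝ) * P.m + P.j))}.ncard : ℝ) /
      X ^ P.th) atTop (𝓝 (P.GL S τ)) := by
  have hset : ∀ σ : ℕ, ∀ X : ℝ, 0 < X → {p | (P.dat σ).Ok p ∧ ((RS (P.dat σ) S p : ℝ) ≤ X ∧
      (Ht (P.dat σ) p : ℝ) ≤ τ * (RS (P.dat σ) S p : ℝ) ^ ((P.m : ℝ) / ((P.q : ℝ) * P.m + P.j)))} =
      Lw (P.dat σ) S τ (X ^ (1 / ((P.dat σ).d : ℝ))) := by
    intro σ X hX
    have hd := (P.dat σ).d_pos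
    ext p
    unfold Lw
    simp only [Set.mem_ofPred_eq]
    rw [tx_d (P.dat σ) hX.le]
    refine and_congr_right (fun _ => and_congr_right (fun _ => ?_))
    exact (law_iff (ok_ht_nonneg p) (by exact_mod_cast rs_pos p) hτ (by omega) rfl
      (dat_d P σ).symm).symm
  have h3 : Tendsto (fun X : ℝ => ∑ σ ∈ Sig P.m S,
      ((Lw (P.dat σ) S τ (X ^ (1 / ((P.dat σ).d : ℝ)))).ncard : ℝ) / X ^ P.th) atTop
      (𝓝 (P.GL S τ)) := by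
    unfold Pre.GL
    refine tendsto_finsetSum _ (fun σ _ => ?_)
    have h4 := (law (P.dat σ) S hτ).comp (tx_top (P.dat σ))
    refine h4.congr' ?_
    filter_upwards [eventually_gt_atTop 0] with X hX
    rw [Function.comp_apply, tx_m (P.dat σ) hX, dat_th]
  refine h3.congr' ?_
  filter_upwards [eventually_gt_atTop 0] with X hX
  rw [← sum_div]
  congr 1
  have h4 := ncard_pts P (S := S) hS (fun r h => (r : ℝ) ≤ X ∧
    (h : ℝ) ≤ τ * (r : ℝ) ^ ((P.m : ℝ) / ((P.q : ℝ) * P.m + P.j)))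
    (fun σ _ => by
      rw [hset σ X hX]
      exact lw_fin S (P.dat σ) hτ hX)
  rw [h4]
  push_cast
  refine sum_congr rfl (fun σ _ => ?_)
  rw [hset σ X hX]

theorem stk_exc (hS : ∀ r ∈ S, r.Prime) {κ : ℝ} (h0 : 0 < κ) (h2 : κ < P.kap) {δ : ℝ}
    (hδ : 0 < δ) : ∃ ν C : ℝ, 0 < ν ∧ 0 < C ∧ ∀ X : ℝ, 1 ≤ X →
      ({p | P.Pt S p ∧ (P.R S p : ℝ) ≤ X ∧ (Hh p : ℝ) ≤ X ^ κ ∧
        (P.R S p : ℝ) ^ ((P.m : ℝ) / ((P.q : ℝ) * P.m + P.j) + δ) < Hh p}.ncard : ℝ) ≤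
        C * X ^ (P.th - ν) := by
  have key : ∀ A : Finset ℕ, ∃ ν C : ℝ, 0 < ν ∧ 0 < C ∧ ∀ X : ℝ, 1 ≤ X →
      ∑ σ ∈ A, ({p | (P.dat σ).Ok p ∧ ((RS (P.dat σ) S p : ℝ) ≤ X ∧
        (Ht (P.dat σ) p : ℝ) ≤ X ^ κ ∧ (RS (P.dat σ) S p : ℝ) ^
        ((P.m : ℝ) / ((P.q : ℝ) * P.m + P.j) + δ) < Ht (P.dat σ) p)}.ncard : ℝ) ≤
        C * X ^ (P.th - ν) := by
    intro A
    induction A using Finset.induction_on with
    | empty =>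
      refine ⟨1, 1, one_pos, one_pos, fun X hX => ?_⟩
      rw [sum_empty]
      have : 0 < X := by linarith
      positivity
    | insert a A ha ih =>
      obtain ⟨ν₁, C₁, h3, h4, h5⟩ := ih
      obtain ⟨ν₂, C₂, h6, h7, h8⟩ := exc (P.dat a) S h0 (by rw [dat_kap]; exact h2) hδ
      refine ⟨min ν₁ ν₂, C₁ + C₂, lt_min h3 h6, by positivity, fun X hX => ?_⟩
      have hX0 : 0 < X := by linarith
      rw [sum_insert ha]
      have hf : {p | (P.dat a).Ok p ∧ ((RS (P.dat a) S p : ℝ) ≤ X ∧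
        (Ht (P.dat a) p : ℝ) ≤ X ^ κ ∧ (RS (P.dat a) S p : ℝ) ^
        ((P.m : ℝ) / ((P.q : ℝ) * P.m + P.j) + δ) < Ht (P.dat a) p)}.Finite :=
        (ht_fin (P.dat a) (X ^ κ)).subset (fun p hp => ⟨hp.1, hp.2.2.1⟩)
      have h9 := h8 X hX hf.toFinset (fun p hp => by
        rw [Set.Finite.mem_toFinset] at hp
        obtain ⟨a1, a2, a3, a4⟩ := hp
        refine ⟨a1, a3, a2, ?_⟩
        rw [dat_d]
        exact a4)
      rw [← Set.ncard_eq_toFinset_card _ hf, dat_th] at h9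
      have e1 : X ^ (P.th - ν₁) ≤ X ^ (P.th - min ν₁ ν₂) :=
        Real.rpow_le_rpow_of_exponent_le hX (by linarith [min_le_left ν₁ ν₂])
      have e2 : X ^ (P.th - ν₂) ≤ X ^ (P.th - min ν₁ ν₂) :=
        Real.rpow_le_rpow_of_exponent_le hX (by linarith [min_le_right ν₁ ν₂])
      calc _ ≤ C₂ * X ^ (P.th - ν₂) + C₁ * X ^ (P.th - ν₁) := add_le_add h9 (h5 X hX)
        _ ≤ C₂ * X ^ (P.th - min ν₁ ν₂) + C₁ * X ^ (P.th - min ν₁ ν₂) := by gcongr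
        _ = _ := by ring
  obtain ⟨ν, C, h3, h4, h5⟩ := key (Sig P.m S)
  refine ⟨ν, C, h3, h4, fun X hX => ?_⟩
  have h6 := ncard_pts P (S := S) hS (fun r h => (r : ℝ) ≤ X ∧ (h : ℝ) ≤ X ^ κ ∧
    (r : ℝ) ^ ((P.m : ℝ) / ((P.q : ℝ) * P.m + P.j) + δ) < h)
    (fun σ _ => (ht_fin (P.dat σ) (X ^ κ)).subset (fun p hp => ⟨hp.1, hp.2.2.1⟩))
  rw [h6]
  push_cast
  exact h5 X hX

end Pool.Agent.T2h82.Ln
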