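import Pool.Agent.T2h82.Ln.Big2
import Pool.Agent.T2h82.Ln.StkFin

/-!
# The points of all heights
-/

set_option autoImplicit false

namespace Pool.Agent.T2h82.Ln

open Finset Filter Topology
open Pool.Agent.Results.MP_1ea25c_nt.AlmostAllTriples (triples rad3)
open Pool.Agent.Y911.AA (viol)

variable (D : Dat) (S : Finset ℕ)

theorem mx_pos : 0 < Mx D := by
  have h := co_le D none
  simp only [co, Option.elim_none, Int.natAbs_one, Int.natAbs_zero] at h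
  omega

theorem triples_mono {X Y : ℝ} (h : X ≤ Y) : triples X ⊆ triples Y :=
  fun _ hp => ⟨hp.1, hp.2.1, hp.2.2.1, hp.2.2.2.trans h⟩

/-- **The pairs of large height.** -/
theorem big (hm : D.m = 1) {κ : ℝ} (hκ : 1 / (D.d : ℝ) < κ) : ∃ ν C : ℝ, 0 < ν ∧ 0 < C ∧
    ∀ X : ℝ, 1 ≤ X → ∀ F : Finset (ℤ × ℤ), (∀ p ∈ F, D.Ok p ∧ (RS D S p : ℝ) ≤ X ∧
      X ^ κ < (Ht D p : ℝ)) → (F.card : ℝ) ≤ C * X ^ (θ D - ν) := by
  have hd : (0 : ℝ) < D.d := by exact_mod_cast D.d_pos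
  have hσ := sig_one D
  have hθ : θ D = 2 / D.d := by
    unfold θ
    rw [hm]
    norm_num
  have hMx : (1 : ℝ) ≤ Mx D := by exact_mod_cast mx_pos D
  have hRc : (1 : ℝ) ≤ Rc D := by
    have : 1 ≤ Rc D := Nat.pow_pos (D.M₀_pos ∅)
    exact_mod_cast this
  have hPS : (1 : ℝ) ≤ PS S := by
    have : 1 ≤ PS S := ps_pos
    exact_mod_cast this
  have hκ0 : 0 < κ := lt_trans (by positivity) hκ
  have hdκ : 1 < D.d * κ := by
    rw [div_lt_iff₀ hd] at hκ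
    linarith
  set M : ℝ := (1 + D.d * κ) / 6 with hM
  have hM3 : 1 / 3 < M := by
    rw [hM]
    linarith
  have hM0 : 0 < M := by linarith
  have hMκ : 3 * M / D.d < κ := by
    rw [div_lt_iff₀ hd, hM]
    linarith
  obtain ⟨-, -, -, hmain⟩ := Pool.Agent.Y911.AA.main
  obtain ⟨ν₁, C, hν₁, hC, hv⟩ := hmain M hM3
  set C₁ : ℝ := (Mx D : ℝ) ^ 3 * (Rc D * PS S) ^ (3 / (D.d : ℝ)) with hC₁
  have hC₁1 : 1 ≤ C₁ := by
    have h1 : (1 : ℝ) ≤ (Mx D : ℝ) ^ 3 := one_le_pow₀ hMx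
    have h2 : (1 : ℝ) ≤ (Rc D * PS S) ^ (3 / (D.d : ℝ)) :=
      Real.one_le_rpow (by nlinarith) (by positivity)
    rw [hC₁]
    nlinarith
  set L : ℝ := C₁ ^ M * (2 * (Mx D : ℝ) ^ 4 * |(D.σ : ℝ)|) with hL
  have hL0 : 0 < L := by positivity
  set e : ℝ := κ - 3 * M / D.d with he
  have he0 : 0 < e := by
    rw [he]
    linarith
  obtain ⟨X₀, hX₀1, hX₀⟩ : ∃ X₀ : ℝ, 1 ≤ X₀ ∧ ∀ X : ℝ, X₀ ≤ X → L ≤ X ^ e := by
    obtain ⟨X₁, h1⟩ := eventually_atTop.1 ((tendsto_rpow_atTop he0).eventually_ge_atTop L)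
    exact ⟨max X₁ 1, le_max_right _ _, fun X hX => h1 X ((le_max_left _ _).trans hX)⟩
  set N₀ : ℕ := (Tr D (C₁ * X₀ ^ (3 / (D.d : ℝ))) 0).ncard with hN₀
  set ν : ℝ := min (3 * ν₁ / D.d) (2 / D.d) with hν
  have hν0 : 0 < ν := lt_min (by positivity) (by positivity)
  have hν1 : ν ≤ 3 * ν₁ / D.d := min_le_left _ _
  have hν2 : ν ≤ 2 / D.d := min_le_right _ _
  set C₂ : ℝ := C * C₁ ^ (2 / 3 - ν₁) with hC₂
  have hC₂0 : 0 < C₂ := by positivity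
  refine ⟨ν, (Kc D : ℝ) * (C₂ + N₀) + 1, hν0, by positivity, ?_⟩
  intro X hX F hF
  have hX0 : 0 < X := by linarith
  have hXν : 1 ≤ X ^ (θ D - ν) := Real.one_le_rpow hX (by rw [hθ]; linarith)
  have hN1 : ∀ X : ℝ, 0 < X → (Mx D : ℝ) ^ 3 * (Rc D * PS S * X) ^ (3 / (D.d : ℝ)) =
      C₁ * X ^ (3 / (D.d : ℝ)) := by
    intro X hX
    rw [hC₁, Real.mul_rpow (by positivity) hX.le]
    ring
  have hXd : 1 ≤ X ^ (3 / (D.d : ℝ)) := Real.one_le_rpow hX (by positivity)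
  have hK0 : (0 : ℝ) ≤ Kc D := Nat.cast_nonneg _
  rcases lt_or_ge X X₀ with hlt | hge
  · have h1 := inj S hm (X := X) (Y := 0) (N := C₁ * X₀ ^ (3 / (D.d : ℝ)))
      (by rw [hN1 X hX0]; gcongr) F (fun p hp => by
        obtain ⟨a1, a2, a3⟩ := hF p hp
        refine ⟨a1, a2, ?_⟩
        have : 0 ≤ hgt D p := hgt_nonneg p
        exact_mod_cast this)
    have h2 : (F.card : ℝ) ≤ Kc D * N₀ := by exact_mod_cast h1
    have h3 : 0 ≤ (Kc D : ℝ) * C₂ := by positivity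
    have h4 : 0 ≤ (Kc D : ℝ) * N₀ := by positivity
    nlinarith
  · have h1 := inj S hm (X := X) (Y := X ^ κ / |(D.σ : ℝ)|) (N := C₁ * X ^ (3 / (D.d : ℝ)))
      (by rw [hN1 X hX0]) F (fun p hp => by
        obtain ⟨a1, a2, a3⟩ := hF p hp
        refine ⟨a1, a2, ?_⟩
        have h7 : (Ht D p : ℝ) ≤ |(D.σ : ℝ)| * hgt D p := by exact_mod_cast ht_le_hgt a1
        rw [div_le_iff₀ (by linarith)]
        linarith)
    have hN1' : 1 ≤ C₁ * X ^ (3 / (D.d : ℝ)) := by nlinarith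
    have hsub : Tr D (C₁ * X ^ (3 / (D.d : ℝ))) (X ^ κ / |(D.σ : ℝ)|) ⊆
        viol M (C₁ * X ^ (3 / (D.d : ℝ))) := by
      rintro t ⟨t1, t2⟩
      refine ⟨t1, ?_⟩
      have hr : (rad3 t : ℝ) ≤ C₁ * X ^ (3 / (D.d : ℝ)) := t1.2.2.2
      have h2 : (rad3 t : ℝ) ^ M ≤ C₁ ^ M * X ^ (3 * M / D.d) := by
        calc (rad3 t : ℝ) ^ M ≤ (C₁ * X ^ (3 / (D.d : ℝ))) ^ M :=
              Real.rpow_le_rpow (Nat.cast_nonneg _) hr hM0.le
          _ = C₁ ^ M * X ^ (3 * M / D.d) := by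
              rw [Real.mul_rpow (by positivity) (by positivity), ← Real.rpow_mul hX0.le]
              congr 2
              ring
      have h3 := hX₀ X hge
      have h4 : L * X ^ (3 * M / D.d) ≤ X ^ κ := by
        calc L * X ^ (3 * M / D.d) ≤ X ^ e * X ^ (3 * M / D.d) := by gcongr
          _ = X ^ κ := by
              rw [← Real.rpow_add hX0, he]
              congr 1
              ring
      have h5 : 0 < 2 * (Mx D : ℝ) ^ 4 * |(D.σ : ℝ)| := by positivity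
      have h6 : (C₁ ^ M * X ^ (3 * M / D.d)) * (2 * (Mx D : ℝ) ^ 4 * |(D.σ : ℝ)|) ≤
          ((t.1 + t.2 : ℕ) : ℝ) * (2 * (Mx D : ℝ) ^ 4 * |(D.σ : ℝ)|) := by
        rw [div_le_iff₀ (by linarith)] at t2
        calc (C₁ ^ M * X ^ (3 * M / D.d)) * (2 * (Mx D : ℝ) ^ 4 * |(D.σ : ℝ)|)
            = L * X ^ (3 * M / D.d) := by
              rw [hL]
              ring
          _ ≤ X ^ κ := h4
          _ ≤ 2 * (Mx D : ℝ) ^ 4 * ((t.1 + t.2 : ℕ) : ℝ) * |(D.σ : ℝ)| := t2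
          _ = _ := by ring
      exact h2.trans (le_of_mul_le_mul_right h6 h5)
    have hvf : (viol M (C₁ * X ^ (3 / (D.d : ℝ)))).Finite :=
      (Pool.Agent.Y911.AA.triples_finite' _).subset (fun _ h => h.1)
    have h2 : ((Tr D (C₁ * X ^ (3 / (D.d : ℝ))) (X ^ κ / |(D.σ : ℝ)|)).ncard : ℝ) ≤
        C₂ * X ^ (θ D - ν) := by
      calc ((Tr D (C₁ * X ^ (3 / (D.d : ℝ))) (X ^ κ / |(D.σ : ℝ)|)).ncard : ℝ)
          ≤ ((viol M (C₁ * X ^ (3 / (D.d : ℝ)))).ncard : ℝ) := by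
            exact_mod_cast Set.ncard_le_ncard hsub hvf
        _ ≤ C * (C₁ * X ^ (3 / (D.d : ℝ))) ^ (2 / 3 - ν₁) := hv _ hN1'
        _ = C₂ * X ^ (2 / D.d - 3 * ν₁ / D.d) := by
            rw [hC₂, Real.mul_rpow (by positivity) (by positivity), ← Real.rpow_mul hX0.le,
              mul_assoc]
            congr 3
            ring
        _ ≤ C₂ * X ^ (θ D - ν) := by
            refine mul_le_mul_of_nonneg_left ?_ hC₂0.le
            exact Real.rpow_le_rpow_of_exponent_le hX (by rw [hθ]; linarith)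
    have h3 : (F.card : ℝ) ≤
        Kc D * ((Tr D (C₁ * X ^ (3 / (D.d : ℝ))) (X ^ κ / |(D.σ : ℝ)|)).ncard : ℝ) := by
      exact_mod_cast h1
    have h4 : 0 ≤ (Kc D : ℝ) * N₀ * X ^ (θ D - ν) :=
      mul_nonneg (mul_nonneg hK0 (Nat.cast_nonneg _)) (by linarith)
    have h5 := h3.trans (mul_le_mul_of_nonneg_left h2 hK0)
    have h6 : ((Kc D : ℝ) * (C₂ + N₀) + 1) * X ^ (θ D - ν) = Kc D * (C₂ * X ^ (θ D - ν)) +
        Kc D * N₀ * X ^ (θ D - ν) + X ^ (θ D - ν) := by ring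
    rw [h6]
    linarith

variable (P : Pre)

/-- the integral points of bounded `R` are finitely many -/
theorem pre_fin (hS : ∀ r ∈ S, r.Prime) (hm : P.m = 1) (X : ℝ) :
    {p | P.Pt S p ∧ (P.R S p : ℝ) ≤ X}.Finite := by
  have h0 : ∀ σ : ℕ, {p | (P.dat σ).Ok p ∧ (RS (P.dat σ) S p : ℝ) ≤ X}.Finite := fun σ =>
    all_fin (D := P.dat σ) S hm X
  have h1 : (⋃ σ ∈ (Sig P.m S : Set ℕ),
      ph P.m σ '' {p | (P.dat σ).Ok p ∧ (RS (P.dat σ) S p : ℝ) ≤ X}).Finite :=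
    Set.Finite.biUnion (Sig P.m S).finite_toSet (fun σ _ => (h0 σ).image (ph P.m σ))
  refine h1.subset ?_
  rintro p ⟨h2, h3⟩
  obtain ⟨σ, hσ, p', h4, rfl⟩ := ph_surj P hS h2
  rw [Set.mem_iUnion₂]
  refine ⟨σ, hσ, p', ⟨h4, ?_⟩, rfl⟩
  rw [dat_rs P hS hσ h4]
  exact h3

theorem pre_big (hS : ∀ r ∈ S, r.Prime) (hm : P.m = 1) {κ : ℝ}
    (hκ : 1 / ((P.q : ℝ) * P.m + P.j) < κ) : ∃ ν C : ℝ, 0 < ν ∧ 0 < C ∧ ∀ X : ℝ, 1 ≤ X →
      ({p | P.Pt S p ∧ (P.R S p : ℝ) ≤ X ∧ X ^ κ < (Hh p : ℝ)}.ncard : ℝ) ≤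
        C * X ^ (P.th - ν) := by
  have key : ∀ A : Finset ℕ, ∃ ν C : ℝ, 0 < ν ∧ 0 < C ∧ ∀ X : ℝ, 1 ≤ X →
      ∑ σ ∈ A, ({p | (P.dat σ).Ok p ∧ ((RS (P.dat σ) S p : ℝ) ≤ X ∧
        X ^ κ < (Ht (P.dat σ) p : ℝ))}.ncard : ℝ) ≤ C * X ^ (P.th - ν) := by
    intro A
    induction A using Finset.induction_on with
    | empty =>
      refine ⟨1, 1, one_pos, one_pos, fun X hX => ?_⟩
      rw [sum_empty]
      have : 0 < X := by linarith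
      positivity
    | insert a A ha ih =>
      obtain ⟨ν₁, C₁, h3, h4, h5⟩ := ih
      obtain ⟨ν₂, C₂, h6, h7, h8⟩ := big (P.dat a) S hm (by rw [dat_d]; exact hκ)
      refine ⟨min ν₁ ν₂, C₁ + C₂, lt_min h3 h6, by positivity, fun X hX => ?_⟩
      have hX0 : 0 < X := by linarith
      rw [sum_insert ha]
      have hf : {p | (P.dat a).Ok p ∧ ((RS (P.dat a) S p : ℝ) ≤ X ∧
        X ^ κ < (Ht (P.dat a) p : ℝ))}.Finite :=
        (all_fin (D := P.dat a) S hm X).subset (fun p hp => ⟨hp.1, hp.2.1⟩)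
      have h9 := h8 X hX hf.toFinset (fun p hp => by
        rw [Set.Finite.mem_toFinset] at hp
        exact hp)
      rw [← Set.ncard_eq_toFinset_card _ hf, dat_th] at h9
      have e1 : X ^ (P.th - ν₁) ≤ X ^ (P.th - min ν₁ ν₂) :=
        Real.rpow_le_rpow_of_exponent_le hX (by linarith [min_le_left ν₁ ν₂])
      have e2 : X ^ (P.th - ν₂) ≤ X ^ (P.th - min ν₁ ν₂) :=
        Real.rpow_le_rpow_of_exponent_le hX (by linarith [min_le_right ν₁ ν₂])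
      calc _ ≤ C₂ * X ^ (P.th - ν₂) + C₁ * X ^ (P.th - ν₁) := add_le_add h9 (h5 X hX)
        _ ≤ C₂ * X ^ (P.th - min ν₁ ν₂) + C₁ * X ^ (P.th - min ν₁ ν₂) := by gcongr
        _ = _ := by ring
  obtain ⟨ν, C, h3, h4, h5⟩ := key (Sig P.m S)
  refine ⟨ν, C, h3, h4, fun X hX => ?_⟩
  have h6 := ncard_pts P (S := S) hS (fun r h => (r : ℝ) ≤ X ∧ X ^ κ < (h : ℝ))
    (fun σ _ => (all_fin (D := P.dat σ) S hm X).subset (fun p hp => ⟨hp.1, hp.2.1⟩))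
  rw [h6]
  push_cast
  exact h5 X hX

theorem kap_between : (P.m : ℝ) / ((P.q : ℝ) * P.m + P.j) < P.kap := by
  have := kappa_gt (P.dat 1)
  rw [dat_kap, dat_d] at this
  exact this

/-- **The count of all points.** -/
theorem pre_count (hS : ∀ r ∈ S, r.Prime) (hm : P.m = 1) :
    Tendsto (fun X : ℝ => ({p | P.Pt S p ∧ (P.R S p : ℝ) ≤ X}.ncard : ℝ) / X ^ P.th) atTop
      (𝓝 (P.cst S)) := by
  obtain ⟨κ, h1, h2⟩ := exists_between (kap_between P)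
  have hc := stk_count P S hS h1 h2
  obtain ⟨ν, C, h3, h4, h5⟩ := pre_big S P hS hm (κ := κ) (by
    rw [hm] at h1
    rw [hm]
    push_cast at h1 ⊢
    exact h1)
  have h6 : Tendsto (fun X : ℝ => ({p | P.Pt S p ∧ (P.R S p : ℝ) ≤ X ∧
      X ^ κ < (Hh p : ℝ)}.ncard : ℝ) / X ^ P.th) atTop (𝓝 0) := by
    have h7 : Tendsto (fun X : ℝ => C * X ^ (-ν)) atTop (𝓝 (C * 0)) :=
      (tendsto_rpow_neg_atTop h3).const_mul C
    rw [mul_zero] at h7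
    refine squeeze_zero' ?_ ?_ h7
    · filter_upwards [eventually_ge_atTop 0] with X hX
      positivity
    · filter_upwards [eventually_ge_atTop 1] with X hX
      have hX0 : 0 < X := by linarith
      rw [div_le_iff₀ (by positivity), mul_assoc, ← Real.rpow_add hX0, neg_add_eq_sub]
      exact h5 X hX
  have h8 := hc.add h6
  rw [add_zero] at h8
  refine h8.congr (fun X => ?_)
  rw [← add_div]
  congr 1
  have hf := pre_fin S P hS hm X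
  have hdis : Disjoint {p | P.Pt S p ∧ (P.R S p : ℝ) ≤ X ∧ (Hh p : ℝ) ≤ X ^ κ}
      {p | P.Pt S p ∧ (P.R S p : ℝ) ≤ X ∧ X ^ κ < (Hh p : ℝ)} := by
    rw [Set.disjoint_left]
    rintro p ⟨-, -, a3⟩ ⟨-, -, b3⟩
    linarith
  have hun := Set.ncard_union_eq hdis (hf.subset (fun p hp => ⟨hp.1, hp.2.1⟩))
    (hf.subset (fun p hp => ⟨hp.1, hp.2.1⟩))
  rw [← Nat.cast_add, ← hun]
  congr 2
  ext p
  simp only [Set.mem_union, Set.mem_ofPred_eq]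
  constructor
  · rintro (⟨a1, a2, -⟩ | ⟨a1, a2, -⟩) <;> exact ⟨a1, a2⟩
  · rintro ⟨a1, a2⟩
    rcases le_or_gt (Hh p : ℝ) (X ^ κ) with h | h
    · exact Or.inl ⟨a1, a2, h⟩
    · exact Or.inr ⟨a1, a2, h⟩

/-- **The exceptions of all heights.** -/
theorem pre_exc (hS : ∀ r ∈ S, r.Prime) (hm : P.m = 1) {δ : ℝ} (hδ : 0 < δ) :
    ∃ ν C : ℝ, 0 < ν ∧ 0 < C ∧ ∀ X : ℝ, 1 ≤ X →
      ({p | P.Pt S p ∧ (P.R S p : ℝ) ≤ X ∧
        (P.R S p : ℝ) ^ ((P.m : ℝ) / ((P.q : ℝ) * P.m + P.j) + δ) < Hh p}.ncard : ℝ) ≤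
        C * X ^ (P.th - ν) := by
  obtain ⟨κ, h1, h2⟩ := exists_between (kap_between P)
  have hpos : (0 : ℝ) < (P.q : ℝ) * P.m + P.j := by
    rw [← dat_d P 1]
    exact_mod_cast (P.dat 1).d_pos
  have hκ0 : 0 < κ := lt_of_le_of_lt (by positivity) h1
  obtain ⟨ν₁, C₁, a1, a2, a3⟩ := stk_exc P S hS hκ0 h2 hδ
  obtain ⟨ν₂, C₂, b1, b2, b3⟩ := pre_big S P hS hm (κ := κ) (by
    rw [hm] at h1
    rw [hm]
    push_cast at h1 ⊢
    exact h1)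
  refine ⟨min ν₁ ν₂, C₁ + C₂, lt_min a1 b1, by positivity, fun X hX => ?_⟩
  have hX0 : 0 < X := by linarith
  have hf := pre_fin S P hS hm X
  have hsub : {p | P.Pt S p ∧ (P.R S p : ℝ) ≤ X ∧
        (P.R S p : ℝ) ^ ((P.m : ℝ) / ((P.q : ℝ) * P.m + P.j) + δ) < Hh p} ⊆
      {p | P.Pt S p ∧ (P.R S p : ℝ) ≤ X ∧ (Hh p : ℝ) ≤ X ^ κ ∧
        (P.R S p : ℝ) ^ ((P.m : ℝ) / ((P.q : ℝ) * P.m + P.j) + δ) < Hh p} ∪
      {p | P.Pt S p ∧ (P.R S p : ℝ) ≤ X ∧ X ^ κ < (Hh p : ℝ)} := by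
    rintro p ⟨c1, c2, c3⟩
    rcases le_or_gt (Hh p : ℝ) (X ^ κ) with h | h
    · exact Or.inl ⟨c1, c2, h, c3⟩
    · exact Or.inr ⟨c1, c2, h⟩
  have hc : ({p | P.Pt S p ∧ (P.R S p : ℝ) ≤ X ∧
        (P.R S p : ℝ) ^ ((P.m : ℝ) / ((P.q : ℝ) * P.m + P.j) + δ) < Hh p}.ncard : ℝ) ≤
      ({p | P.Pt S p ∧ (P.R S p : ℝ) ≤ X ∧ (Hh p : ℝ) ≤ X ^ κ ∧
        (P.R S p : ℝ) ^ ((P.m : ℝ) / ((P.q : ℝ) * P.m + P.j) + δ) < Hh p}.ncard : ℝ) +
      ({p | P.Pt S p ∧ (P.R S p : ℝ) ≤ X ∧ X ^ κ < (Hh p : ℝ)}.ncard : ℝ) := by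
    exact_mod_cast (Set.ncard_le_ncard hsub ((hf.subset (fun p hp => ⟨hp.1, hp.2.1⟩)).union
      (hf.subset (fun p hp => ⟨hp.1, hp.2.1⟩)))).trans (Set.ncard_union_le _ _)
  have e1 : X ^ (P.th - ν₁) ≤ X ^ (P.th - min ν₁ ν₂) :=
    Real.rpow_le_rpow_of_exponent_le hX (by linarith [min_le_left ν₁ ν₂])
  have e2 : X ^ (P.th - ν₂) ≤ X ^ (P.th - min ν₁ ν₂) :=
    Real.rpow_le_rpow_of_exponent_le hX (by linarith [min_le_right ν₁ ν₂])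
  calc _ ≤ C₁ * X ^ (P.th - ν₁) + C₂ * X ^ (P.th - ν₂) := hc.trans (add_le_add (a3 X hX) (b3 X hX))
    _ ≤ C₁ * X ^ (P.th - min ν₁ ν₂) + C₂ * X ^ (P.th - min ν₁ ν₂) := by gcongr
    _ = _ := by ring

end Pool.Agent.T2h82.Ln
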