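import Mathlib

/-!
# Points of the line with one stacky point: the data

The forms `α i u + γ i x ^ m`.
-/

set_option autoImplicit false

namespace Pool.Agent.T2h82.Ln

open Finset

/-- the data: `q` forms `α i u + γ i x ^ m`, and the factor `x ^ j` -/
structure Dat where
  m : ℕ
  q : ℕ
  j : ℕ
  α : Fin q → ℤ
  γ : Fin q → ℤ
  σ : ℤ
  hm : 1 ≤ m
  hj : j ≤ 1
  hα : ∀ i, α i ≠ 0
  hdet : ∀ i k, i ≠ k → α i * γ k - α k * γ i ≠ 0
  hσ : σ ≠ 0
  hd : m + 2 ≤ q * m + j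

namespace Dat

variable (D : Dat)

/-- the forms -/
def f (i : Fin D.q) (p : ℤ × ℤ) : ℤ := D.α i * p.2 + D.γ i * p.1 ^ D.m

/-- the product -/
def G (p : ℤ × ℤ) : ℤ := p.1 ^ D.j * ∏ i, D.f i p

/-- the degree of the product, for the weights `1` and `m` -/
def d : ℕ := D.q * D.m + D.j

/-- the determinants -/
def δ (i k : Fin D.q) : ℤ := D.α i * D.γ k - D.α k * D.γ i

/-- the pairs considered -/
structure Ok (p : ℤ × ℤ) : Prop where
  x0 : 0 < p.1
  f0 : ∀ i, D.f i p ≠ 0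
  cop : IsCoprime (D.σ * p.1) p.2

theorem q2 : 2 ≤ D.q := by
  by_contra h
  push Not at h
  have h1 := D.hd
  have h2 := D.hj
  have h3 : D.q * D.m ≤ 1 * D.m := Nat.mul_le_mul_right _ (by omega)
  omega

theorem d_pos : 0 < D.d := by
  have := D.hd
  unfold d
  omega

theorem le_d : D.m + 2 ≤ D.d := D.hd

variable {D}

theorem Ok.cx {p : ℤ × ℤ} (h : D.Ok p) : IsCoprime p.1 p.2 := h.cop.of_mul_left_right

theorem Ok.G0 {p : ℤ × ℤ} (h : D.Ok p) : D.G p ≠ 0 := by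
  unfold G
  exact mul_ne_zero (pow_ne_zero _ h.x0.ne') (prod_ne_zero_iff.2 (fun i _ => h.f0 i))

theorem id1 (i k : Fin D.q) (p : ℤ × ℤ) :
    D.α i * D.f k p - D.α k * D.f i p = D.δ i k * p.1 ^ D.m := by
  unfold f δ
  ring

theorem id2 (i k : Fin D.q) (p : ℤ × ℤ) :
    D.γ k * D.f i p - D.γ i * D.f k p = D.δ i k * p.2 := by
  unfold f δ
  ring

/-- common divisors of two forms divide the determinant -/
theorem Ok.dvd_det {p : ℤ × ℤ} (h : D.Ok p) {i k : Fin D.q} {g : ℤ} (h1 : g ∣ D.f i p)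
    (h2 : g ∣ D.f k p) : g ∣ D.δ i k := by
  have a1 : g ∣ D.δ i k * p.1 ^ D.m := by
    rw [← id1]
    exact dvd_sub (h2.mul_left _) (h1.mul_left _)
  have a2 : g ∣ D.δ i k * p.2 := by
    rw [← id2]
    exact dvd_sub (h1.mul_left _) (h2.mul_left _)
  obtain ⟨a, b, hab⟩ := (h.cx.pow_left (m := D.m))
  have : D.δ i k = a * (D.δ i k * p.1 ^ D.m) + b * (D.δ i k * p.2) := by
    linear_combination (-D.δ i k) * hab
  rw [this]
  exact dvd_add (a1.mul_left _) (a2.mul_left _)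

/-- common divisors of `x` and a form divide the coefficient -/
theorem Ok.dvd_alpha {p : ℤ × ℤ} (h : D.Ok p) {i : Fin D.q} {g : ℤ} (h1 : g ∣ p.1)
    (h2 : g ∣ D.f i p) : g ∣ D.α i := by
  have a1 : g ∣ D.α i * p.2 := by
    have e : D.α i * p.2 = D.f i p - D.γ i * p.1 ^ D.m := by unfold f; ring
    rw [e]
    exact dvd_sub h2 ((dvd_pow h1 (by have := D.hm; omega)).mul_left _)
  obtain ⟨a, b, hab⟩ := h.cx
  have : D.α i = D.α i * a * p.1 + b * (D.α i * p.2) := by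
    linear_combination (-D.α i) * hab
  rw [this]
  exact dvd_add (h1.mul_left _) (a1.mul_left _)

variable (D)

/-- a bound for the bad primes -/
def M₀ (S : Finset ℕ) : ℕ :=
  D.σ.natAbs + ∑ i, (D.α i).natAbs + ∑ i, ∑ k, (D.δ i k).natAbs + ∑ p ∈ S, p + 1

theorem M₀_pos (S : Finset ℕ) : 0 < D.M₀ S := by
  unfold M₀
  omega

theorem alpha_le (S : Finset ℕ) (i : Fin D.q) : (D.α i).natAbs ≤ D.M₀ S := by
  have : (D.α i).natAbs ≤ ∑ i, (D.α i).natAbs :=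
    single_le_sum (f := fun i => (D.α i).natAbs) (fun _ _ => Nat.zero_le _) (mem_univ i)
  unfold M₀
  omega

theorem delta_le (S : Finset ℕ) (i k : Fin D.q) : (D.δ i k).natAbs ≤ D.M₀ S := by
  have h1 : (D.δ i k).natAbs ≤ ∑ k, (D.δ i k).natAbs :=
    single_le_sum (f := fun k => (D.δ i k).natAbs) (fun _ _ => Nat.zero_le _) (mem_univ k)
  have h2 : ∑ k, (D.δ i k).natAbs ≤ ∑ i, ∑ k, (D.δ i k).natAbs :=
    single_le_sum (f := fun i => ∑ k, (D.δ i k).natAbs) (fun _ _ => Nat.zero_le _) (mem_univ i)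
  unfold M₀
  omega

theorem sigma_le (S : Finset ℕ) : D.σ.natAbs ≤ D.M₀ S := by
  unfold M₀
  omega

theorem mem_le (S : Finset ℕ) {p : ℕ} (hp : p ∈ S) : p ≤ D.M₀ S := by
  have : p ≤ ∑ p ∈ S, p := single_le_sum (f := fun p => p) (fun _ _ => Nat.zero_le _) hp
  unfold M₀
  omega

variable {D}

theorem not_dvd_of_le {a : ℤ} (ha : a ≠ 0) {p M : ℕ} (hM : a.natAbs ≤ M) (hp : M < p) :
    ¬ (p : ℤ) ∣ a := by
  intro h
  have h1 : p ∣ a.natAbs := Int.natCast_dvd.1 h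
  have h2 := Nat.le_of_dvd (by omega) h1
  omega

theorem Ok.big_det {S : Finset ℕ} {p : ℤ × ℤ} (h : D.Ok p) {i k : Fin D.q} (hik : i ≠ k) {r : ℕ}
    (hr : D.M₀ S < r) (h1 : (r : ℤ) ∣ D.f i p) : ¬ (r : ℤ) ∣ D.f k p := fun h2 =>
  not_dvd_of_le (D.hdet i k hik) (D.delta_le S i k) hr (h.dvd_det h1 h2)

theorem Ok.big_alpha {S : Finset ℕ} {p : ℤ × ℤ} (h : D.Ok p) {i : Fin D.q} {r : ℕ}
    (hr : D.M₀ S < r) (h1 : (r : ℤ) ∣ p.1) : ¬ (r : ℤ) ∣ D.f i p := fun h2 =>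
  not_dvd_of_le (D.hα i) (D.alpha_le S i) hr (h.dvd_alpha h1 h2)

variable (D)

/-- the factors `x, f 0, …` with index in `Option (Fin q)` -/
def g (o : Option (Fin D.q)) (p : ℤ × ℤ) : ℤ := o.elim p.1 (fun i => D.f i p)

@[simp] theorem g_none (p : ℤ × ℤ) : D.g none p = p.1 := rfl
@[simp] theorem g_some (i : Fin D.q) (p : ℤ × ℤ) : D.g (some i) p = D.f i p := rfl

variable {D}

theorem Ok.g0 {p : ℤ × ℤ} (h : D.Ok p) (o : Option (Fin D.q)) : D.g o p ≠ 0 := by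
  cases o with
  | none => exact h.x0.ne'
  | some i => exact h.f0 i

theorem Ok.big {S : Finset ℕ} {p : ℤ × ℤ} (h : D.Ok p) {o o' : Option (Fin D.q)} (hoo : o ≠ o')
    {r : ℕ} (hr : D.M₀ S < r) (h1 : (r : ℤ) ∣ D.g o p) : ¬ (r : ℤ) ∣ D.g o' p := by
  cases o with
  | none =>
    cases o' with
    | none => exact absurd rfl hoo
    | some i => exact h.big_alpha hr h1
  | some i =>
    cases o' with
    | none => exact fun h2 => h.big_alpha hr h2 h1
    | some k => exact h.big_det (fun e => hoo (by rw [e])) hr h1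

/-- the product and the factors -/
theorem G_eq (p : ℤ × ℤ) : D.G p = D.g none p ^ D.j * ∏ i, D.g (some i) p := rfl

theorem G_dvd_prod (p : ℤ × ℤ) : D.G p ∣ ∏ o, D.g o p := by
  rw [Fintype.prod_option, G_eq]
  refine mul_dvd_mul ?_ dvd_rfl
  have := D.hj
  calc D.g none p ^ D.j ∣ D.g none p ^ 1 := pow_dvd_pow _ this
    _ = _ := pow_one _

end Dat

end Pool.Agent.T2h82.Ln
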