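import Mathlib

/-!
# The repeated part of an integer, outside of a set of primes, and its truncation
-/

set_option autoImplicit false

namespace Pool.Agent.T2h82.Ln

open Finset
open scoped Nat

/-- the product of the primes outside of `S` which divide `n` -/
def radS (S : Finset ℕ) (n : ℕ) : ℕ := ∏ p ∈ n.primeFactors.filter (fun p => p ∉ S), p

/-- the exponent of `p` in the repeated part -/
def ee (S : Finset ℕ) (p v : ℕ) : ℕ := v - if p ∈ S then 0 else 1

/-- the repeated part `n / radS S n` -/
def eS (S : Finset ℕ) (n : ℕ) : ℕ := ∏ p ∈ n.primeFactors, p ^ ee S p (n.factorization p)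

theorem ee_zero (S : Finset ℕ) (p : ℕ) : ee S p 0 = 0 := by
  unfold ee
  omega

theorem radS_pos (S : Finset ℕ) (n : ℕ) : 0 < radS S n :=
  prod_pos fun p hp => (Nat.prime_of_mem_primeFactors (mem_filter.1 hp).1).pos

theorem eS_pos (S : Finset ℕ) (n : ℕ) : 0 < eS S n :=
  prod_pos fun p hp => Nat.pow_pos (Nat.prime_of_mem_primeFactors hp).pos

theorem radS_mul_eS (S : Finset ℕ) {n : ℕ} (hn : n ≠ 0) : radS S n * eS S n = n := by
  have h1 : n = ∏ p ∈ n.primeFactors, p ^ n.factorization p := by
    conv_lhs => rw [← Nat.prod_factorization_pow_eq_self hn]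
    rfl
  conv_rhs => rw [h1]
  unfold radS eS
  rw [prod_filter, ← prod_mul_distrib]
  refine prod_congr rfl (fun p hp => ?_)
  have hv : 1 ≤ n.factorization p := by
    have := (Nat.prime_of_mem_primeFactors hp).factorization_pos_of_dvd hn
      (Nat.dvd_of_mem_primeFactors hp)
    omega
  unfold ee
  by_cases hs : p ∈ S
  · rw [if_neg (by simpa using hs), if_pos hs, one_mul, Nat.sub_zero]
  · rw [if_pos hs, if_neg hs, ← pow_succ']
    congr 1
    omega

/-- the product over a larger set -/
theorem eS_eq (S : Finset ℕ) (n : ℕ) (P : Finset ℕ) (h : n.primeFactors ⊆ P) :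
    eS S n = ∏ p ∈ P, p ^ ee S p (n.factorization p) := by
  unfold eS
  refine prod_subset h (fun p _ hp => ?_)
  have : n.factorization p = 0 := by
    rw [← Finsupp.notMem_support_iff, Nat.support_factorization]
    exact hp
  rw [this, ee_zero, pow_zero]

/-- `W` sees all the repeated primes of `n` -/
def Sees (S : Finset ℕ) (W n : ℕ) : Prop :=
  ∀ p ∈ n.primeFactors, (p ∈ S ∨ 2 ≤ n.factorization p) → p ^ n.factorization p ≤ W

theorem eS_gcd {S : Finset ℕ} {W n : ℕ} (hn : n ≠ 0) (h : Sees S W n) :
    eS S (Nat.gcd n (W !)) = eS S n := by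
  have hW : W ! ≠ 0 := (Nat.factorial_pos W).ne'
  have hg : Nat.gcd n (W !) ≠ 0 := Nat.gcd_ne_zero_left hn
  rw [eS_eq S (Nat.gcd n (W !)) n.primeFactors (Nat.primeFactors_mono (Nat.gcd_dvd_left _ _) hn)]
  unfold eS
  refine prod_congr rfl (fun p hp => ?_)
  have hpp := Nat.prime_of_mem_primeFactors hp
  congr 1
  rw [Nat.factorization_gcd hn hW, Finsupp.inf_apply]
  by_cases hc : p ∈ S ∨ 2 ≤ n.factorization p
  · have h1 := h p hp hc
    have h2 : p ^ n.factorization p ∣ W ! := Nat.dvd_factorial (Nat.pow_pos hpp.pos) h1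
    have h3 : n.factorization p ≤ (W !).factorization p :=
      (hpp.pow_dvd_iff_le_factorization hW).1 h2
    rw [min_eq_left h3]
  · push Not at hc
    unfold ee
    rw [if_neg hc.1]
    have : min (n.factorization p) ((W !).factorization p) ≤ n.factorization p := min_le_left _ _
    omega

/-- the repeated part is bounded if `W` sees everything -/
theorem eS_le {S : Finset ℕ} {W n : ℕ} (h : Sees S W n) : eS S n ≤ ∏ p ∈ range (W + 1), W ^ W := by
  have h0 : eS S n = ∏ p ∈ n.primeFactors.filter (fun p => p ∈ S ∨ 2 ≤ n.factorization p),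
      p ^ ee S p (n.factorization p) := by
    unfold eS
    rw [prod_filter]
    refine prod_congr rfl (fun p hp => ?_)
    split_ifs with hc
    · rfl
    · push Not at hc
      have : ee S p (n.factorization p) = 0 := by
        unfold ee
        rw [if_neg hc.1]
        omega
      rw [this, pow_zero]
  rw [h0]
  have hsub : n.primeFactors.filter (fun p => p ∈ S ∨ 2 ≤ n.factorization p) ⊆ range (W + 1) := by
    intro p hp
    rw [mem_filter] at hp
    have h1 := h p hp.1 hp.2
    have hpp := Nat.prime_of_mem_primeFactors hp.1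
    have hv : n.factorization p ≠ 0 := by
      rw [← Finsupp.mem_support_iff, Nat.support_factorization]
      exact hp.1
    have h2 : p ≤ p ^ n.factorization p := Nat.le_self_pow hv p
    rw [mem_range]
    omega
  rcases Nat.eq_zero_or_pos W with hW | hW
  · have : n.primeFactors.filter (fun p => p ∈ S ∨ 2 ≤ n.factorization p) = ∅ := by
      rw [eq_empty_iff_forall_notMem]
      intro p hp
      have h1 := hsub hp
      rw [mem_filter] at hp
      have hpp := Nat.prime_of_mem_primeFactors hp.1
      have := hpp.two_le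
      rw [mem_range] at h1
      omega
    rw [this, prod_empty, hW]
    simp
  calc ∏ p ∈ n.primeFactors.filter (fun p => p ∈ S ∨ 2 ≤ n.factorization p),
        p ^ ee S p (n.factorization p)
      ≤ ∏ p ∈ n.primeFactors.filter (fun p => p ∈ S ∨ 2 ≤ n.factorization p), W ^ W := by
        refine prod_le_prod' (fun p hp => ?_)
        rw [mem_filter] at hp
        have hpp := Nat.prime_of_mem_primeFactors hp.1
        have h1 := h p hp.1 hp.2
        calc p ^ ee S p (n.factorization p) ≤ p ^ n.factorization p :=
              Nat.pow_le_pow_right hpp.pos (by unfold ee; omega)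
          _ ≤ W := h1
          _ ≤ W ^ W := Nat.le_self_pow (by omega) W
    _ ≤ ∏ p ∈ range (W + 1), W ^ W := by
        refine prod_le_prod_of_subset_of_one_le' hsub (fun p _ _ => ?_)
        exact Nat.one_le_pow _ _ hW

end Pool.Agent.T2h82.Ln
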