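import Pool.Agent.T2h82.As.Arith
import Pool.Agent.T2h82.Ln.Def
import Pool.Agent.T2h82.Ln.Ex

/-!
# The pairs which the truncation does not see
-/

set_option autoImplicit false

namespace Pool.Agent.T2h82.Ln

open Finset
open Pool.Agent.T2h82 (pw pw_pos pw_dvd sr sr_pos card_sr card_natAbs pw_le_sr)
open Pool.Agent.T2h82.As (bad_int card_prod_le card_box bad_cop)
open scoped Nat

variable (D : Dat)

theorem pp_le {n r : ℕ} (_hn : n ≠ 0) (_hr : r.Prime) (h : 2 ≤ n.factorization r) :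
    r ^ n.factorization r ≤ pw n := by
  have h1 : r ^ n.factorization r ∣ pw n := by
    unfold pw
    refine dvd_prod_of_mem (fun p => p ^ n.factorization p) (mem_filter.2 ⟨?_, by omega⟩)
    rw [← Nat.support_factorization, Finsupp.mem_support_iff]
    omega
  exact Nat.le_of_dvd (pw_pos n) h1

theorem pp_le' {n r : ℕ} (hn : n ≠ 0) (hr : r.Prime) : r ^ n.factorization r ≤ r * pw n := by
  rcases Nat.lt_or_ge (n.factorization r) 2 with h | h
  · calc r ^ n.factorization r ≤ r ^ 1 := Nat.pow_le_pow_right hr.pos (by omega)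
      _ = r * 1 := by ring
      _ ≤ _ := Nat.mul_le_mul_left _ (pw_pos n)
  · exact (pp_le hn hr h).trans (Nat.le_mul_of_pos_left _ hr.pos)

/-- if the powerful parts of the factors are at most `V`, a number seen from far is enough -/
theorem sees {D : Dat} (S : Finset ℕ) {V : ℕ} (hV : 1 ≤ V) {p : ℤ × ℤ} (h : D.Ok p)
    (hp : ∀ o, pw (D.g o p).natAbs ≤ V) :
    Sees S ((D.M₀ S * V) ^ (D.q + 1)) (D.G p).natAbs := by
  intro r hr hc
  have hrp := Nat.prime_of_mem_primeFactors hr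
  have hrG := Nat.dvd_of_mem_primeFactors hr
  have hM := D.M₀_pos S
  have h0 : ∀ o, (D.g o p).natAbs ≠ 0 := fun o => Int.natAbs_ne_zero.2 (h.g0 o)
  have hprod : (∏ o, (D.g o p).natAbs) ≠ 0 := prod_ne_zero_iff.2 (fun o _ => h0 o)
  have hdv : (D.G p).natAbs ∣ ∏ o, (D.g o p).natAbs := by
    have h1 := Dat.G_dvd_prod (D := D) p
    have h2 := Int.natAbs_dvd_natAbs.2 h1
    have h3 : (∏ o, D.g o p).natAbs = ∏ o, (D.g o p).natAbs := map_prod Int.natAbsHom _ _
    rwa [h3] at h2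
  have hfac : (D.G p).natAbs.factorization r ≤ ∑ o, ((D.g o p).natAbs).factorization r := by
    have h1 := (Nat.factorization_le_iff_dvd (Int.natAbs_ne_zero.2 h.G0) hprod).2 hdv r
    rw [Nat.factorization_prod (fun o _ => h0 o)] at h1
    rwa [Finsupp.finsetSum_apply] at h1
  have hVV : 1 ≤ D.M₀ S * V := Nat.one_le_iff_ne_zero.2 (by positivity)
  rcases Nat.lt_or_ge (D.M₀ S) r with hbig | hsmall
  · -- a large prime: only one factor
    have hrS : r ∉ S := fun hs => by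
      have := D.mem_le S hs
      omega
    have h2 : 2 ≤ (D.G p).natAbs.factorization r := by
      rcases hc with hc | hc
      · exact absurd hc hrS
      · exact hc
    obtain ⟨o, -, ho⟩ := (Prime.dvd_finsetProd_iff hrp.prime _).1 (hrG.trans hdv)
    have hz : ∀ o', o' ≠ o → ((D.g o' p).natAbs).factorization r = 0 := by
      intro o' hoo
      refine Nat.factorization_eq_zero_of_not_dvd (fun hd => ?_)
      exact h.big (S := S) hoo hbig (Int.natCast_dvd.2 hd) (Int.natCast_dvd.2 ho)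
    have hs : ∑ o, ((D.g o p).natAbs).factorization r = ((D.g o p).natAbs).factorization r :=
      sum_eq_single o (fun o' _ hoo => hz o' hoo) (fun hn => absurd (mem_univ _) hn)
    rw [hs] at hfac
    calc r ^ (D.G p).natAbs.factorization r ≤ r ^ ((D.g o p).natAbs).factorization r :=
          Nat.pow_le_pow_right hrp.pos hfac
      _ ≤ pw (D.g o p).natAbs := pp_le (h0 o) hrp (h2.trans hfac)
      _ ≤ V := hp o
      _ ≤ D.M₀ S * V := Nat.le_mul_of_pos_left _ hM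
      _ ≤ _ := Nat.le_self_pow (by omega) _
  · calc r ^ (D.G p).natAbs.factorization r
        ≤ r ^ (∑ o, ((D.g o p).natAbs).factorization r) := Nat.pow_le_pow_right hrp.pos hfac
      _ = ∏ o, r ^ ((D.g o p).natAbs).factorization r := (prod_pow_eq_pow_sum _ _ _).symm
      _ ≤ ∏ _o : Option (Fin D.q), (D.M₀ S * V) := by
          refine prod_le_prod' (fun o _ => (pp_le' (h0 o) hrp).trans ?_)
          exact Nat.mul_le_mul hsmall (hp o)
      _ = _ := by
          rw [prod_const, card_univ, Fintype.card_option, Fintype.card_fin]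

/-- the pairs which the truncation does not see -/
def Bad (V : ℕ) (p : ℤ × ℤ) : Prop :=
  p.1 = 0 ∨ p.2 = 0 ∨ (∃ i, D.f i p = 0) ∨ (∃ o, V < pw (D.g o p).natAbs) ∨
    ∃ r : ℕ, V < r ∧ (r : ℤ) ∣ p.1 ∧ (r : ℤ) ∣ p.2

theorem pw_zero : pw 0 = 1 := by
  unfold pw
  simp

theorem bad_all (K : ℝ) (hK : 0 < K) : ∃ C : ℝ, 0 < C ∧
    ∀ (E : ℝ) (V : ℕ) (T : ℝ), 1 ≤ E → E ^ 3 ≤ V → 1 ≤ T → ∀ S : Finset (ℤ × ℤ),
      (∀ p ∈ S, |(p.1 : ℝ)| ≤ K * T ∧ |(p.2 : ℝ)| ≤ K * T ^ D.m ∧ Bad D V p) →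
      (S.card : ℝ) ≤ C * (T ^ (D.m + 1) / E + T ^ D.m) := by
  classical
  have hm := D.hm
  -- bounds for the forms
  set L : Fin D.q → ℝ := fun i => |(D.α i : ℝ)| * K + |(D.γ i : ℝ)| * K ^ D.m with hL
  have hL0 : ∀ i, 0 ≤ L i := fun i => by positivity
  set c1 : ℝ := (2 * K + 1) + (2 * K + 1) + D.q * (2 * K + 1) with hc1
  set c2 : ℝ := 4 * K * (2 * K + 1) + ∑ i, (2 * K + 1) * (4 * L i) + 8 * K ^ 2 with hc2
  have hc20 : 0 ≤ c2 := by
    have : 0 ≤ ∑ i, (2 * K + 1) * (4 * L i) := sum_nonneg fun i _ => by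
      have := hL0 i
      positivity
    positivity
  refine ⟨c1 + c2, by positivity, ?_⟩
  intro E V T hE hEV hT S hS
  have hE0 : 0 < E := by linarith
  have hT0 : 0 < T := by linarith
  have hTm : 1 ≤ T ^ D.m := one_le_pow₀ hT
  have hV1 : (1 : ℝ) ≤ V := le_trans (one_le_pow₀ hE) hEV
  have hV1' : 1 ≤ V := by exact_mod_cast hV1
  set A : ℕ := ⌊K * T⌋₊ with hA
  set U : ℕ := ⌊K * T ^ D.m⌋₊ with hU
  set Y : Fin D.q → ℕ := fun i => ⌊L i * T ^ D.m⌋₊ with hY
  have hAr : (A : ℝ) ≤ K * T := Nat.floor_le (by positivity)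
  have hUr : (U : ℝ) ≤ K * T ^ D.m := Nat.floor_le (by positivity)
  have hYr : ∀ i, (Y i : ℝ) ≤ L i * T ^ D.m := fun i =>
    Nat.floor_le (mul_nonneg (hL0 i) (by positivity))
  have hnA : ∀ p ∈ S, p.1.natAbs ≤ A := by
    intro p hp
    rw [hA]
    refine Nat.le_floor ?_
    rw [Nat.cast_natAbs]
    push_cast
    exact (hS p hp).1
  have hnU : ∀ p ∈ S, p.2.natAbs ≤ U := by
    intro p hp
    rw [hU]
    refine Nat.le_floor ?_
    rw [Nat.cast_natAbs]
    push_cast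
    exact (hS p hp).2.1
  have hnY : ∀ p ∈ S, ∀ i, (D.f i p).natAbs ≤ Y i := by
    intro p hp i
    rw [hY]
    refine Nat.le_floor ?_
    rw [Nat.cast_natAbs]
    obtain ⟨h1, h2, -⟩ := hS p hp
    unfold Dat.f
    push_cast
    have e1 : |(p.1 : ℝ)| ^ D.m ≤ (K * T) ^ D.m := pow_le_pow_left₀ (abs_nonneg _) h1 _
    calc |(D.α i : ℝ) * p.2 + D.γ i * (p.1 : ℝ) ^ D.m|
        ≤ |(D.α i : ℝ) * p.2| + |(D.γ i : ℝ) * (p.1 : ℝ) ^ D.m| := abs_add_le _ _
      _ = |(D.α i : ℝ)| * |(p.2 : ℝ)| + |(D.γ i : ℝ)| * |(p.1 : ℝ)| ^ D.m := by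
          rw [abs_mul, abs_mul, abs_pow]
      _ ≤ |(D.α i : ℝ)| * (K * T ^ D.m) + |(D.γ i : ℝ)| * (K * T) ^ D.m := by gcongr
      _ = L i * T ^ D.m := by
          rw [hL, mul_pow]
          ring
  have hsr : ∀ n : ℕ, V < pw n → E < (sr n : ℝ) := by
    intro n hn
    have h1 : ((pw n : ℕ) : ℝ) ≤ (sr n : ℝ) ^ 3 := by exact_mod_cast pw_le_sr n
    have h3 : (V : ℝ) < pw n := by exact_mod_cast hn
    have h2 : E ^ 3 < (sr n : ℝ) ^ 3 := by linarith
    exact lt_of_pow_lt_pow_left₀ 3 (by positivity) h2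
  have hne : ∀ n : ℤ, V < pw n.natAbs → n ≠ 0 := by
    rintro n hn rfl
    rw [Int.natAbs_zero, pw_zero] at hn
    omega
  set IA : Finset ℤ := Icc (-(A : ℤ)) A with hIA
  set IU : Finset ℤ := Icc (-(U : ℤ)) U with hIU
  have hmA : ∀ p ∈ S, p.1 ∈ IA := by
    intro p hp
    have := hnA p hp
    rw [hIA, mem_Icc]
    omega
  have hmU : ∀ p ∈ S, p.2 ∈ IU := by
    intro p hp
    have := hnU p hp
    rw [hIU, mem_Icc]
    omega
  have hcA : ((IA.card : ℕ) : ℝ) ≤ (2 * K + 1) * T := by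
    rw [hIA, card_box]
    nlinarith
  have hcU : ((IU.card : ℕ) : ℝ) ≤ (2 * K + 1) * T ^ D.m := by
    rw [hIU, card_box]
    nlinarith
  have hbi : ∀ (M : ℕ), ((((Icc (-(M : ℤ)) M).filter
      (fun u => u ≠ 0 ∧ E < (sr u.natAbs : ℝ))).card : ℕ) : ℝ) ≤ 4 * M / E := by
    intro M
    refine bad_int M E hE0 _ (fun u hu => ?_)
    rw [mem_filter, mem_Icc] at hu
    exact ⟨hu.2.1, by omega, hu.2.2⟩
  have hTT : T ≤ T ^ D.m := by
    calc T = T ^ 1 := (pow_one T).symm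
      _ ≤ T ^ D.m := pow_le_pow_right₀ hT hm
  -- the parts
  have b1 : ((S.filter (fun p => p.1 = 0)).card : ℝ) ≤ (2 * K + 1) * T ^ D.m := by
    have := card_prod_le (S.filter (fun p => p.1 = 0)) {0} IU (fun p hp => by
      rw [mem_filter] at hp
      exact ⟨by rw [mem_singleton]; exact hp.2, hmU p hp.1⟩) 1 _ (by simp) hcU
    linarith
  have b2 : ((S.filter (fun p => p.2 = 0)).card : ℝ) ≤ (2 * K + 1) * T ^ D.m := by
    have := card_prod_le (S.filter (fun p => p.2 = 0)) IA {0} (fun p hp => by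
      rw [mem_filter] at hp
      exact ⟨hmA p hp.1, by rw [mem_singleton]; exact hp.2⟩) _ 1 hcA (by simp)
    have h2 : (2 * K + 1) * T ≤ (2 * K + 1) * T ^ D.m := by gcongr
    linarith
  have b3 : ∀ i, ((S.filter (fun p => D.f i p = 0)).card : ℝ) ≤ (2 * K + 1) * T ^ D.m := by
    intro i
    have h1 : (S.filter (fun p => D.f i p = 0)).card ≤ IA.card := by
      refine card_le_card_of_injOn Prod.fst ?_ ?_
      · intro p hp
        rw [mem_coe, mem_filter] at hp
        exact hmA p hp.1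
      · intro p hp p' hp' hpp
        rw [mem_coe, mem_filter] at hp hp'
        have e1 := hp.2
        have e2 := hp'.2
        unfold Dat.f at e1 e2
        rw [hpp] at e1
        have e3 : D.α i * p.2 = D.α i * p'.2 := by linarith
        exact Prod.ext hpp (mul_left_cancel₀ (D.hα i) e3)
    have h2 : ((S.filter (fun p => D.f i p = 0)).card : ℝ) ≤ (IA.card : ℝ) := by exact_mod_cast h1
    have h3 : (2 * K + 1) * T ≤ (2 * K + 1) * T ^ D.m := by gcongr
    exact (h2.trans hcA).trans h3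
  have b4 : ((S.filter (fun p => V < pw p.1.natAbs)).card : ℝ) ≤
      (4 * (K * T) / E) * ((2 * K + 1) * T ^ D.m) := by
    refine card_prod_le _ _ IU (fun p hp => ?_) _ _ ((hbi A).trans (by gcongr)) hcU
    rw [mem_filter] at hp
    refine ⟨?_, hmU p hp.1⟩
    rw [mem_filter]
    exact ⟨hmA p hp.1, hne _ hp.2, hsr _ hp.2⟩
  have b5 : ∀ i, ((S.filter (fun p => V < pw (D.f i p).natAbs)).card : ℝ) ≤
      ((2 * K + 1) * T) * (4 * (L i * T ^ D.m) / E) := by
    intro i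
    have h1 : (S.filter (fun p => V < pw (D.f i p).natAbs)).card =
        ((S.filter (fun p => V < pw (D.f i p).natAbs)).image (fun p => (p.1, D.f i p))).card := by
      rw [card_image_of_injective]
      intro p p' hpp
      unfold Dat.f at hpp
      simp only [Prod.mk.injEq] at hpp
      obtain ⟨e1, e2⟩ := hpp
      rw [e1] at e2
      have e3 : D.α i * p.2 = D.α i * p'.2 := by linarith
      exact Prod.ext e1 (mul_left_cancel₀ (D.hα i) e3)
    rw [h1]
    have hYi := hYr i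
    refine card_prod_le _ IA _ (fun p hp => ?_) _ _ hcA ((hbi (Y i)).trans (by gcongr))
    rw [mem_image] at hp
    obtain ⟨p', hp', rfl⟩ := hp
    rw [mem_filter] at hp'
    refine ⟨hmA p' hp'.1, ?_⟩
    rw [mem_filter, mem_Icc]
    have := hnY p' hp'.1 i
    exact ⟨⟨by omega, by omega⟩, hne _ hp'.2, hsr _ hp'.2⟩
  have b6 : ((S.filter (fun p => p.1 ≠ 0 ∧ p.2 ≠ 0 ∧ ∃ r : ℕ, V < r ∧ (r : ℤ) ∣ p.1 ∧
      (r : ℤ) ∣ p.2)).card : ℝ) ≤ 8 * (K * T) * (K * T ^ D.m) / E := by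
    refine (bad_cop A U V _ (fun p hp => ?_)).trans ?_
    · rw [mem_filter] at hp
      exact ⟨hp.2.1, hp.2.2.1, hnA p hp.1, hnU p hp.1, hp.2.2.2⟩
    · have h1 : E ≤ (V : ℝ) + 1 := by
        have : E ≤ E ^ 3 := le_self_pow₀ hE (by norm_num)
        linarith
      gcongr
  have hsub : S ⊆ S.filter (fun p => p.1 = 0) ∪ (S.filter (fun p => p.2 = 0) ∪
      (univ.biUnion (fun i => S.filter (fun p => D.f i p = 0)) ∪
      (S.filter (fun p => V < pw p.1.natAbs) ∪
      (univ.biUnion (fun i => S.filter (fun p => V < pw (D.f i p).natAbs)) ∪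
      S.filter (fun p => p.1 ≠ 0 ∧ p.2 ≠ 0 ∧ ∃ r : ℕ, V < r ∧ (r : ℤ) ∣ p.1 ∧
      (r : ℤ) ∣ p.2))))) := by
    intro p hp
    have hb := (hS p hp).2.2
    simp only [mem_union, mem_filter, mem_biUnion, mem_univ, true_and]
    by_cases e1 : p.1 = 0
    · exact Or.inl ⟨hp, e1⟩
    by_cases e2 : p.2 = 0
    · exact Or.inr (Or.inl ⟨hp, e2⟩)
    rcases hb with h | h | ⟨i, h⟩ | ⟨o, h⟩ | h
    · exact absurd h e1
    · exact absurd h e2
    · exact Or.inr (Or.inr (Or.inl ⟨i, hp, h⟩))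
    · cases o with
      | none => exact Or.inr (Or.inr (Or.inr (Or.inl ⟨hp, h⟩)))
      | some i => exact Or.inr (Or.inr (Or.inr (Or.inr (Or.inl ⟨i, hp, h⟩))))
    · exact Or.inr (Or.inr (Or.inr (Or.inr (Or.inr ⟨hp, e1, e2, h⟩))))
  have u := fun (X Y : Finset (ℤ × ℤ)) => (by exact_mod_cast card_union_le X Y :
      ((X ∪ Y).card : ℝ) ≤ (X.card : ℝ) + (Y.card : ℝ))
  have c3 : (((univ.biUnion (fun i => S.filter (fun p => D.f i p = 0))).card : ℕ) : ℝ) ≤
      D.q * ((2 * K + 1) * T ^ D.m) := by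
    have h1 : (((univ.biUnion (fun i => S.filter (fun p => D.f i p = 0))).card : ℕ) : ℝ) ≤
        ∑ i : Fin D.q, (((S.filter (fun p => D.f i p = 0)).card : ℕ) : ℝ) := by
      exact_mod_cast card_biUnion_le
    refine h1.trans ((sum_le_sum (fun i _ => b3 i)).trans ?_)
    rw [sum_const, card_univ, Fintype.card_fin, nsmul_eq_mul]
  have c5 : (((univ.biUnion (fun i => S.filter (fun p => V < pw (D.f i p).natAbs))).card : ℕ) : ℝ) ≤
      ∑ i, ((2 * K + 1) * T) * (4 * (L i * T ^ D.m) / E) := by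
    have h1 : (((univ.biUnion (fun i => S.filter (fun p => V < pw (D.f i p).natAbs))).card : ℕ) : ℝ)
        ≤ ∑ i : Fin D.q, (((S.filter (fun p => V < pw (D.f i p).natAbs)).card : ℕ) : ℝ) := by
      exact_mod_cast card_biUnion_le
    exact h1.trans (sum_le_sum (fun i _ => b5 i))
  have htot : (S.card : ℝ) ≤ (2 * K + 1) * T ^ D.m + ((2 * K + 1) * T ^ D.m +
      (D.q * ((2 * K + 1) * T ^ D.m) + ((4 * (K * T) / E) * ((2 * K + 1) * T ^ D.m) +
      (∑ i, ((2 * K + 1) * T) * (4 * (L i * T ^ D.m) / E) +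
        8 * (K * T) * (K * T ^ D.m) / E)))) := by
    refine (Nat.cast_le.2 (card_le_card hsub)).trans ((u _ _).trans (add_le_add b1 ?_))
    refine (u _ _).trans (add_le_add b2 ?_)
    refine (u _ _).trans (add_le_add c3 ?_)
    refine (u _ _).trans (add_le_add b4 ?_)
    exact (u _ _).trans (add_le_add c5 b6)
  have hT3 : 0 ≤ T ^ (D.m + 1) / E := by positivity
  have e2 : (4 * (K * T) / E) * ((2 * K + 1) * T ^ D.m) +
      (∑ i, ((2 * K + 1) * T) * (4 * (L i * T ^ D.m) / E) + 8 * (K * T) * (K * T ^ D.m) / E) =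
      c2 * (T ^ (D.m + 1) / E) := by
    have h1 : ∑ i, ((2 * K + 1) * T) * (4 * (L i * T ^ D.m) / E) =
        (∑ i, (2 * K + 1) * (4 * L i)) * (T ^ (D.m + 1) / E) := by
      rw [sum_mul]
      exact sum_congr rfl (fun i _ => by ring)
    rw [h1, hc2]
    ring
  have e3 : 0 ≤ c1 * (T ^ (D.m + 1) / E) := by positivity
  have e4 : 0 ≤ c2 * T ^ D.m := by positivity
  have e5 : c1 * T ^ D.m = (2 * K + 1) * T ^ D.m + (2 * K + 1) * T ^ D.m +
      D.q * ((2 * K + 1) * T ^ D.m) := by rw [hc1]; ring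
  nlinarith

end Pool.Agent.T2h82.Ln
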