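import Pool.Agent.T2h82.Ln.Stk
import Pool.Agent.Y911.AA.Main

/-!
# The points of large height: reduction to the abc triples
-/

set_option autoImplicit false

namespace Pool.Agent.T2h82.Ln

open Finset
open Pool.Agent.H328R2.ABC (rad rad_pos rad_le)
open Pool.Agent.Results.MP_1ea25c_nt.AlmostAllTriples (triples rad3)

/-! ### the three smallest -/

/-- three indices with a small product -/
theorem three_small {ι : Type} [DecidableEq ι] (I : Finset ι) (hI : 3 ≤ I.card) (r : ι → ℕ)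
    (hr : ∀ o, 0 < r o) : ∃ o₁ ∈ I, ∃ o₂ ∈ I, ∃ o₃ ∈ I, o₁ ≠ o₂ ∧ o₂ ≠ o₃ ∧ o₃ ≠ o₁ ∧
      (r o₁ * r o₂ * r o₃) ^ I.card ≤ (∏ o ∈ I, r o) ^ 3 := by
  obtain ⟨o₁, h1, m1⟩ := exists_min_image I r (card_pos.1 (by omega))
  have c1 : (I.erase o₁).card = I.card - 1 := card_erase_of_mem h1
  obtain ⟨o₂, h2, m2⟩ := exists_min_image (I.erase o₁) r (card_pos.1 (by omega))
  have c2 : ((I.erase o₁).erase o₂).card = I.card - 2 := by
    rw [card_erase_of_mem h2, c1]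
    omega
  obtain ⟨o₃, h3, m3⟩ := exists_min_image ((I.erase o₁).erase o₂) r (card_pos.1 (by omega))
  have c3 : (((I.erase o₁).erase o₂).erase o₃).card = I.card - 3 := by
    rw [card_erase_of_mem h3, c2]
    omega
  have h2' := mem_erase.1 h2
  have h3' := mem_erase.1 h3
  have h3'' := mem_erase.1 h3'.2
  refine ⟨o₁, h1, o₂, h2'.2, o₃, h3''.2, h2'.1.symm, h3'.1.symm, h3''.1, ?_⟩
  have e1 : r o₁ ≤ r o₃ := m1 _ h3''.2
  have e2 : r o₂ ≤ r o₃ := m2 _ h3'.2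
  have e3 : ∏ o ∈ I, r o = r o₁ * r o₂ * r o₃ * ∏ o ∈ ((I.erase o₁).erase o₂).erase o₃, r o := by
    rw [← mul_prod_erase I r h1, ← mul_prod_erase (I.erase o₁) r h2,
      ← mul_prod_erase ((I.erase o₁).erase o₂) r h3]
    ring
  have e4 : r o₃ ^ (I.card - 3) ≤ ∏ o ∈ ((I.erase o₁).erase o₂).erase o₃, r o := by
    rw [← c3, ← prod_const]
    exact prod_le_prod' (fun o ho => m3 o (mem_of_mem_erase ho))
  have e5 : r o₁ * r o₂ * r o₃ ≤ r o₃ ^ 3 := by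
    calc r o₁ * r o₂ * r o₃ ≤ r o₃ * r o₃ * r o₃ := by gcongr
      _ = _ := by ring
  calc (r o₁ * r o₂ * r o₃) ^ I.card
      = (r o₁ * r o₂ * r o₃) ^ 3 * (r o₁ * r o₂ * r o₃) ^ (I.card - 3) := by
        rw [← pow_add]
        congr 1
        omega
    _ ≤ (r o₁ * r o₂ * r o₃) ^ 3 * (r o₃ ^ 3) ^ (I.card - 3) := by gcongr
    _ = (r o₁ * r o₂ * r o₃ * r o₃ ^ (I.card - 3)) ^ 3 := by
        rw [mul_pow (r o₁ * r o₂ * r o₃), ← pow_mul, ← pow_mul, mul_comm 3]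
    _ ≤ (∏ o ∈ I, r o) ^ 3 := by
        rw [e3]
        gcongr

/-! ### abc triples -/

/-- the possible values -/
def Vals (t : ℕ × ℕ) : Finset ℤ :=
  {(t.1 : ℤ), -(t.1 : ℤ), (t.2 : ℤ), -(t.2 : ℤ), (t.1 : ℤ) + t.2, -((t.1 : ℤ) + t.2)}

theorem vals_card (t : ℕ × ℕ) : (Vals t).card ≤ 6 := by
  unfold Vals
  exact card_le_six

theorem sorted (x y : ℕ) (hx : 0 < x) (hy : 0 < y) (hc : Nat.Coprime x y) :
    ∃ a b : ℕ, 0 < a ∧ a ≤ b ∧ Nat.Coprime a b ∧ ((a = x ∧ b = y) ∨ (a = y ∧ b = x)) := by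
  rcases le_total x y with h | h
  · exact ⟨x, y, hx, h, hc, Or.inl ⟨rfl, rfl⟩⟩
  · exact ⟨y, x, hy, h, hc.symm, Or.inr ⟨rfl, rfl⟩⟩

/-- the abc triple of a coprime pair of integers -/
theorem abc_of (A B : ℤ) (hA : A ≠ 0) (hB : B ≠ 0) (hC : A + B ≠ 0) (hc : IsCoprime A B) :
    ∃ t : ℕ × ℕ, 0 < t.1 ∧ t.1 ≤ t.2 ∧ Nat.Coprime t.1 t.2 ∧
      t.1 * t.2 * (t.1 + t.2) = A.natAbs * B.natAbs * (A + B).natAbs ∧
      A ∈ Vals t ∧ B ∈ Vals t ∧ A.natAbs ≤ t.1 + t.2 ∧ B.natAbs ≤ t.1 + t.2 := by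
  have hAB : Nat.Coprime A.natAbs B.natAbs := Int.isCoprime_iff_gcd_eq_one.1 hc
  have hAC : Nat.Coprime A.natAbs (A + B).natAbs := by
    refine Int.isCoprime_iff_gcd_eq_one.1 ?_
    have := hc.add_mul_left_right 1
    rwa [mul_one, add_comm] at this
  have hBC : Nat.Coprime B.natAbs (A + B).natAbs := by
    refine Int.isCoprime_iff_gcd_eq_one.1 ?_
    have := hc.symm.add_mul_left_right 1
    rwa [mul_one] at this
  have pA : 0 < A.natAbs := by omega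
  have pB : 0 < B.natAbs := by omega
  have pC : 0 < (A + B).natAbs := by omega
  have cases3 : (A + B).natAbs = A.natAbs + B.natAbs ∨ A.natAbs = B.natAbs + (A + B).natAbs ∨
      B.natAbs = A.natAbs + (A + B).natAbs := by omega
  rcases cases3 with h | h | h
  · obtain ⟨a, b, h1, h2, h3, h4⟩ := sorted _ _ pA pB hAB
    refine ⟨(a, b), h1, h2, h3, ?_, ?_, ?_, ?_, ?_⟩
    · rcases h4 with ⟨rfl, rfl⟩ | ⟨rfl, rfl⟩ <;> simp only [h] <;> ring
    · simp only [Vals, mem_insert, mem_singleton]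
      omega
    · simp only [Vals, mem_insert, mem_singleton]
      omega
    · simp only
      omega
    · simp only
      omega
  · obtain ⟨a, b, h1, h2, h3, h4⟩ := sorted _ _ pB pC hBC
    refine ⟨(a, b), h1, h2, h3, ?_, ?_, ?_, ?_, ?_⟩
    · rcases h4 with ⟨rfl, rfl⟩ | ⟨rfl, rfl⟩ <;> simp only [h] <;> ring
    · simp only [Vals, mem_insert, mem_singleton]
      omega
    · simp only [Vals, mem_insert, mem_singleton]
      omega
    · simp only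
      omega
    · simp only
      omega
  · obtain ⟨a, b, h1, h2, h3, h4⟩ := sorted _ _ pA pC hAC
    refine ⟨(a, b), h1, h2, h3, ?_, ?_, ?_, ?_, ?_⟩
    · rcases h4 with ⟨rfl, rfl⟩ | ⟨rfl, rfl⟩ <;> simp only [h] <;> ring
    · simp only [Vals, mem_insert, mem_singleton]
      omega
    · simp only [Vals, mem_insert, mem_singleton]
      omega
    · simp only
      omega
    · simp only
      omega

/-! ### the relation between three factors -/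

variable (D : Dat)

/-- the coefficients of the factors -/
def co (o : Option (Fin D.q)) : ℤ × ℤ := o.elim (1, 0) (fun i => (D.γ i, D.α i))

/-- the determinants -/
def dt (o o' : Option (Fin D.q)) : ℤ := (co D o).1 * (co D o').2 - (co D o).2 * (co D o').1

theorem g_lin (hm : D.m = 1) (o : Option (Fin D.q)) (p : ℤ × ℤ) :
    D.g o p = (co D o).1 * p.1 + (co D o).2 * p.2 := by
  cases o with
  | none =>
    simp [co]
  | some i =>
    simp only [Dat.g_some, Dat.f, co, hm, pow_one, Option.elim_some]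
    ring

theorem dt_ne {o o' : Option (Fin D.q)} (h : o ≠ o') : dt D o o' ≠ 0 := by
  cases o with
  | none =>
    cases o' with
    | none => exact absurd rfl h
    | some i =>
      simp only [dt, co, Option.elim_none, Option.elim_some, one_mul, zero_mul, sub_zero]
      exact D.hα i
  | some i =>
    cases o' with
    | none =>
      simp only [dt, co, Option.elim_none, Option.elim_some, mul_zero, mul_one, zero_sub]
      exact neg_ne_zero.2 (D.hα i)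
    | some k =>
      simp only [dt, co, Option.elim_some]
      have := D.hdet i k (fun e => h (by rw [e]))
      intro h2
      exact this (by linarith)

/-- a bound for the coefficients and determinants -/
def Mx : ℕ := ∑ o, ((co D o).1.natAbs + (co D o).2.natAbs) + ∑ o, ∑ o', (dt D o o').natAbs

theorem co_le (o : Option (Fin D.q)) : (co D o).1.natAbs + (co D o).2.natAbs ≤ Mx D := by
  have : (co D o).1.natAbs + (co D o).2.natAbs ≤
      ∑ o, ((co D o).1.natAbs + (co D o).2.natAbs) :=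
    single_le_sum (f := fun o => (co D o).1.natAbs + (co D o).2.natAbs)
      (fun _ _ => Nat.zero_le _) (mem_univ o)
  unfold Mx
  omega

theorem dt_le (o o' : Option (Fin D.q)) : (dt D o o').natAbs ≤ Mx D := by
  have h1 : (dt D o o').natAbs ≤ ∑ o', (dt D o o').natAbs :=
    single_le_sum (f := fun o' => (dt D o o').natAbs) (fun _ _ => Nat.zero_le _) (mem_univ o')
  have h2 : ∑ o', (dt D o o').natAbs ≤ ∑ o, ∑ o', (dt D o o').natAbs :=
    single_le_sum (f := fun o => ∑ o', (dt D o o').natAbs) (fun _ _ => Nat.zero_le _) (mem_univ o)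
  unfold Mx
  omega

variable {D}

theorem rel (hm : D.m = 1) (o₁ o₂ o₃ : Option (Fin D.q)) (p : ℤ × ℤ) :
    dt D o₂ o₃ * D.g o₁ p + dt D o₃ o₁ * D.g o₂ p + dt D o₁ o₂ * D.g o₃ p = 0 := by
  rw [g_lin D hm, g_lin D hm, g_lin D hm]
  unfold dt
  ring

theorem sol1 (hm : D.m = 1) (o₁ o₂ : Option (Fin D.q)) (p : ℤ × ℤ) :
    (co D o₂).2 * D.g o₁ p - (co D o₁).2 * D.g o₂ p = dt D o₁ o₂ * p.1 := by
  rw [g_lin D hm, g_lin D hm]
  unfold dt
  ring

theorem sol2 (hm : D.m = 1) (o₁ o₂ : Option (Fin D.q)) (p : ℤ × ℤ) :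
    (co D o₁).1 * D.g o₂ p - (co D o₂).1 * D.g o₁ p = dt D o₁ o₂ * p.2 := by
  rw [g_lin D hm, g_lin D hm]
  unfold dt
  ring

theorem trip (hm : D.m = 1) {p : ℤ × ℤ} (h : D.Ok p) {o₁ o₂ o₃ : Option (Fin D.q)} (h12 : o₁ ≠ o₂)
    (h23 : o₂ ≠ o₃) (h31 : o₃ ≠ o₁) : ∃ (g : ℕ) (A B : ℤ), 1 ≤ g ∧ g ≤ Mx D ^ 3 ∧ A ≠ 0 ∧ B ≠ 0 ∧
      A + B ≠ 0 ∧ IsCoprime A B ∧ dt D o₂ o₃ * D.g o₁ p = g * A ∧ dt D o₃ o₁ * D.g o₂ p = g * B ∧
      dt D o₁ o₂ * D.g o₃ p = -(g * (A + B)) := by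
  have d12 := dt_ne D h12
  have d23 := dt_ne D h23
  have d31 := dt_ne D h31
  have hA0 : dt D o₂ o₃ * D.g o₁ p ≠ 0 := mul_ne_zero d23 (h.g0 _)
  have hB0 : dt D o₃ o₁ * D.g o₂ p ≠ 0 := mul_ne_zero d31 (h.g0 _)
  have hC0 : dt D o₁ o₂ * D.g o₃ p ≠ 0 := mul_ne_zero d12 (h.g0 _)
  have hrel := rel hm o₁ o₂ o₃ p
  set g := Int.gcd (dt D o₂ o₃ * D.g o₁ p) (dt D o₃ o₁ * D.g o₂ p) with hg
  have hg0 : 0 < g := Int.gcd_pos_of_ne_zero_left _ hA0
  obtain ⟨A, hA⟩ : (g : ℤ) ∣ dt D o₂ o₃ * D.g o₁ p := Int.gcd_dvd_left _ _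
  obtain ⟨B, hB⟩ : (g : ℤ) ∣ dt D o₃ o₁ * D.g o₂ p := Int.gcd_dvd_right _ _
  have hgz : (g : ℤ) ≠ 0 := by exact_mod_cast hg0.ne'
  have hcop : IsCoprime A B := by
    rw [Int.isCoprime_iff_gcd_eq_one]
    have h1 : Int.gcd (g * A) (g * B) = g := by rw [← hA, ← hB]
    rw [Int.gcd_mul_left, Int.natAbs_natCast] at h1
    exact Nat.eq_of_mul_eq_mul_left hg0 (by rw [h1, mul_one])
  have hC : dt D o₁ o₂ * D.g o₃ p = -(g * (A + B)) := by
    rw [hA, hB] at hrel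
    linarith
  refine ⟨g, A, B, hg0, ?_, ?_, ?_, ?_, hcop, hA, hB, hC⟩
  · have k1 : (g : ℤ) ∣ dt D o₂ o₃ * dt D o₃ o₁ * dt D o₁ o₂ * p.1 := by
      have e : dt D o₂ o₃ * dt D o₃ o₁ * dt D o₁ o₂ * p.1 =
          dt D o₃ o₁ * (co D o₂).2 * (dt D o₂ o₃ * D.g o₁ p) -
          dt D o₂ o₃ * (co D o₁).2 * (dt D o₃ o₁ * D.g o₂ p) := by
        have := sol1 hm o₁ o₂ p
        linear_combination (-(dt D o₂ o₃ * dt D o₃ o₁)) * this
      rw [e, hA, hB]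
      exact dvd_sub ((Dvd.intro _ rfl).mul_left _) ((Dvd.intro _ rfl).mul_left _)
    have k2 : (g : ℤ) ∣ dt D o₂ o₃ * dt D o₃ o₁ * dt D o₁ o₂ * p.2 := by
      have e : dt D o₂ o₃ * dt D o₃ o₁ * dt D o₁ o₂ * p.2 =
          dt D o₂ o₃ * (co D o₁).1 * (dt D o₃ o₁ * D.g o₂ p) -
          dt D o₃ o₁ * (co D o₂).1 * (dt D o₂ o₃ * D.g o₁ p) := by
        have := sol2 hm o₁ o₂ p
        linear_combination (-(dt D o₂ o₃ * dt D o₃ o₁)) * this
      rw [e, hA, hB]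
      exact dvd_sub ((Dvd.intro _ rfl).mul_left _) ((Dvd.intro _ rfl).mul_left _)
    have k3 : (g : ℤ) ∣ dt D o₂ o₃ * dt D o₃ o₁ * dt D o₁ o₂ := by
      obtain ⟨a, b, hab⟩ := h.cx
      have e : dt D o₂ o₃ * dt D o₃ o₁ * dt D o₁ o₂ =
          a * (dt D o₂ o₃ * dt D o₃ o₁ * dt D o₁ o₂ * p.1) +
          b * (dt D o₂ o₃ * dt D o₃ o₁ * dt D o₁ o₂ * p.2) := by
        linear_combination (-(dt D o₂ o₃ * dt D o₃ o₁ * dt D o₁ o₂)) * hab
      rw [e]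
      exact dvd_add (k1.mul_left _) (k2.mul_left _)
    have k4 : g ∣ (dt D o₂ o₃).natAbs * (dt D o₃ o₁).natAbs * (dt D o₁ o₂).natAbs := by
      rw [← Int.natAbs_mul, ← Int.natAbs_mul]
      exact Int.natCast_dvd.1 k3
    refine (Nat.le_of_dvd ?_ k4).trans ?_
    · have := Int.natAbs_pos.2 d12
      have := Int.natAbs_pos.2 d23
      have := Int.natAbs_pos.2 d31
      positivity
    · calc (dt D o₂ o₃).natAbs * (dt D o₃ o₁).natAbs * (dt D o₁ o₂).natAbs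
          ≤ Mx D * Mx D * Mx D := by
            have := dt_le D o₂ o₃
            have := dt_le D o₃ o₁
            have := dt_le D o₁ o₂
            gcongr
        _ = _ := by ring
  · rintro rfl
    rw [mul_zero] at hA
    exact hA0 hA
  · rintro rfl
    rw [mul_zero] at hB
    exact hB0 hB
  · intro h0
    rw [h0, mul_zero, neg_zero] at hC
    exact hC0 hC

theorem rad_mul' (a b : ℕ) (ha : a ≠ 0) (hb : b ≠ 0) : rad (a * b) ≤ rad a * rad b := by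
  unfold rad
  rw [Nat.primeFactors_mul ha hb]
  rw [← prod_union_inter (s₁ := a.primeFactors) (s₂ := b.primeFactors)]
  refine Nat.le_mul_of_pos_right _ (prod_pos (fun p hp => ?_))
  exact (Nat.prime_of_mem_primeFactors (mem_inter.1 hp).1).pos

/-- the radical of the triple -/
theorem rad_trip {g : ℕ} (hg : 1 ≤ g) {A B d₁ d₂ d₃ g₁ g₂ g₃ : ℤ} {M : ℕ} (h1 : d₁ * g₁ = g * A)
    (h2 : d₂ * g₂ = g * B) (h3 : d₃ * g₃ = -(g * (A + B))) (n1 : d₁ ≠ 0) (n2 : d₂ ≠ 0)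
    (n3 : d₃ ≠ 0) (m1 : g₁ ≠ 0) (m2 : g₂ ≠ 0) (m3 : g₃ ≠ 0) (k1 : d₁.natAbs ≤ M)
    (k2 : d₂.natAbs ≤ M) (k3 : d₃.natAbs ≤ M) :
    rad (A.natAbs * B.natAbs * (A + B).natAbs) ≤
      M ^ 3 * (rad g₁.natAbs * rad g₂.natAbs * rad g₃.natAbs) := by
  have key : ∀ {d g' A' : ℤ}, d * g' = g * A' ∨ d * g' = -(g * A') → d ≠ 0 → g' ≠ 0 →
      d.natAbs ≤ M → rad A'.natAbs ≤ M * rad g'.natAbs ∧ A'.natAbs ≠ 0 := by
    intro d g' A' h hd hg' hM
    have e1 : d.natAbs * g'.natAbs = g * A'.natAbs := by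
      rw [← Int.natAbs_mul]
      rcases h with h | h
      · rw [h, Int.natAbs_mul, Int.natAbs_natCast]
      · rw [h, Int.natAbs_neg, Int.natAbs_mul, Int.natAbs_natCast]
    have hd0 : d.natAbs ≠ 0 := Int.natAbs_ne_zero.2 hd
    have hg0 : g'.natAbs ≠ 0 := Int.natAbs_ne_zero.2 hg'
    have e2 : A'.natAbs ∣ d.natAbs * g'.natAbs := by
      rw [e1]
      exact Dvd.intro_left _ rfl
    refine ⟨?_, ?_⟩
    · have e3 : rad A'.natAbs ≤ rad (d.natAbs * g'.natAbs) :=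
        Nat.le_of_dvd (rad_pos _) (rad_mono (mul_ne_zero hd0 hg0) e2)
      refine e3.trans ((rad_mul' _ _ hd0 hg0).trans ?_)
      exact Nat.mul_le_mul_right _ ((rad_le hd0).trans hM)
    · intro h0
      rw [h0, mul_zero] at e1
      exact mul_ne_zero hd0 hg0 e1
  obtain ⟨a1, b1⟩ := key (Or.inl h1) n1 m1 k1
  obtain ⟨a2, b2⟩ := key (Or.inl h2) n2 m2 k2
  obtain ⟨a3, b3⟩ := key (Or.inr h3) n3 m3 k3
  calc rad (A.natAbs * B.natAbs * (A + B).natAbs)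
      ≤ rad (A.natAbs * B.natAbs) * rad (A + B).natAbs := rad_mul' _ _ (mul_ne_zero b1 b2) b3
    _ ≤ (rad A.natAbs * rad B.natAbs) * rad (A + B).natAbs :=
        Nat.mul_le_mul_right _ (rad_mul' _ _ b1 b2)
    _ ≤ (M * rad g₁.natAbs * (M * rad g₂.natAbs)) * (M * rad g₃.natAbs) := by gcongr
    _ = _ := by ring

/-- the height is bounded by the height of the triple -/
theorem hgt_trip (hm : D.m = 1) {p : ℤ × ℤ} (h : D.Ok p) {o₁ o₂ o₃ : Option (Fin D.q)}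
    (h12 : o₁ ≠ o₂) (h23 : o₂ ≠ o₃) (h31 : o₃ ≠ o₁) {g : ℕ} {A B : ℤ} (hg : g ≤ Mx D ^ 3)
    (hA : dt D o₂ o₃ * D.g o₁ p = g * A) (hB : dt D o₃ o₁ * D.g o₂ p = g * B) {c : ℕ}
    (hAc : A.natAbs ≤ c) (hBc : B.natAbs ≤ c) : hgt D p ≤ 2 * Mx D ^ 4 * c := by
  have d12 := dt_ne D h12
  have d23 := dt_ne D h23
  have d31 := dt_ne D h31
  have key : ∀ {d g' A' : ℤ}, d * g' = g * A' → d ≠ 0 → A'.natAbs ≤ c →
      g'.natAbs ≤ Mx D ^ 3 * c := by
    intro d g' A' h hd hc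
    have e1 : d.natAbs * g'.natAbs = g * A'.natAbs := by
      rw [← Int.natAbs_mul, h, Int.natAbs_mul, Int.natAbs_natCast]
    have hd0 : 0 < d.natAbs := Int.natAbs_pos.2 hd
    calc g'.natAbs ≤ d.natAbs * g'.natAbs := Nat.le_mul_of_pos_left _ hd0
      _ = g * A'.natAbs := e1
      _ ≤ Mx D ^ 3 * c := by gcongr
  have k1 := key hA d23 hAc
  have k2 := key hB d31 hBc
  have gen : ∀ {y : ℤ} {a b : ℤ}, a * D.g o₁ p - b * D.g o₂ p = dt D o₁ o₂ * y →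
      a.natAbs ≤ Mx D → b.natAbs ≤ Mx D → y.natAbs ≤ 2 * Mx D ^ 4 * c := by
    intro y a b h1 ha hb
    have e1 : (dt D o₁ o₂).natAbs * y.natAbs ≤ a.natAbs * (D.g o₁ p).natAbs +
        b.natAbs * (D.g o₂ p).natAbs := by
      rw [← Int.natAbs_mul, ← h1, ← Int.natAbs_mul, ← Int.natAbs_mul]
      omega
    have hd0 : 0 < (dt D o₁ o₂).natAbs := Int.natAbs_pos.2 d12
    calc y.natAbs ≤ (dt D o₁ o₂).natAbs * y.natAbs := Nat.le_mul_of_pos_left _ hd0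
      _ ≤ _ := e1
      _ ≤ Mx D * (Mx D ^ 3 * c) + Mx D * (Mx D ^ 3 * c) := by gcongr
      _ = _ := by ring
  have c1 := co_le D o₁
  have c2 := co_le D o₂
  have x1 := gen (sol1 hm o₁ o₂ p) (by omega) (by omega)
  have x2 : p.2.natAbs ≤ 2 * Mx D ^ 4 * c := by
    refine gen (a := -(co D o₂).1) (b := -(co D o₁).1) ?_ (by omega) (by omega)
    have := sol2 hm o₁ o₂ p
    linarith
  have hx0 := h.x0
  unfold hgt
  rw [hm, pow_one]
  have y1 : ((p.1.natAbs : ℕ) : ℤ) ≤ ((2 * Mx D ^ 4 * c : ℕ) : ℤ) := by exact_mod_cast x1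
  have y2 : ((p.2.natAbs : ℕ) : ℤ) ≤ ((2 * Mx D ^ 4 * c : ℕ) : ℤ) := by exact_mod_cast x2
  push_cast at y1 y2
  rw [abs_of_pos hx0] at y1
  exact max_le y1 y2

end Pool.Agent.T2h82.Ln
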