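import Pool.Agent.T2h82.Ln.Big

/-!
# The points of large height: the count
-/

set_option autoImplicit false

namespace Pool.Agent.T2h82.Ln

open Finset Filter Topology
open Pool.Agent.H328R2.ABC (rad rad_pos rad_le)
open Pool.Agent.Results.MP_1ea25c_nt.AlmostAllTriples (triples rad3)

variable (D : Dat) (S : Finset ℕ)

/-- the indices of the factors of the product -/
def IJ : Finset (Option (Fin D.q)) := if D.j = 1 then univ else univ.erase none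

variable {D}

theorem ij_card (hm : D.m = 1) : (IJ D).card = D.d := by
  unfold IJ Dat.d
  have hj := D.hj
  rw [hm, mul_one]
  split_ifs with h
  · rw [card_univ, Fintype.card_option, Fintype.card_fin, h]
  · have : D.j = 0 := by omega
    rw [card_erase_of_mem (mem_univ _), card_univ, Fintype.card_option, Fintype.card_fin, this]
    omega

theorem ij_prod (F : Option (Fin D.q) → ℕ) : ∏ o ∈ IJ D, F o = F none ^ D.j * ∏ i, F (some i) := by
  unfold IJ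
  have hj := D.hj
  split_ifs with h
  · rw [Fintype.prod_option, h, pow_one]
  · have h0 : D.j = 0 := by omega
    rw [h0, pow_zero, one_mul]
    have h1 : (univ.erase none : Finset (Option (Fin D.q))) =
        univ.map ⟨some, Option.some_injective _⟩ := by
      ext o
      cases o with
      | none => simp
      | some i => simp
    rw [h1, prod_map]
    rfl

/-- three factors with small radicals -/
theorem three (hm : D.m = 1) {p : ℤ × ℤ} (h : D.Ok p) {X : ℝ} (hX : (RS D S p : ℝ) ≤ X) :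
    ∃ o₁ o₂ o₃ : Option (Fin D.q), o₁ ≠ o₂ ∧ o₂ ≠ o₃ ∧ o₃ ≠ o₁ ∧
      ((rad (D.g o₁ p).natAbs * rad (D.g o₂ p).natAbs * rad (D.g o₃ p).natAbs : ℕ) : ℝ) ≤
        (Rc D * PS S * X) ^ (3 / (D.d : ℝ)) := by
  have hd := D.le_d
  have hd0 : (0 : ℝ) < D.d := by exact_mod_cast D.d_pos
  obtain ⟨o₁, -, o₂, -, o₃, -, h12, h23, h31, hle⟩ := three_small (IJ D)
    (by rw [ij_card hm]; omega) (fun o => rad (D.g o p).natAbs) (fun o => rad_pos _)
  refine ⟨o₁, o₂, o₃, h12, h23, h31, ?_⟩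
  rw [ij_card hm] at hle
  have h1 : ∏ o ∈ IJ D, rad (D.g o p).natAbs ≤ Rc D * rad (D.G p).natAbs := by
    rw [ij_prod]
    exact rads_le h
  have h2 : rad (D.G p).natAbs ≤ PS S * RS D S p := rad_le_rs p
  have h3 : ((∏ o ∈ IJ D, rad (D.g o p).natAbs : ℕ) : ℝ) ≤ Rc D * PS S * X := by
    have h4 : ∏ o ∈ IJ D, rad (D.g o p).natAbs ≤ Rc D * PS S * RS D S p := by
      refine h1.trans ?_
      rw [mul_assoc]
      exact Nat.mul_le_mul_left _ h2
    have h5 : ((∏ o ∈ IJ D, rad (D.g o p).natAbs : ℕ) : ℝ) ≤ Rc D * PS S * RS D S p := by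
      exact_mod_cast h4
    exact h5.trans (by gcongr)
  set r : ℕ := rad (D.g o₁ p).natAbs * rad (D.g o₂ p).natAbs * rad (D.g o₃ p).natAbs with hr
  have h6 : (r : ℝ) ^ D.d ≤ (Rc D * PS S * X) ^ 3 := by
    calc (r : ℝ) ^ D.d ≤ ((∏ o ∈ IJ D, rad (D.g o p).natAbs : ℕ) : ℝ) ^ 3 := by
          exact_mod_cast hle
      _ ≤ _ := by gcongr
  have hB0 : 0 ≤ Rc D * PS S * X := le_trans (Nat.cast_nonneg _) h3
  have h7 : ((Rc D * PS S * X) ^ (3 / (D.d : ℝ))) ^ D.d = (Rc D * PS S * X) ^ 3 := by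
    rw [← Real.rpow_natCast, ← Real.rpow_mul hB0, div_mul_cancel₀ _ hd0.ne']
    exact_mod_cast Real.rpow_natCast (Rc D * PS S * X) 3
  rw [← h7] at h6
  exact le_of_pow_le_pow_left₀ (by have := D.d_pos; omega) (by positivity) h6

/-- the triples of large height -/
def Tr (D : Dat) (N Y : ℝ) : Set (ℕ × ℕ) :=
  {t | t ∈ triples N ∧ Y ≤ 2 * (Mx D : ℝ) ^ 4 * ((t.1 + t.2 : ℕ) : ℝ)}

theorem tr_fin (N Y : ℝ) : (Tr D N Y).Finite :=
  (Pool.Agent.Y911.AA.triples_finite' N).subset (fun _ h => h.1)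

/-- the multiplicity -/
def Kc (D : Dat) : ℕ := (D.q + 1) ^ 3 * (Mx D ^ 3 * 36)

/-- **Reduction to the abc triples.** -/
theorem inj (hm : D.m = 1) {X Y N : ℝ}
    (hN : (Mx D : ℝ) ^ 3 * (Rc D * PS S * X) ^ (3 / (D.d : ℝ)) ≤ N) (F : Finset (ℤ × ℤ))
    (hF : ∀ p ∈ F, D.Ok p ∧ (RS D S p : ℝ) ≤ X ∧ Y ≤ (hgt D p : ℝ)) :
    F.card ≤ Kc D * (Tr D N Y).ncard := by
  classical
  have hdata : ∀ p ∈ F, ∃ x : (Option (Fin D.q) × Option (Fin D.q) × Option (Fin D.q)) × ℕ × (ℤ × ℤ),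
      x.1.1 ≠ x.1.2.1 ∧ x.1.2.1 ≠ x.1.2.2 ∧ x.1.2.2 ≠ x.1.1 ∧ 1 ≤ x.2.1 ∧ x.2.1 ≤ Mx D ^ 3 ∧
      dt D x.1.2.1 x.1.2.2 * D.g x.1.1 p = x.2.1 * x.2.2.1 ∧
      dt D x.1.2.2 x.1.1 * D.g x.1.2.1 p = x.2.1 * x.2.2.2 ∧
      ∃ t ∈ Tr D N Y, x.2.2.1 ∈ Vals t ∧ x.2.2.2 ∈ Vals t := by
    intro p hp
    obtain ⟨h1, h2, h3⟩ := hF p hp
    obtain ⟨o₁, o₂, o₃, h12, h23, h31, hr⟩ := three S hm h1 h2
    obtain ⟨g, A, B, hg1, hg2, hA0, hB0, hC0, hc, hA, hB, hC⟩ := trip hm h1 h12 h23 h31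
    obtain ⟨t, t1, t2, t3, t4, t5, t6, t7, t8⟩ := abc_of A B hA0 hB0 hC0 hc
    refine ⟨((o₁, o₂, o₃), g, (A, B)), h12, h23, h31, hg1, hg2, hA, hB, t, ⟨⟨t1, t2, t3, ?_⟩, ?_⟩,
      t5, t6⟩
    · have k1 := rad_trip hg1 hA hB hC (dt_ne D h23) (dt_ne D h31) (dt_ne D h12) (h1.g0 _) (h1.g0 _)
        (h1.g0 _) (dt_le D _ _) (dt_le D _ _) (dt_le D _ _)
      rw [← t4] at k1
      have k2 : (rad3 t : ℝ) ≤ (Mx D : ℝ) ^ 3 *
          ((rad (D.g o₁ p).natAbs * rad (D.g o₂ p).natAbs * rad (D.g o₃ p).natAbs : ℕ) : ℝ) := by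
        exact_mod_cast k1
      refine k2.trans (le_trans ?_ hN)
      gcongr
    · have k1 := hgt_trip hm h1 h12 h23 h31 hg2 hA hB t7 t8
      have k2 : (hgt D p : ℝ) ≤ 2 * (Mx D : ℝ) ^ 4 * ((t.1 + t.2 : ℕ) : ℝ) := by exact_mod_cast k1
      exact h3.trans k2
  choose! Φ hΦ using hdata
  set E : Finset (ℕ × ℕ) := (tr_fin (D := D) N Y).toFinset with hE
  set A : Finset ((Option (Fin D.q) × Option (Fin D.q) × Option (Fin D.q)) × ℕ × (ℤ × ℤ)) :=
    univ ×ˢ (Icc 1 (Mx D ^ 3) ×ˢ (E.biUnion (fun t => Vals t ×ˢ Vals t))) with hA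
  have hmap : ∀ p ∈ F, Φ p ∈ A := by
    intro p hp
    obtain ⟨-, -, -, h4, h5, -, -, t, h8, h9, h10⟩ := hΦ p hp
    rw [hA, mem_product, mem_product, mem_Icc, mem_biUnion]
    refine ⟨mem_univ _, ⟨h4, h5⟩, t, ?_, ?_⟩
    · rw [hE, Set.Finite.mem_toFinset]
      exact h8
    · rw [mem_product]
      exact ⟨h9, h10⟩
  have hinj : Set.InjOn Φ F := by
    intro p hp p' hp' he
    obtain ⟨h1, h2, h3, h4, h5, h6, h7, -⟩ := hΦ p hp
    obtain ⟨-, -, -, -, -, h6', h7', -⟩ := hΦ p' hp'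
    rw [← he] at h6' h7'
    have d12 := dt_ne D h1
    have d23 := dt_ne D h2
    have d31 := dt_ne D h3
    have e1 : D.g (Φ p).1.1 p = D.g (Φ p).1.1 p' := mul_left_cancel₀ d23 (h6.trans h6'.symm)
    have e2 : D.g (Φ p).1.2.1 p = D.g (Φ p).1.2.1 p' := mul_left_cancel₀ d31 (h7.trans h7'.symm)
    have s1 := sol1 hm (Φ p).1.1 (Φ p).1.2.1 p
    have s1' := sol1 hm (Φ p).1.1 (Φ p).1.2.1 p'
    have s2 := sol2 hm (Φ p).1.1 (Φ p).1.2.1 p
    have s2' := sol2 hm (Φ p).1.1 (Φ p).1.2.1 p'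
    rw [e1, e2] at s1 s2
    exact Prod.ext (mul_left_cancel₀ d12 (s1.symm.trans s1')) (mul_left_cancel₀ d12 (s2.symm.trans s2'))
  have hcard := card_le_card_of_injOn Φ hmap hinj
  refine hcard.trans ?_
  rw [hA, card_product, card_product, card_univ, Fintype.card_prod, Fintype.card_prod,
    Fintype.card_option, Fintype.card_fin, Nat.card_Icc, Nat.add_sub_cancel]
  have hb : (E.biUnion (fun t => Vals t ×ˢ Vals t)).card ≤ 36 * (Tr D N Y).ncard := by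
    refine card_biUnion_le.trans ?_
    have h1 : ∀ t ∈ E, (Vals t ×ˢ Vals t).card ≤ 36 := by
      intro t _
      rw [card_product]
      have := vals_card t
      nlinarith
    refine (sum_le_card_nsmul E _ 36 h1).trans (le_of_eq ?_)
    rw [smul_eq_mul, mul_comm, hE, ← Set.ncard_eq_toFinset_card _ (tr_fin (D := D) N Y)]
  unfold Kc
  calc (D.q + 1) * ((D.q + 1) * (D.q + 1)) * (Mx D ^ 3 *
        (E.biUnion (fun t => Vals t ×ˢ Vals t)).card)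
      ≤ (D.q + 1) * ((D.q + 1) * (D.q + 1)) * (Mx D ^ 3 * (36 * (Tr D N Y).ncard)) := by gcongr
    _ = _ := by ring

/-- all pairs with bounded radical, of all heights, are finitely many -/
theorem all_fin (hm : D.m = 1) (X : ℝ) : {p | D.Ok p ∧ (RS D S p : ℝ) ≤ X}.Finite := by
  by_contra hcon
  rw [Set.not_finite] at hcon
  set N : ℝ := (Mx D : ℝ) ^ 3 * (Rc D * PS S * X) ^ (3 / (D.d : ℝ)) with hN
  obtain ⟨t, ht, hc⟩ := hcon.exists_subset_card_eq (Kc D * (Tr D N 0).ncard + 1)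
  have h1 := inj S hm (X := X) (Y := 0) (N := N) le_rfl t (fun p hp => by
    obtain ⟨a1, a2⟩ := ht hp
    refine ⟨a1, a2, ?_⟩
    have : 0 ≤ hgt D p := hgt_nonneg p
    exact_mod_cast this)
  omega

end Pool.Agent.T2h82.Ln
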