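import Pool.Agent.T2h82.Ln.Tail

/-!
# The pairs with large height and small radical: the sum over the blocks
-/

set_option autoImplicit false

namespace Pool.Agent.T2h82.Ln

open Finset
open Pool.Agent.H328R2.ABC (rad rad_pos rad_le)
open Pool.Agent.T2h82 (pw pw_pos pw_dvd gp gp_nonneg sum_gp pful_pw Pful mul_rad_eq)

variable {D : Dat} {p : ℤ × ℤ}

theorem block1 (s : ℝ) (hs0 : 0 < s) (hs1 : s < 1) : ∃ C : ℝ, 0 < C ∧ ∀ Z X : ℝ, 0 < Z → 0 < X →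
    ∀ V : ℕ, ∀ S : Finset (ℤ × ℤ), (∀ p ∈ S, D.Ok p ∧
      (hgt D p : ℝ) ≤ Z ^ D.m ∧ (Z / 2) ^ D.m < (hgt D p : ℝ) ∧
      (rad (D.G p).natAbs : ℝ) ≤ X ∧ ∀ o, pw (D.g o p).natAbs ≤ V) →
    (S.card : ℝ) ≤ C * (X ^ s * Z ^ ((D.m : ℝ) + 1 - D.d * s) + Z * (V : ℝ) ^ (D.q + 1)) := by
  classical
  obtain ⟨C, hC, hf⟩ := fibre (D := D) s hs0 hs1
  obtain ⟨C', hC', hsum⟩ := sum_gp s hs1
  have hq0 : (0 : ℝ) < D.q := by
    have := D.q2
    exact_mod_cast (by omega : 0 < D.q)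
  refine ⟨C * C' ^ (D.q + 1) + D.q, by positivity, ?_⟩
  intro Z X hZ hX V S hS
  set P : Finset (Option (Fin D.q) → ℕ) := Fintype.piFinset (fun _ => Icc 1 V) with hP
  set typ : ℤ × ℤ → Option (Fin D.q) → ℕ := fun p o => pw (D.g o p).natAbs with htyp
  have hmap : ∀ p ∈ S, typ p ∈ P := by
    intro p hp
    rw [hP, Fintype.mem_piFinset]
    intro o
    rw [mem_Icc]
    exact ⟨pw_pos _, (hS p hp).2.2.2.2 o⟩
  have hcard : (S.card : ℝ) = ∑ τ ∈ P, ((S.filter (fun p => typ p = τ)).card : ℝ) := by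
    exact_mod_cast card_eq_sum_card_fiberwise hmap
  have hfib : ∀ τ ∈ P, ((S.filter (fun p => typ p = τ)).card : ℝ) ≤
      C * (X ^ s * Z ^ ((D.m : ℝ) + 1 - D.d * s) * ∏ o, gp s (τ o)) + D.q * Z := by
    intro τ hτ
    refine hf Z X hZ hX τ _ (fun p hp => ?_)
    rw [mem_filter] at hp
    obtain ⟨h1, h2, h3, h4, h5⟩ := hS p hp.1
    refine ⟨h1, h2, h3, h4, fun o => ?_⟩
    rw [← hp.2]
  have hPs : ∑ τ ∈ P, ∏ o, gp s (τ o) = ∏ _o : Option (Fin D.q), ∑ n ∈ Icc 1 V, gp s n := by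
    rw [hP, prod_univ_sum]
  have hPc : (P.card : ℝ) = (V : ℝ) ^ (D.q + 1) := by
    rw [hP, Fintype.card_piFinset]
    simp
  have hI : ∑ n ∈ Icc 1 V, gp s n ≤ C' := hsum _ (by
    intro n hn
    rw [mem_Icc] at hn
    omega)
  have hI0 : 0 ≤ ∑ n ∈ Icc 1 V, gp s n := sum_nonneg (fun n _ => gp_nonneg s n)
  have hPs' : ∑ τ ∈ P, ∏ o, gp s (τ o) ≤ C' ^ (D.q + 1) := by
    rw [hPs, prod_const, card_univ, Fintype.card_option, Fintype.card_fin]
    gcongr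
  rw [hcard]
  calc ∑ τ ∈ P, ((S.filter (fun p => typ p = τ)).card : ℝ)
      ≤ ∑ τ ∈ P, (C * (X ^ s * Z ^ ((D.m : ℝ) + 1 - D.d * s) * ∏ o, gp s (τ o)) + D.q * Z) :=
        sum_le_sum hfib
    _ = C * (X ^ s * Z ^ ((D.m : ℝ) + 1 - D.d * s) * ∑ τ ∈ P, ∏ o, gp s (τ o)) +
          P.card * (D.q * Z) := by
        rw [sum_add_distrib, ← mul_sum, ← mul_sum, sum_const, nsmul_eq_mul]
    _ ≤ C * (X ^ s * Z ^ ((D.m : ℝ) + 1 - D.d * s) * C' ^ (D.q + 1)) +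
          (V : ℝ) ^ (D.q + 1) * (D.q * Z) := by
        rw [hPc]
        gcongr
    _ ≤ _ := by
        have h1 : 0 ≤ X ^ s * Z ^ ((D.m : ℝ) + 1 - D.d * s) := by positivity
        have h2 : 0 ≤ Z * (V : ℝ) ^ (D.q + 1) := by positivity
        have h3 : 0 ≤ C * C' ^ (D.q + 1) := by positivity
        nlinarith [mul_nonneg h3 h2, mul_nonneg hq0.le h1]

/-- the saving of the exponent -/
noncomputable def η (D : Dat) : ℝ := 1 / (6 * ((D.q : ℝ) + 1))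

theorem eta_pos : 0 < η D := by
  unfold η
  positivity

theorem eta_le : η D ≤ 1 / 12 := by
  unfold η
  have : (2 : ℝ) ≤ D.q := by exact_mod_cast D.q2
  rw [div_le_div_iff₀ (by positivity) (by norm_num)]
  linarith

theorem block (s : ℝ) (hs0 : 0 < s) (hs1 : s < 1) : ∃ C : ℝ, 0 < C ∧ ∀ Z X : ℝ, 1 ≤ Z → 0 < X →
    ∀ S : Finset (ℤ × ℤ), (∀ p ∈ S, D.Ok p ∧
      (hgt D p : ℝ) ≤ Z ^ D.m ∧ (Z / 2) ^ D.m < (hgt D p : ℝ) ∧
      (rad (D.G p).natAbs : ℝ) ≤ X) →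
    (S.card : ℝ) ≤ C * (X ^ s * Z ^ ((D.m : ℝ) + 1 - D.d * s) + Z ^ ((D.m : ℝ) + 1 - η D)) := by
  classical
  obtain ⟨C1, hC1, h1⟩ := block1 (D := D) s hs0 hs1
  obtain ⟨C2, hC2, h2⟩ := bad_all D 1 one_pos
  refine ⟨C1 * 2 ^ (D.q + 1) + 2 * C2, by positivity, ?_⟩
  intro Z X hZ hX S hS
  have hZ0 : 0 < Z := by linarith
  have hη := eta_pos (D := D)
  have hη' := eta_le (D := D)
  set E : ℝ := Z ^ η D with hE
  have hE1 : 1 ≤ E := Real.one_le_rpow hZ hη.le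
  set V : ℕ := ⌈E ^ 3⌉₊ with hV
  have hEV : E ^ 3 ≤ V := Nat.le_ceil _
  have hE3 : 1 ≤ E ^ 3 := one_le_pow₀ hE1
  have hV2 : (V : ℝ) ≤ 2 * E ^ 3 := by
    have := Nat.ceil_lt_add_one (by positivity : 0 ≤ E ^ 3)
    linarith
  set pr : ℤ × ℤ → Prop := fun p => ∀ o, pw (D.g o p).natAbs ≤ V with hpr
  have hg := h1 Z X hZ0 hX V (S.filter pr) (fun p hp => by
    rw [mem_filter] at hp
    obtain ⟨a1, a2, a3, a4⟩ := hS p hp.1
    exact ⟨a1, a2, a3, a4, hp.2⟩)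
  have hb := h2 E V Z hE1 hEV hZ (S.filter (fun p => ¬ pr p)) (fun p hp => by
    rw [mem_filter] at hp
    obtain ⟨a1, a2, a3, a4⟩ := hS p hp.1
    have hx0 : (0 : ℝ) < p.1 := by exact_mod_cast a1.x0
    refine ⟨?_, ?_, ?_⟩
    · rw [one_mul, abs_of_pos hx0]
      have b1 : (p.1 : ℝ) ^ D.m ≤ Z ^ D.m := by
        refine le_trans ?_ a2
        have : p.1 ^ D.m ≤ hgt D p := le_max_left _ _
        exact_mod_cast this
      exact le_of_pow_le_pow_left₀ (by have := D.hm; omega) hZ0.le b1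
    · rw [one_mul]
      refine le_trans ?_ a2
      have : |p.2| ≤ hgt D p := le_max_right _ _
      exact_mod_cast this
    · right; right; right; left
      have := hp.2
      rw [hpr] at this
      push Not at this
      exact this)
  have hc : (S.card : ℝ) = (S.filter pr).card + (S.filter (fun p => ¬ pr p)).card := by
    exact_mod_cast (card_filter_add_card_filter_not pr).symm
  have hq2 : (2 : ℝ) ≤ D.q := by exact_mod_cast D.q2
  have hm1 : (1 : ℝ) ≤ D.m := by exact_mod_cast D.hm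
  have e1 : Z * (V : ℝ) ^ (D.q + 1) ≤ 2 ^ (D.q + 1) * Z ^ ((D.m : ℝ) + 1 - η D) := by
    calc Z * (V : ℝ) ^ (D.q + 1) ≤ Z * (2 * E ^ 3) ^ (D.q + 1) := by gcongr
      _ = 2 ^ (D.q + 1) * (Z * (E ^ 3) ^ (D.q + 1)) := by
          rw [mul_pow]
          ring
      _ = 2 ^ (D.q + 1) * Z ^ (3 / 2 : ℝ) := by
          congr 1
          rw [hE, ← Real.rpow_natCast, ← Real.rpow_natCast, ← Real.rpow_mul hZ0.le,
            ← Real.rpow_mul hZ0.le]
          nth_rewrite 1 [← Real.rpow_one Z]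
          rw [← Real.rpow_add hZ0]
          congr 1
          unfold η
          push_cast
          field_simp
          ring
      _ ≤ _ := by
          refine mul_le_mul_of_nonneg_left ?_ (by positivity)
          exact Real.rpow_le_rpow_of_exponent_le hZ (by linarith)
  have e2 : Z ^ (D.m + 1) / E = Z ^ ((D.m : ℝ) + 1 - η D) := by
    rw [hE, ← Real.rpow_natCast, ← Real.rpow_sub hZ0]
    push_cast
    rfl
  have e3 : Z ^ D.m ≤ Z ^ ((D.m : ℝ) + 1 - η D) := by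
    rw [← Real.rpow_natCast]
    exact Real.rpow_le_rpow_of_exponent_le hZ (by linarith)
  rw [e2] at hb
  have p1 : 0 ≤ X ^ s * Z ^ ((D.m : ℝ) + 1 - D.d * s) := by positivity
  have p2 : 0 ≤ Z ^ ((D.m : ℝ) + 1 - η D) := by positivity
  have g1 : (1 : ℝ) ≤ 2 ^ (D.q + 1) := one_le_pow₀ (by norm_num)
  rw [hc]
  have k1 : C1 * (X ^ s * Z ^ ((D.m : ℝ) + 1 - D.d * s) + Z * (V : ℝ) ^ (D.q + 1)) ≤
      C1 * 2 ^ (D.q + 1) * (X ^ s * Z ^ ((D.m : ℝ) + 1 - D.d * s) +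
        Z ^ ((D.m : ℝ) + 1 - η D)) := by
    rw [mul_assoc]
    refine mul_le_mul_of_nonneg_left ?_ hC1.le
    nlinarith
  have k2 : C2 * (Z ^ ((D.m : ℝ) + 1 - η D) + Z ^ D.m) ≤
      2 * C2 * (X ^ s * Z ^ ((D.m : ℝ) + 1 - D.d * s) + Z ^ ((D.m : ℝ) + 1 - η D)) := by
    have : C2 * (Z ^ ((D.m : ℝ) + 1 - η D) + Z ^ D.m) ≤
      C2 * (2 * (X ^ s * Z ^ ((D.m : ℝ) + 1 - D.d * s) + Z ^ ((D.m : ℝ) + 1 - η D))) := by
      refine mul_le_mul_of_nonneg_left ?_ hC2.le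
      linarith
    linarith
  have := hg.trans k1
  have := hb.trans k2
  nlinarith

theorem tail_n (s : ℝ) (hs0 : 0 < s) (hs1 : s < 1) (hsd : (D.m : ℝ) + 1 < D.d * s) :
    ∃ C : ℝ, 0 < C ∧ ∀ W X : ℝ, 1 ≤ W → 0 < X → ∀ n : ℕ, ∀ S : Finset (ℤ × ℤ), (∀ p ∈ S, D.Ok p ∧
      (hgt D p : ℝ) ≤ (2 ^ n * W) ^ D.m ∧ W ^ D.m < (hgt D p : ℝ) ∧
      (rad (D.G p).natAbs : ℝ) ≤ X) →
    (S.card : ℝ) ≤ C * (X ^ s * W ^ ((D.m : ℝ) + 1 - D.d * s) +
      (2 ^ n * W) ^ ((D.m : ℝ) + 1 - η D)) := by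
  classical
  obtain ⟨C, hC, hb⟩ := block (D := D) s hs0 hs1
  set r : ℝ := 2 ^ ((D.m : ℝ) + 1 - D.d * s) with hr
  have hr0 : 0 < r := by positivity
  have hr1 : r < 1 := Real.rpow_lt_one_of_one_lt_of_neg (by norm_num) (by linarith)
  have hr2 : 0 < 1 - r := by linarith
  set β : ℝ := (D.m : ℝ) + 1 - η D with hβ
  have hη' := eta_le (D := D)
  have hη := eta_pos (D := D)
  have hm1 : (1 : ℝ) ≤ D.m := by exact_mod_cast D.hm
  have hβ1 : 1 ≤ β := by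
    rw [hβ]
    linarith
  refine ⟨C * (1 / (1 - r) + 2), by positivity, ?_⟩
  intro W X hW hX
  have hW0 : 0 < W := by linarith
  have main : ∀ n : ℕ, ∀ S : Finset (ℤ × ℤ), (∀ p ∈ S, D.Ok p ∧
      (hgt D p : ℝ) ≤ (2 ^ n * W) ^ D.m ∧ W ^ D.m < (hgt D p : ℝ) ∧
      (rad (D.G p).natAbs : ℝ) ≤ X) →
    (S.card : ℝ) ≤ C * (X ^ s * W ^ ((D.m : ℝ) + 1 - D.d * s) * ((1 - r ^ n) / (1 - r)) +
      2 * (2 ^ n * W) ^ β) := by
    intro n
    induction n with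
    | zero =>
      intro S hS
      have : S = ∅ := by
        rw [eq_empty_iff_forall_notMem]
        intro p hp
        obtain ⟨-, h1, h2, -⟩ := hS p hp
        rw [pow_zero, one_mul] at h1
        linarith
      rw [this, card_empty]
      simp only [pow_zero, sub_self, zero_div, mul_zero, one_mul, zero_add, Nat.cast_zero]
      positivity
    | succ n ih =>
      intro S hS
      have h1 := ih (S.filter (fun p => (hgt D p : ℝ) ≤ (2 ^ n * W) ^ D.m)) (fun p hp => by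
        rw [mem_filter] at hp
        obtain ⟨a1, a2, a3, a4⟩ := hS p hp.1
        exact ⟨a1, hp.2, a3, a4⟩)
      have hZ1 : 1 ≤ 2 ^ (n + 1) * W := by
        have : (1 : ℝ) ≤ 2 ^ (n + 1) := one_le_pow₀ (by norm_num)
        nlinarith
      have h2 := hb (2 ^ (n + 1) * W) X hZ1 hX
        (S.filter (fun p => ¬ (hgt D p : ℝ) ≤ (2 ^ n * W) ^ D.m)) (fun p hp => by
        rw [mem_filter] at hp
        obtain ⟨a1, a2, a3, a4⟩ := hS p hp.1
        refine ⟨a1, a2, ?_, a4⟩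
        have e : 2 ^ (n + 1) * W / 2 = 2 ^ n * W := by
          rw [pow_succ]
          ring
        rw [e]
        exact lt_of_not_ge hp.2)
      have hc : (S.card : ℝ) = (S.filter (fun p => (hgt D p : ℝ) ≤ (2 ^ n * W) ^ D.m)).card +
          (S.filter (fun p => ¬ (hgt D p : ℝ) ≤ (2 ^ n * W) ^ D.m)).card := by
        exact_mod_cast (card_filter_add_card_filter_not _).symm
      rw [hc]
      have e1 : (2 ^ (n + 1) * W) ^ ((D.m : ℝ) + 1 - D.d * s) ≤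
          r ^ n * W ^ ((D.m : ℝ) + 1 - D.d * s) := by
        rw [Real.mul_rpow (by positivity) hW0.le, ← Real.rpow_natCast, ← Real.rpow_mul (by norm_num),
          mul_comm (((n + 1 : ℕ) : ℕ) : ℝ), Real.rpow_mul (by norm_num), ← hr, Real.rpow_natCast]
        refine mul_le_mul_of_nonneg_right ?_ (by positivity)
        exact pow_le_pow_of_le_one hr0.le hr1.le (Nat.le_succ n)
      have e2 : 2 * (2 ^ n * W) ^ β ≤ (2 ^ (n + 1) * W) ^ β := by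
        have : (2 : ℝ) ^ (n + 1) * W = 2 * (2 ^ n * W) := by ring
        rw [this, Real.mul_rpow (x := 2) (y := 2 ^ n * W) (by norm_num) (by positivity)]
        refine mul_le_mul_of_nonneg_right ?_ (by positivity)
        calc (2 : ℝ) = 2 ^ (1 : ℝ) := (Real.rpow_one 2).symm
          _ ≤ 2 ^ β := Real.rpow_le_rpow_of_exponent_le (by norm_num) hβ1
      have e3 : (1 - r ^ n) / (1 - r) + r ^ n = (1 - r ^ (n + 1)) / (1 - r) := by
        field_simp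
        ring
      set w := W ^ ((D.m : ℝ) + 1 - D.d * s) with hw
      have hXs : 0 < X ^ s := by positivity
      calc ((S.filter (fun p => (hgt D p : ℝ) ≤ (2 ^ n * W) ^ D.m)).card : ℝ) +
            (S.filter (fun p => ¬ (hgt D p : ℝ) ≤ (2 ^ n * W) ^ D.m)).card
          ≤ C * (X ^ s * w * ((1 - r ^ n) / (1 - r)) + 2 * (2 ^ n * W) ^ β) +
            C * (X ^ s * (2 ^ (n + 1) * W) ^ ((D.m : ℝ) + 1 - D.d * s) +
              (2 ^ (n + 1) * W) ^ β) := add_le_add h1 h2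
        _ ≤ C * (X ^ s * w * ((1 - r ^ n) / (1 - r)) + (2 ^ (n + 1) * W) ^ β) +
            C * (X ^ s * (r ^ n * w) + (2 ^ (n + 1) * W) ^ β) := by gcongr
        _ = C * (X ^ s * w * ((1 - r ^ n) / (1 - r) + r ^ n) + 2 * (2 ^ (n + 1) * W) ^ β) := by
            ring
        _ = _ := by rw [e3]
  intro n S hS
  refine (main n S hS).trans ?_
  have hp1 : 0 ≤ X ^ s * W ^ ((D.m : ℝ) + 1 - D.d * s) := by positivity
  have hp2 : 0 ≤ (2 ^ n * W) ^ β := by positivity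
  have hf : (1 - r ^ n) / (1 - r) ≤ 1 / (1 - r) := by
    gcongr
    have := pow_nonneg hr0.le n
    linarith
  have h0 : 0 ≤ 1 / (1 - r) := by positivity
  calc C * (X ^ s * W ^ ((D.m : ℝ) + 1 - D.d * s) * ((1 - r ^ n) / (1 - r)) + 2 * (2 ^ n * W) ^ β)
      ≤ C * (X ^ s * W ^ ((D.m : ℝ) + 1 - D.d * s) * (1 / (1 - r)) + 2 * (2 ^ n * W) ^ β) := by
        gcongr
    _ ≤ C * ((1 / (1 - r) + 2) * (X ^ s * W ^ ((D.m : ℝ) + 1 - D.d * s) + (2 ^ n * W) ^ β)) := by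
        refine mul_le_mul_of_nonneg_left ?_ hC.le
        nlinarith [mul_nonneg h0 hp2]
    _ = _ := by ring

/-- the pairs with `W ^ m < hgt ≤ Y ^ m` and `rad ≤ X` -/
theorem tail (s : ℝ) (hs0 : 0 < s) (hs1 : s < 1) (hsd : (D.m : ℝ) + 1 < D.d * s) :
    ∃ C : ℝ, 0 < C ∧ ∀ W Y X : ℝ, 1 ≤ W → 1 ≤ Y → 0 < X → ∀ S : Finset (ℤ × ℤ), (∀ p ∈ S, D.Ok p ∧
      (hgt D p : ℝ) ≤ Y ^ D.m ∧ W ^ D.m < (hgt D p : ℝ) ∧
      (rad (D.G p).natAbs : ℝ) ≤ X) →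
    (S.card : ℝ) ≤ C * (X ^ s * W ^ ((D.m : ℝ) + 1 - D.d * s) + Y ^ ((D.m : ℝ) + 1 - η D)) := by
  classical
  obtain ⟨C, hC, h⟩ := tail_n (D := D) s hs0 hs1 hsd
  have hη' := eta_le (D := D)
  have hη := eta_pos (D := D)
  have hm1 : (1 : ℝ) ≤ D.m := by exact_mod_cast D.hm
  set β : ℝ := (D.m : ℝ) + 1 - η D with hβ
  have hβ1 : 1 ≤ β := by
    rw [hβ]
    linarith
  have h2β : (1 : ℝ) ≤ 2 ^ β := Real.one_le_rpow (by norm_num) (by linarith)
  refine ⟨C * 2 ^ β, by positivity, ?_⟩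
  intro W Y X hW hY hX S hS
  have hW0 : 0 < W := by linarith
  have hY0 : 0 < Y := by linarith
  rcases lt_or_ge Y W with hYW | hYW
  · have : S = ∅ := by
      rw [eq_empty_iff_forall_notMem]
      intro p hp
      obtain ⟨-, h1, h2, -⟩ := hS p hp
      have : Y ^ D.m ≤ W ^ D.m := by gcongr
      linarith
    rw [this, card_empty]
    push_cast
    positivity
  obtain ⟨n, hn1, hn2⟩ : ∃ n : ℕ, 2 ^ n * W ≤ 2 * Y ∧ Y ≤ 2 ^ n * W := by
    obtain ⟨n, hn1, hn2⟩ := exists_nat_pow_near (x := Y / W) (y := 2)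
      (by rw [one_le_div hW0]; exact hYW) (by norm_num)
    refine ⟨n + 1, ?_, ?_⟩
    · rw [le_div_iff₀ hW0] at hn1
      rw [pow_succ]
      linarith
    · rw [div_lt_iff₀ hW0] at hn2
      exact hn2.le
  have h1 := h W X hW hX n S (fun p hp => by
    obtain ⟨a1, a2, a3, a4⟩ := hS p hp
    refine ⟨a1, a2.trans ?_, a3, a4⟩
    gcongr)
  refine h1.trans ?_
  have e1 : (2 ^ n * W) ^ β ≤ 2 ^ β * Y ^ β := by
    rw [← Real.mul_rpow (by norm_num) hY0.le]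
    gcongr
  have hp1 : 0 ≤ X ^ s * W ^ ((D.m : ℝ) + 1 - D.d * s) := by positivity
  calc C * (X ^ s * W ^ ((D.m : ℝ) + 1 - D.d * s) + (2 ^ n * W) ^ β)
      ≤ C * (2 ^ β * (X ^ s * W ^ ((D.m : ℝ) + 1 - D.d * s)) + 2 ^ β * Y ^ β) := by
        refine mul_le_mul_of_nonneg_left (add_le_add ?_ e1) hC.le
        nlinarith
    _ = _ := by ring

end Pool.Agent.T2h82.Ln
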