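import Pool.Agent.T2h82.Ln.Rg
import Pool.Agent.T2h82.Ln.Tail2

/-!
# The counting sets
-/

set_option autoImplicit false

namespace Pool.Agent.T2h82.Ln

open Finset Filter Topology MeasureTheory
open Pool.Agent.H328R2.ABC (rad rad_pos rad_le)
open Pool.Agent.T2h82.As (Nice Pt pt_finite)

variable (D : Dat) (S : Finset ℕ)

/-- the radical outside of `S` -/
def RS (p : ℤ × ℤ) : ℕ := radS S (D.G p).natAbs

/-- the height -/
def Ht (p : ℤ × ℤ) : ℤ := max (|D.σ| * p.1 ^ D.m) |p.2|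

variable {D S}

theorem rs_pos (p : ℤ × ℤ) : 0 < RS D S p := radS_pos _ _

theorem rs_mul {p : ℤ × ℤ} (h : D.Ok p) :
    (RS D S p : ℝ) * eS S (D.G p).natAbs = |(D.G p : ℝ)| := by
  have h1 := radS_mul_eS S (Int.natAbs_ne_zero.2 h.G0)
  have h2 : ((radS S (D.G p).natAbs : ℕ) : ℝ) * eS S (D.G p).natAbs = ((D.G p).natAbs : ℝ) := by
    exact_mod_cast h1
  unfold RS
  rw [h2, Nat.cast_natAbs]
  push_cast
  rfl

theorem gr_scale (p : ℤ × ℤ) {T : ℝ} (hT : 0 < T) :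
    Gr D ((p.1 : ℝ) / T, (p.2 : ℝ) / T ^ D.m) = (D.G p : ℝ) / T ^ D.d := by
  have h1 : ∀ i, fr D i ((p.1 : ℝ) / T, (p.2 : ℝ) / T ^ D.m) = (D.f i p : ℝ) / T ^ D.m := by
    intro i
    unfold fr Dat.f
    push_cast
    rw [div_pow]
    field_simp
  unfold Gr Dat.G Dat.d
  push_cast
  rw [prod_congr rfl (fun i _ => h1 i), prod_div_distrib, prod_const, card_univ, Fintype.card_fin,
    div_pow, ← pow_mul, pow_add, mul_comm D.q D.m]
  field_simp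

theorem hr_scale (p : ℤ × ℤ) {T : ℝ} (hT : 0 < T) :
    Hr D ((p.1 : ℝ) / T, (p.2 : ℝ) / T ^ D.m) = (Ht D p : ℝ) / T ^ D.m := by
  have hTm : 0 < T ^ D.m := by positivity
  unfold Hr Ht
  push_cast
  rw [abs_div, abs_of_pos hTm, div_pow, mul_div_assoc', max_div_div_right hTm.le]

theorem mem_ra {p : ℤ × ℤ} {T : ℝ} (hT : 0 < T) (K : ℝ) :
    p ∈ Pt (Fn D S (fun w => Ra D K w)) T (T ^ D.m) ↔
      D.Ok p ∧ ((p.1 : ℝ) / T, (p.2 : ℝ) / T ^ D.m) ∈ Bx K ∧ (RS D S p : ℝ) ≤ T ^ D.d := by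
  rw [mem_pt]
  refine and_congr_right (fun h => ?_)
  unfold Ra
  rw [Set.mem_inter_iff, Set.mem_ofPred_eq, gr_scale p hT, abs_div,
    abs_of_pos (by positivity : (0 : ℝ) < T ^ D.d), div_le_iff₀ (by positivity), ← rs_mul (S := S) h]
  have he : (0 : ℝ) < eS S (D.G p).natAbs := by exact_mod_cast eS_pos _ _
  refine and_congr_right (fun _ => ?_)
  rw [mul_comm, mul_le_mul_iff_right₀ he]

theorem mem_rb {p : ℤ × ℤ} {T : ℝ} (hT : 0 < T) (K τ : ℝ) :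
    p ∈ Pt (Fn D S (fun w => Rb D K τ w)) T (T ^ D.m) ↔
      D.Ok p ∧ ((p.1 : ℝ) / T, (p.2 : ℝ) / T ^ D.m) ∈ Bx K ∧ (RS D S p : ℝ) ≤ T ^ D.d ∧
      (Ht D p : ℝ) ^ D.d ≤ τ ^ D.d * (RS D S p : ℝ) ^ D.m := by
  have h0 := mem_ra (D := D) (S := S) (p := p) hT K
  rw [mem_pt] at h0 ⊢
  unfold Rb
  have he : (0 : ℝ) < eS S (D.G p).natAbs := by exact_mod_cast eS_pos _ _
  constructor
  · rintro ⟨h1, h2⟩
    rw [Set.mem_inter_iff] at h2
    obtain ⟨h3, h4, h5⟩ := h0.1 ⟨h1, h2.1⟩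
    refine ⟨h3, h4, h5, ?_⟩
    have h6 := h2.2
    rw [Set.mem_ofPred_eq, gr_scale p hT, hr_scale p hT, abs_div,
      abs_of_pos (by positivity : (0 : ℝ) < T ^ D.d), ← rs_mul (S := S) h3, div_pow, div_pow,
      ← pow_mul, ← pow_mul, mul_comm D.m D.d, mul_div_assoc', mul_div_assoc',
      div_le_div_iff_of_pos_right (by positivity), mul_pow] at h6
    have h7 : (eS S (D.G p).natAbs : ℝ) ^ D.m * (Ht D p : ℝ) ^ D.d ≤
        (eS S (D.G p).natAbs : ℝ) ^ D.m * (τ ^ D.d * (RS D S p : ℝ) ^ D.m) := by linarith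
    exact le_of_mul_le_mul_left h7 (by positivity)
  · rintro ⟨h3, h4, h5, h6⟩
    obtain ⟨h1, h2⟩ := h0.2 ⟨h3, h4, h5⟩
    refine ⟨h1, h2, ?_⟩
    rw [Set.mem_ofPred_eq, gr_scale p hT, hr_scale p hT, abs_div,
      abs_of_pos (by positivity : (0 : ℝ) < T ^ D.d), ← rs_mul (S := S) h3, div_pow, div_pow,
      ← pow_mul, ← pow_mul, mul_comm D.m D.d, mul_div_assoc', mul_div_assoc',
      div_le_div_iff_of_pos_right (by positivity), mul_pow]
    have h7 : (eS S (D.G p).natAbs : ℝ) ^ D.m * (Ht D p : ℝ) ^ D.d ≤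
        (eS S (D.G p).natAbs : ℝ) ^ D.m * (τ ^ D.d * (RS D S p : ℝ) ^ D.m) := by gcongr
    linarith

theorem hgt_nonneg (p : ℤ × ℤ) : 0 ≤ hgt D p := (abs_nonneg p.2).trans (le_max_right _ _)

theorem ht_nonneg (p : ℤ × ℤ) : 0 ≤ Ht D p := (abs_nonneg p.2).trans (le_max_right _ _)

theorem hgt_le_ht {p : ℤ × ℤ} (h : D.Ok p) : hgt D p ≤ Ht D p := by
  have h1 : 1 ≤ |D.σ| := Int.one_le_abs D.hσ
  have h2 : 0 < p.1 ^ D.m := pow_pos h.x0 _
  unfold hgt Ht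
  refine max_le_max ?_ le_rfl
  nlinarith

theorem ht_le_hgt {p : ℤ × ℤ} (h : D.Ok p) : Ht D p ≤ |D.σ| * hgt D p := by
  have h1 : 1 ≤ |D.σ| := Int.one_le_abs D.hσ
  have h2 : 0 < p.1 ^ D.m := pow_pos h.x0 _
  have h3 : p.1 ^ D.m ≤ hgt D p := le_max_left _ _
  have h4 : |p.2| ≤ hgt D p := le_max_right _ _
  have h5 := abs_nonneg p.2
  unfold Ht
  refine max_le ?_ ?_
  · nlinarith
  · nlinarith

theorem box_of_hgt {p : ℤ × ℤ} (h : D.Ok p) {K T : ℝ} (hT : 0 < T) (hK : 1 ≤ K)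
    (hh : (hgt D p : ℝ) ≤ (K * T) ^ D.m) :
    ((p.1 : ℝ) / T, (p.2 : ℝ) / T ^ D.m) ∈ Bx (K ^ D.m) := by
  have hx0 : (0 : ℝ) < p.1 := by exact_mod_cast h.x0
  have hm := D.hm
  have h1 : (p.1 : ℝ) ^ D.m ≤ (K * T) ^ D.m := by
    refine le_trans ?_ hh
    have : p.1 ^ D.m ≤ hgt D p := le_max_left _ _
    exact_mod_cast this
  have h2 : |(p.2 : ℝ)| ≤ (K * T) ^ D.m := by
    refine le_trans ?_ hh
    have : |p.2| ≤ hgt D p := le_max_right _ _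
    exact_mod_cast this
  have h3 : (p.1 : ℝ) ≤ K * T := le_of_pow_le_pow_left₀ (by omega) (by positivity) h1
  have hKm : K ≤ K ^ D.m := le_self_pow₀ hK (by omega)
  unfold Bx
  rw [Set.mem_prod, Set.mem_Icc, Set.mem_Icc]
  simp only
  refine ⟨⟨by positivity, ?_⟩, ?_⟩
  · rw [div_le_iff₀ hT]
    exact h3.trans (by gcongr)
  · rw [← abs_le, abs_div, abs_of_pos (by positivity : (0 : ℝ) < T ^ D.m),
      div_le_iff₀ (by positivity), ← mul_pow]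
    exact h2

theorem hgt_of_box {p : ℤ × ℤ} (h : D.Ok p) {K T : ℝ} (hT : 0 < T) (hK : 1 ≤ K)
    (hh : ((p.1 : ℝ) / T, (p.2 : ℝ) / T ^ D.m) ∈ Bx K) : (hgt D p : ℝ) ≤ (K * T) ^ D.m := by
  have hx0 : (0 : ℝ) < p.1 := by exact_mod_cast h.x0
  have hm := D.hm
  have hTm : (0 : ℝ) < T ^ D.m := by positivity
  have hKm : K ≤ K ^ D.m := le_self_pow₀ hK (by omega)
  unfold Bx at hh
  rw [Set.mem_prod, Set.mem_Icc, Set.mem_Icc] at hh
  simp only at hh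
  obtain ⟨⟨-, h1⟩, h2⟩ := hh
  rw [div_le_iff₀ hT] at h1
  rw [← abs_le, abs_div, abs_of_pos hTm, div_le_iff₀ hTm] at h2
  unfold hgt
  push_cast
  refine max_le ?_ ?_
  · gcongr
  · rw [mul_pow]
    exact h2.trans (by gcongr)

/-- the product bounding the primes of `S` -/
def PS (S : Finset ℕ) : ℕ := ∏ p ∈ S, (p + 1)

theorem ps_pos : 0 < PS S := prod_pos (fun _ _ => Nat.succ_pos _)

theorem rad_le_rs (p : ℤ × ℤ) : rad (D.G p).natAbs ≤ PS S * RS D S p := by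
  unfold RS radS rad
  rw [← prod_filter_not_mul_prod_filter (D.G p).natAbs.primeFactors (fun r => r ∉ S) (fun r => r)]
  refine Nat.mul_le_mul_right _ ?_
  calc ∏ r ∈ (D.G p).natAbs.primeFactors with ¬ r ∉ S, r
      ≤ ∏ r ∈ (D.G p).natAbs.primeFactors with ¬ r ∉ S, (r + 1) :=
        prod_le_prod' (fun r _ => Nat.le_succ r)
    _ ≤ PS S := by
        refine prod_le_prod_of_subset_of_one_le' (fun r hr => ?_) (fun r _ _ => Nat.succ_pos r)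
        rw [mem_filter, not_not] at hr
        exact hr.2

variable (D S)

/-- the exponent of the tail -/
noncomputable def e1 : ℝ := ((D.d : ℝ) - D.m - 1) / 2

theorem e1_pos : 0 < e1 D := by
  have h : ((D.m + 2 : ℕ) : ℝ) ≤ D.d := by exact_mod_cast D.le_d
  push_cast at h
  unfold e1
  linarith

/-- the tail, in terms of `T` -/
theorem tailT : ∃ C : ℝ, 0 < C ∧ ∀ K T Y : ℝ, 1 ≤ K → 1 ≤ T → 1 ≤ Y → ∀ F : Finset (ℤ × ℤ),
    (∀ p ∈ F, D.Ok p ∧ (hgt D p : ℝ) ≤ Y ^ D.m ∧ (K * T) ^ D.m < (hgt D p : ℝ) ∧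
      (RS D S p : ℝ) ≤ T ^ D.d) →
    (F.card : ℝ) ≤ C * (K ^ (-e1 D) * (T * T ^ D.m) + Y ^ ((D.m : ℝ) + 1 - η D)) := by
  have hd : ((D.m + 2 : ℕ) : ℝ) ≤ D.d := by exact_mod_cast D.le_d
  push_cast at hd
  have hm1 : (1 : ℝ) ≤ D.m := by exact_mod_cast D.hm
  have hd0 : (0 : ℝ) < D.d := by linarith
  set s : ℝ := ((D.m : ℝ) + 1 + D.d) / (2 * D.d) with hs
  have hs0 : 0 < s := by positivity
  have hs1 : s < 1 := by
    rw [hs, div_lt_one (by positivity)]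
    linarith
  have hds : D.d * s = ((D.m : ℝ) + 1 + D.d) / 2 := by
    rw [hs]
    field_simp
  have hsd : (D.m : ℝ) + 1 < D.d * s := by
    rw [hds]
    linarith
  have he : (D.m : ℝ) + 1 - D.d * s = -e1 D := by
    rw [hds]
    unfold e1
    ring
  obtain ⟨C, hC, h⟩ := tail (D := D) s hs0 hs1 hsd
  have hP : (0 : ℝ) < PS S := by exact_mod_cast ps_pos
  have hP1 : (1 : ℝ) ≤ (PS S : ℝ) ^ s := by
    have : 1 ≤ PS S := ps_pos
    exact Real.one_le_rpow (by exact_mod_cast this) hs0.le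
  refine ⟨C * (PS S : ℝ) ^ s, by positivity, ?_⟩
  intro K T Y hK hT hY F hF
  have hT0 : 0 < T := by linarith
  have hK0 : 0 < K := by linarith
  have h1 := h (K * T) Y (PS S * T ^ D.d) (by nlinarith) hY (by positivity) F (fun p hp => by
    obtain ⟨a1, a2, a3, a4⟩ := hF p hp
    refine ⟨a1, a2, a3, ?_⟩
    have b1 : (rad (D.G p).natAbs : ℝ) ≤ PS S * RS D S p := by exact_mod_cast rad_le_rs p
    exact b1.trans (by gcongr))
  refine h1.trans ?_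
  have e2 : (PS S * T ^ D.d) ^ s * (K * T) ^ ((D.m : ℝ) + 1 - D.d * s) =
      (PS S : ℝ) ^ s * (K ^ (-e1 D) * (T * T ^ D.m)) := by
    rw [Real.mul_rpow hP.le (by positivity), Real.mul_rpow hK0.le hT0.le, ← Real.rpow_natCast T D.d,
      ← Real.rpow_mul hT0.le, he]
    have e3 : T ^ ((D.d : ℝ) * s) * T ^ (-e1 D) = T * T ^ D.m := by
      rw [← Real.rpow_add hT0, ← he]
      have : (D.d : ℝ) * s + ((D.m : ℝ) + 1 - D.d * s) = ((D.m + 1 : ℕ) : ℝ) := by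
        push_cast
        ring
      rw [this, Real.rpow_natCast, pow_succ]
      ring
    rw [← e3]
    ring
  rw [e2]
  have hp1 : 0 ≤ K ^ (-e1 D) * (T * T ^ D.m) := by positivity
  have hp2 : 0 ≤ Y ^ ((D.m : ℝ) + 1 - η D) := by positivity
  calc C * ((PS S : ℝ) ^ s * (K ^ (-e1 D) * (T * T ^ D.m)) + Y ^ ((D.m : ℝ) + 1 - η D))
      ≤ C * ((PS S : ℝ) ^ s * (K ^ (-e1 D) * (T * T ^ D.m)) +
        (PS S : ℝ) ^ s * Y ^ ((D.m : ℝ) + 1 - η D)) := by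
        gcongr
        nlinarith
    _ = _ := by ring

end Pool.Agent.T2h82.Ln
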