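import Pool.Agent.T2h82.Ln.Law

/-!
# The counts in terms of `X`
-/

set_option autoImplicit false

namespace Pool.Agent.T2h82.Ln

open Finset Filter Topology MeasureTheory
open Pool.Agent.T2h82.As (card_box)

variable (D : Dat) (S : Finset ℕ)

/-- the end of the range of the heights -/
noncomputable def κ₀ : ℝ := (D.m : ℝ) / D.d * (((D.m : ℝ) + 1) / ((D.m : ℝ) + 1 - η D))

theorem fst_le_ht {p : ℤ × ℤ} (h : D.Ok p) : p.1 ≤ Ht D p := by
  have hm := D.hm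
  have h1 : 1 ≤ |D.σ| := Int.one_le_abs D.hσ
  have h2 : p.1 ≤ p.1 ^ D.m := le_self_pow₀ h.x0 (by omega)
  have h3 : |D.σ| * p.1 ^ D.m ≤ Ht D p := le_max_left _ _
  have := h.x0
  nlinarith

theorem ht_fin (Y : ℝ) : {p : ℤ × ℤ | D.Ok p ∧ (Ht D p : ℝ) ≤ Y}.Finite := by
  refine ((Set.finite_Icc (0 : ℤ) ⌊Y⌋).prod (Set.finite_Icc (-⌊Y⌋) ⌊Y⌋)).subset ?_
  rintro p ⟨h1, h2⟩
  have h3 : Ht D p ≤ ⌊Y⌋ := Int.le_floor.2 h2
  have h4 := fst_le_ht D h1
  have h5 : |p.2| ≤ Ht D p := le_max_right _ _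
  have h6 := h1.x0
  rw [Set.mem_prod, Set.mem_Icc, Set.mem_Icc, ← abs_le]
  exact ⟨⟨h6.le, by omega⟩, by omega⟩

/-- the trivial count -/
theorem triv {T : ℝ} (hT : 1 ≤ T) (F : Finset (ℤ × ℤ))
    (h : ∀ p ∈ F, D.Ok p ∧ (hgt D p : ℝ) ≤ T ^ D.m) : (F.card : ℝ) ≤ 3 * (T * T ^ D.m) := by
  have hT0 : 0 < T := by linarith
  have hm := D.hm
  have hTm : 1 ≤ T ^ D.m := one_le_pow₀ hT
  have hsub : F ⊆ Icc (1 : ℤ) ⌊T⌋ ×ˢ Icc (-((⌊T ^ D.m⌋₊ : ℕ) : ℤ)) ((⌊T ^ D.m⌋₊ : ℕ) : ℤ) := by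
    intro p hp
    obtain ⟨h1, h2⟩ := h p hp
    have hx0 : (0 : ℝ) < p.1 := by exact_mod_cast h1.x0
    have h3 : (p.1 : ℝ) ^ D.m ≤ T ^ D.m := by
      refine le_trans ?_ h2
      have : p.1 ^ D.m ≤ hgt D p := le_max_left _ _
      exact_mod_cast this
    have h4 : (p.1 : ℝ) ≤ T := le_of_pow_le_pow_left₀ (by omega) hT0.le h3
    have h5 : ((p.2.natAbs : ℕ) : ℝ) ≤ T ^ D.m := by
      refine le_trans ?_ h2
      rw [Nat.cast_natAbs]
      have : |p.2| ≤ hgt D p := le_max_right _ _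
      exact_mod_cast this
    have h6 : p.2.natAbs ≤ ⌊T ^ D.m⌋₊ := Nat.le_floor h5
    have h7 := h1.x0
    rw [mem_product, mem_Icc, mem_Icc]
    exact ⟨⟨by omega, Int.le_floor.2 h4⟩, by omega, by omega⟩
  have h1 := card_le_card hsub
  rw [card_product] at h1
  have h2 : (F.card : ℝ) ≤ ((Icc (1 : ℤ) ⌊T⌋).card : ℝ) *
      ((Icc (-((⌊T ^ D.m⌋₊ : ℕ) : ℤ)) ((⌊T ^ D.m⌋₊ : ℕ) : ℤ)).card : ℝ) := by exact_mod_cast h1
  refine h2.trans ?_
  rw [card_box, Int.card_Icc]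
  have h3 : (((⌊T⌋ + 1 - 1).toNat : ℕ) : ℝ) ≤ T := by
    have h4 : 0 ≤ ⌊T⌋ := Int.floor_nonneg.2 hT0.le
    have h5 : (((⌊T⌋ + 1 - 1).toNat : ℕ) : ℤ) = ⌊T⌋ := by omega
    have h6 : (((⌊T⌋ + 1 - 1).toNat : ℕ) : ℝ) = ((⌊T⌋ : ℤ) : ℝ) := by exact_mod_cast h5
    rw [h6]
    exact Int.floor_le T
  have h4 : ((⌊T ^ D.m⌋₊ : ℕ) : ℝ) ≤ T ^ D.m := Nat.floor_le (by positivity)
  calc (((⌊T⌋ + 1 - 1).toNat : ℕ) : ℝ) * (2 * ((⌊T ^ D.m⌋₊ : ℕ) : ℝ) + 1)
      ≤ T * (2 * T ^ D.m + T ^ D.m) := by gcongr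
    _ = _ := by ring

theorem cnt_split (F : Finset (ℤ × ℤ)) (P : ℤ × ℤ → Prop) [DecidablePred P] :
    (F.card : ℝ) = (F.filter P).card + (F.filter (fun p => ¬ P p)).card := by
  exact_mod_cast (card_filter_add_card_filter_not P).symm

/-- an upper bound for the number of the pairs -/
theorem upper : ∃ C : ℝ, 0 < C ∧ ∀ T Y : ℝ, 1 ≤ T → 1 ≤ Y → ∀ F : Finset (ℤ × ℤ),
    (∀ p ∈ F, D.Ok p ∧ (hgt D p : ℝ) ≤ Y ^ D.m ∧ (RS D S p : ℝ) ≤ T ^ D.d) →
    (F.card : ℝ) ≤ C * (T * T ^ D.m + Y ^ ((D.m : ℝ) + 1 - η D)) := by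
  classical
  obtain ⟨C, hC, ht⟩ := tailT D S
  refine ⟨C + 3, by positivity, ?_⟩
  intro T Y hT hY F hF
  have hT0 : 0 < T := by linarith
  have h1 := ht 1 T Y le_rfl hT hY (F.filter (fun p => T ^ D.m < (hgt D p : ℝ))) (fun p hp => by
    rw [mem_filter] at hp
    obtain ⟨a1, a2, a3⟩ := hF p hp.1
    exact ⟨a1, a2, by rw [one_mul]; exact hp.2, a3⟩)
  have h2 := triv D hT (F.filter (fun p => ¬ T ^ D.m < (hgt D p : ℝ))) (fun p hp => by
    rw [mem_filter, not_lt] at hp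
    exact ⟨(hF p hp.1).1, hp.2⟩)
  rw [Real.one_rpow, one_mul] at h1
  rw [cnt_split F (fun p => T ^ D.m < (hgt D p : ℝ))]
  have : 0 ≤ Y ^ ((D.m : ℝ) + 1 - η D) := by positivity
  linarith

theorem sub_pos' : 0 < (D.m : ℝ) + 1 - η D := by
  have h1 := eta_le (D := D)
  have h2 : (1 : ℝ) ≤ D.m := by exact_mod_cast D.hm
  linarith

theorem kappa_gt : (D.m : ℝ) / D.d < κ₀ D := by
  have h1 := eta_pos (D := D)
  have h3 := sub_pos' D
  have h4 : (0 : ℝ) < D.m := by exact_mod_cast D.hm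
  have h5 : (0 : ℝ) < D.d := by exact_mod_cast D.d_pos
  have h6 : 1 < ((D.m : ℝ) + 1) / ((D.m : ℝ) + 1 - η D) := by
    rw [one_lt_div h3]
    linarith
  unfold κ₀
  have h7 : 0 < (D.m : ℝ) / D.d := by positivity
  nlinarith

theorem kappa_lt {κ : ℝ} (h : κ < κ₀ D) : κ / D.m * ((D.m : ℝ) + 1 - η D) < θ D := by
  have h3 := sub_pos' D
  have h4 : (0 : ℝ) < D.m := by exact_mod_cast D.hm
  have h5 : (0 : ℝ) < D.d := by exact_mod_cast D.d_pos
  unfold κ₀ at h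
  unfold θ
  calc κ / D.m * ((D.m : ℝ) + 1 - η D)
      < ((D.m : ℝ) / D.d * (((D.m : ℝ) + 1) / ((D.m : ℝ) + 1 - η D))) / D.m *
          ((D.m : ℝ) + 1 - η D) := by gcongr
    _ = _ := by field_simp

/-- the passage from `T` to `X` -/
theorem tx_top : Tendsto (fun X : ℝ => X ^ (1 / (D.d : ℝ))) atTop atTop := by
  have h5 : (0 : ℝ) < D.d := by exact_mod_cast D.d_pos
  exact tendsto_rpow_atTop (by positivity)

theorem tx_d {X : ℝ} (hX : 0 ≤ X) : (X ^ (1 / (D.d : ℝ))) ^ D.d = X := by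
  have h5 : (0 : ℝ) < D.d := by exact_mod_cast D.d_pos
  rw [← Real.rpow_natCast, ← Real.rpow_mul hX, one_div_mul_cancel h5.ne', Real.rpow_one]

theorem tx_m {X : ℝ} (hX : 0 < X) :
    X ^ (1 / (D.d : ℝ)) * (X ^ (1 / (D.d : ℝ))) ^ D.m = X ^ θ D := by
  rw [← pow_succ', ← Real.rpow_natCast, ← Real.rpow_mul hX.le]
  congr 1
  unfold θ
  push_cast
  ring

theorem theta_pos : 0 < θ D := by
  have h5 : (0 : ℝ) < D.d := by exact_mod_cast D.d_pos
  unfold θ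
  positivity

/-- **The count of the pairs of height at most `X ^ κ`.** -/
theorem count {κ : ℝ} (h1 : (D.m : ℝ) / D.d < κ) (h2 : κ < κ₀ D) :
    Tendsto (fun X : ℝ => ({p | D.Ok p ∧ (Ht D p : ℝ) ≤ X ^ κ ∧ (RS D S p : ℝ) ≤ X}.ncard : ℝ) /
      X ^ θ D) atTop (𝓝 (cc D S)) := by
  classical
  have hm : (0 : ℝ) < D.m := by exact_mod_cast D.hm
  have hd : (0 : ℝ) < D.d := by exact_mod_cast D.d_pos
  have hη := eta_pos (D := D)
  have hκ0 : 0 < κ := lt_trans (by positivity) h1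
  obtain ⟨C, hC, ht⟩ := tailT D S
  have hmain := total D S (fun T => {p | (Ht D p : ℝ) ≤ (T ^ D.d) ^ κ}) ?_ ?_ ?_
  · refine (hmain.comp (tx_top D)).congr' ?_
    filter_upwards [eventually_gt_atTop 0] with X hX
    simp only [Function.comp_apply, tx_d D hX.le, tx_m D hX]
  · refine Eventually.of_forall (fun T => (ht_fin D _).subset (fun p hp => ⟨hp.1, hp.2.1⟩))
  · intro K hK
    have hK0 : 0 < K := by linarith
    have hlim : Tendsto (fun T : ℝ => T ^ (D.d * κ - D.m)) atTop atTop := by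
      refine tendsto_rpow_atTop ?_
      rw [div_lt_iff₀ hd] at h1
      linarith
    filter_upwards [hlim.eventually_ge_atTop (|(D.σ : ℝ)| * K ^ D.m), eventually_ge_atTop 1]
      with T t1 t2
    intro p hp hh
    have hT0 : 0 < T := by linarith
    have h3 : (Ht D p : ℝ) ≤ |(D.σ : ℝ)| * hgt D p := by exact_mod_cast ht_le_hgt hp
    show (Ht D p : ℝ) ≤ (T ^ D.d) ^ κ
    calc (Ht D p : ℝ) ≤ |(D.σ : ℝ)| * hgt D p := h3
      _ ≤ |(D.σ : ℝ)| * (K * T) ^ D.m := by gcongr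
      _ = (|(D.σ : ℝ)| * K ^ D.m) * T ^ D.m := by rw [mul_pow]; ring
      _ ≤ T ^ (D.d * κ - D.m) * T ^ D.m := by gcongr
      _ = (T ^ D.d) ^ κ := by
          rw [← Real.rpow_natCast T D.m, ← Real.rpow_add hT0, ← Real.rpow_natCast T D.d,
            ← Real.rpow_mul hT0.le]
          congr 1
          ring
  · intro ε hε
    have he1 := e1_pos D
    have hk : Tendsto (fun K : ℝ => C * K ^ (-e1 D)) atTop (𝓝 (C * 0)) :=
      (tendsto_rpow_neg_atTop he1).const_mul C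
    rw [mul_zero] at hk
    obtain ⟨K₁, hK₁⟩ := eventually_atTop.1 (hk.eventually_lt_const (by positivity : 0 < ε / 2))
    refine ⟨max K₁ 1, fun K hK => ?_⟩
    have hK1 : 1 ≤ K := (le_max_right _ _).trans hK
    have hK2 := hK₁ K ((le_max_left _ _).trans hK)
    set β : ℝ := D.d * κ / D.m * ((D.m : ℝ) + 1 - η D) with hβ
    have hβ1 : β < (D.m : ℝ) + 1 := by
      have := kappa_lt D h2
      unfold θ at this
      rw [lt_div_iff₀ hd] at this
      rw [hβ]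
      calc D.d * κ / D.m * ((D.m : ℝ) + 1 - η D) = κ / D.m * ((D.m : ℝ) + 1 - η D) * D.d := by ring
        _ < _ := this
    have h3 := pow_lim 1 β ((D.m : ℝ) + 1) hβ1 one_pos C
    filter_upwards [h3.eventually_lt_const (by positivity : 0 < ε / 2), eventually_ge_atTop 1]
      with T t1 t2
    intro F hF
    have hT0 : 0 < T := by linarith
    have hY1 : 1 ≤ T ^ (D.d * κ / D.m) := Real.one_le_rpow t2 (by positivity)
    have h4 := ht K T (T ^ (D.d * κ / D.m)) hK1 t2 hY1 F (fun p hp => by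
      obtain ⟨a1, a2, a3, a4⟩ := hF p hp
      refine ⟨a1, ?_, a4, a3⟩
      have h5 : (hgt D p : ℝ) ≤ Ht D p := by exact_mod_cast hgt_le_ht a1
      have h6 : (Ht D p : ℝ) ≤ (T ^ D.d) ^ κ := a2
      refine (h5.trans h6).trans (le_of_eq ?_)
      rw [← Real.rpow_natCast T D.d, ← Real.rpow_mul hT0.le, ← Real.rpow_natCast _ D.m,
        ← Real.rpow_mul hT0.le]
      congr 1
      field_simp)
    have hTT : T * T ^ D.m = T ^ ((D.m : ℝ) + 1) := by
      have : (D.m : ℝ) + 1 = ((D.m + 1 : ℕ) : ℝ) := by push_cast; ring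
      rw [this, Real.rpow_natCast, pow_succ]
      ring
    have hp : 0 < T ^ ((D.m : ℝ) + 1) := by positivity
    rw [← Real.rpow_mul hT0.le, ← hβ] at h4
    rw [hTT] at h4 ⊢
    rw [one_mul, mul_div_assoc', div_lt_iff₀ hp] at t1
    have h7 : C * K ^ (-e1 D) * T ^ ((D.m : ℝ) + 1) ≤ ε / 2 * T ^ ((D.m : ℝ) + 1) := by
      gcongr
    calc (F.card : ℝ) ≤ C * (K ^ (-e1 D) * T ^ ((D.m : ℝ) + 1) + T ^ β) := h4
      _ = C * K ^ (-e1 D) * T ^ ((D.m : ℝ) + 1) + C * T ^ β := by ring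
      _ ≤ ε / 2 * T ^ ((D.m : ℝ) + 1) + ε / 2 * T ^ ((D.m : ℝ) + 1) := add_le_add h7 t1.le
      _ = _ := by ring

/-- **The pairs of large height are few.** -/
theorem exc {κ : ℝ} (h0 : 0 < κ) (h2 : κ < κ₀ D) {δ : ℝ} (hδ : 0 < δ) :
    ∃ ν C : ℝ, 0 < ν ∧ 0 < C ∧ ∀ X : ℝ, 1 ≤ X → ∀ F : Finset (ℤ × ℤ),
      (∀ p ∈ F, D.Ok p ∧ (Ht D p : ℝ) ≤ X ^ κ ∧ (RS D S p : ℝ) ≤ X ∧
        (RS D S p : ℝ) ^ ((D.m : ℝ) / D.d + δ) < Ht D p) →
      (F.card : ℝ) ≤ C * X ^ (θ D - ν) := by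
  classical
  have hm : (0 : ℝ) < D.m := by exact_mod_cast D.hm
  have hd : (0 : ℝ) < D.d := by exact_mod_cast D.d_pos
  have hη := eta_pos (D := D)
  have he1 := e1_pos D
  have hθ := theta_pos D
  have hσ := sig_one D
  have hβ := kappa_lt D h2
  set β : ℝ := κ / D.m * ((D.m : ℝ) + 1 - η D) with hβd
  obtain ⟨C1, hC1, hup⟩ := upper D S
  obtain ⟨C2, hC2, ht⟩ := tailT D S
  set a : ℝ := (D.m : ℝ) / D.d with ha
  have ha0 : 0 < a := by positivity
  set ε : ℝ := δ / (2 * (a + δ)) with hε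
  have hε0 : 0 < ε := by positivity
  have hε1 : ε < 1 := by
    rw [hε, div_lt_one (by positivity)]
    linarith
  have hε2 : (1 - ε) * (a + δ) = a + δ / 2 := by
    rw [hε]
    field_simp
    ring
  set ν : ℝ := min (θ D * ε) (min (θ D - β) (δ / (4 * D.m) * e1 D)) with hν
  have hν0 : 0 < ν := lt_min (by positivity) (lt_min (by linarith) (by positivity))
  have hν1 : ν ≤ θ D * ε := min_le_left _ _
  have hν2 : ν ≤ θ D - β := (min_le_right _ _).trans (min_le_left _ _)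
  have hν3 : ν ≤ δ / (4 * D.m) * e1 D := (min_le_right _ _).trans (min_le_right _ _)
  have hνθ : ν ≤ θ D := by nlinarith
  set X₀ : ℝ := |(D.σ : ℝ)| ^ (4 / δ) with hX₀
  have hX₀1 : 1 ≤ X₀ := Real.one_le_rpow hσ (by positivity)
  set N₀ : ℕ := (ht_fin D (X₀ ^ κ)).toFinset.card with hN₀
  refine ⟨ν, 2 * C1 + 2 * C2 + N₀, hν0, by positivity, ?_⟩
  intro X hX F hF
  have hX0 : 0 < X := by linarith
  have hXν : 1 ≤ X ^ (θ D - ν) := Real.one_le_rpow hX (by linarith)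
  have hXp : 0 < X ^ (θ D - ν) := by positivity
  have hmon : ∀ x : ℝ, x ≤ θ D - ν → X ^ x ≤ X ^ (θ D - ν) := fun x hx =>
    Real.rpow_le_rpow_of_exponent_le hX hx
  rcases lt_or_ge X X₀ with hlt | hge
  · -- small `X`
    have h3 : F.card ≤ N₀ := by
      refine card_le_card (fun p hp => ?_)
      rw [Set.Finite.mem_toFinset]
      obtain ⟨a1, a2, -⟩ := hF p hp
      exact ⟨a1, a2.trans (by gcongr)⟩
    have h4 : (F.card : ℝ) ≤ N₀ := by exact_mod_cast h3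
    have h5 : (N₀ : ℝ) * 1 ≤ (2 * C1 + 2 * C2 + N₀) * X ^ (θ D - ν) := by
      have : (N₀ : ℝ) ≤ 2 * C1 + 2 * C2 + N₀ := by linarith
      gcongr
    linarith
  · -- large `X`
    have hσX : |(D.σ : ℝ)| ≤ X ^ (δ / 4) := by
      calc |(D.σ : ℝ)| = X₀ ^ (δ / 4) := by
            rw [hX₀, ← Real.rpow_mul (by linarith)]
            have : 4 / δ * (δ / 4) = 1 := by field_simp
            rw [this, Real.rpow_one]
        _ ≤ X ^ (δ / 4) := by gcongr
    have hY1 : 1 ≤ X ^ (κ / D.m) := Real.one_le_rpow hX (by positivity)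
    have hYm : (X ^ (κ / D.m)) ^ D.m = X ^ κ := by
      rw [← Real.rpow_natCast, ← Real.rpow_mul hX0.le]
      congr 1
      field_simp
    have hYβ : (X ^ (κ / D.m)) ^ ((D.m : ℝ) + 1 - η D) = X ^ β := by
      rw [← Real.rpow_mul hX0.le]
    have hXβ : X ^ β ≤ X ^ (θ D - ν) := hmon β (by linarith)
    -- small radical
    set X' : ℝ := X ^ (1 - ε) with hX'
    have hX'1 : 1 ≤ X' := Real.one_le_rpow hX (by linarith)
    have hX'0 : 0 < X' := by linarith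
    have hT1 : 1 ≤ X' ^ (1 / (D.d : ℝ)) := Real.one_le_rpow hX'1 (by positivity)
    have b1 := hup (X' ^ (1 / (D.d : ℝ))) (X ^ (κ / D.m)) hT1 hY1
      (F.filter (fun p => (RS D S p : ℝ) ≤ X')) (fun p hp => by
        rw [mem_filter] at hp
        obtain ⟨a1, a2, a3, a4⟩ := hF p hp.1
        have h5 : (hgt D p : ℝ) ≤ Ht D p := by exact_mod_cast hgt_le_ht a1
        rw [hYm, tx_d D hX'0.le]
        exact ⟨a1, h5.trans a2, hp.2⟩)
    rw [tx_m D hX'0, hYβ] at b1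
    have c1 : X' ^ θ D ≤ X ^ (θ D - ν) := by
      rw [hX', ← Real.rpow_mul hX0.le]
      refine hmon _ ?_
      have : (1 - ε) * θ D = θ D - θ D * ε := by ring
      rw [this]
      linarith
    have b1' : ((F.filter (fun p => (RS D S p : ℝ) ≤ X')).card : ℝ) ≤
        2 * C1 * X ^ (θ D - ν) := by
      refine b1.trans ?_
      have : C1 * (X' ^ θ D + X ^ β) ≤ C1 * (X ^ (θ D - ν) + X ^ (θ D - ν)) := by gcongr
      linarith
    -- large radical
    set T : ℝ := X ^ (1 / (D.d : ℝ)) with hT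
    have hTT1 : 1 ≤ T := Real.one_le_rpow hX (by positivity)
    set K : ℝ := X ^ (δ / (4 * D.m)) with hK
    have hK1 : 1 ≤ K := Real.one_le_rpow hX (by positivity)
    have hKT : (K * T) ^ D.m = X ^ (a + δ / 4) := by
      rw [hK, hT, ← Real.rpow_add hX0, ← Real.rpow_natCast, ← Real.rpow_mul hX0.le]
      congr 1
      rw [ha]
      field_simp
      ring
    have b2 := ht K T (X ^ (κ / D.m)) hK1 hTT1 hY1
      (F.filter (fun p => ¬ (RS D S p : ℝ) ≤ X')) (fun p hp => by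
        rw [mem_filter, not_le] at hp
        obtain ⟨a1, a2, a3, a4⟩ := hF p hp.1
        have h5 : (hgt D p : ℝ) ≤ Ht D p := by exact_mod_cast hgt_le_ht a1
        rw [hYm, hT, tx_d D hX0.le, ← hT, hKT]
        refine ⟨a1, h5.trans a2, ?_, a3⟩
        have h6 : X ^ (a + δ / 2) < Ht D p := by
          calc X ^ (a + δ / 2) = X' ^ (a + δ) := by
                rw [hX', ← Real.rpow_mul hX0.le, hε2]
            _ ≤ (RS D S p : ℝ) ^ (a + δ) := Real.rpow_le_rpow hX'0.le hp.2.le (by positivity)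
            _ < Ht D p := a4
        have h7 : (Ht D p : ℝ) ≤ |(D.σ : ℝ)| * hgt D p := by exact_mod_cast ht_le_hgt a1
        have h8 : (0 : ℝ) ≤ hgt D p := by exact_mod_cast hgt_nonneg (D := D) p
        have h9 : X ^ (δ / 4) * X ^ (a + δ / 4) < X ^ (δ / 4) * hgt D p := by
          calc X ^ (δ / 4) * X ^ (a + δ / 4) = X ^ (a + δ / 2) := by
                rw [← Real.rpow_add hX0]
                congr 1
                ring
            _ < Ht D p := h6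
            _ ≤ |(D.σ : ℝ)| * hgt D p := h7
            _ ≤ _ := by gcongr
        exact lt_of_mul_lt_mul_left h9 (by positivity))
    rw [hT, tx_m D hX0, hYβ] at b2
    have c2 : K ^ (-e1 D) * X ^ θ D ≤ X ^ (θ D - ν) := by
      rw [hK, ← Real.rpow_mul hX0.le, ← Real.rpow_add hX0]
      refine hmon _ ?_
      linarith
    have b2' : ((F.filter (fun p => ¬ (RS D S p : ℝ) ≤ X')).card : ℝ) ≤
        2 * C2 * X ^ (θ D - ν) := by
      refine b2.trans ?_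
      have : C2 * (K ^ (-e1 D) * X ^ θ D + X ^ β) ≤ C2 * (X ^ (θ D - ν) + X ^ (θ D - ν)) := by
        gcongr
      linarith
    rw [cnt_split F (fun p => (RS D S p : ℝ) ≤ X')]
    have hN : 0 ≤ (N₀ : ℝ) * X ^ (θ D - ν) := by positivity
    calc ((F.filter (fun p => (RS D S p : ℝ) ≤ X')).card : ℝ) +
          (F.filter (fun p => ¬ (RS D S p : ℝ) ≤ X')).card
        ≤ 2 * C1 * X ^ (θ D - ν) + 2 * C2 * X ^ (θ D - ν) := add_le_add b1' b2'
      _ ≤ (2 * C1 + 2 * C2 + N₀) * X ^ (θ D - ν) := by linarith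

end Pool.Agent.T2h82.Ln
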