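import Pool.Agent.T2h82.Ln.Tot

/-!
# The limit law
-/

set_option autoImplicit false

namespace Pool.Agent.T2h82.Ln

open Finset Filter Topology MeasureTheory
open Pool.Agent.T2h82.As (Nice Pt pt_finite null_rows)
open scoped ENNReal

variable (D : Dat) (S : Finset ℕ)

/-- the region of the law -/
def Rl (τ w : ℝ) : Set (ℝ × ℝ) :=
  {p | 0 ≤ p.1 ∧ |Gr D p| ≤ w ∧ w ^ D.m * Hr D p ^ D.d ≤ τ ^ D.d * |Gr D p| ^ D.m}

theorem hr_nonneg (p : ℝ × ℝ) : 0 ≤ Hr D p := (abs_nonneg p.2).trans (le_max_right _ _)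

theorem sig_one : (1 : ℝ) ≤ |(D.σ : ℝ)| := by
  have h1 : 1 ≤ |D.σ| := Int.one_le_abs D.hσ
  exact_mod_cast h1

theorem pow_hr {p : ℝ × ℝ} (h : 0 ≤ p.1) : p.1 ^ D.m ≤ Hr D p := by
  have h1 := sig_one D
  have h2 : 0 ≤ p.1 ^ D.m := by positivity
  have h3 : |(D.σ : ℝ)| * p.1 ^ D.m ≤ Hr D p := le_max_left _ _
  nlinarith

theorem fst_le {p : ℝ × ℝ} (h : 0 ≤ p.1) {K : ℝ} (hK : 1 ≤ K) (hh : Hr D p ≤ K) : p.1 ≤ K := by
  by_contra hcon
  push Not at hcon
  have hm := D.hm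
  have h1 : p.1 ≤ p.1 ^ D.m := le_self_pow₀ (hK.trans hcon.le) (by omega)
  have h2 := pow_hr D h
  linarith

theorem rl_eq {τ w : ℝ} (hτ : 0 < τ) (hw : 0 < w) : Rb D (max 1 τ) τ w = Rl D τ w := by
  have hm := D.hm
  have hd := D.d_pos
  ext p
  constructor
  · rintro ⟨⟨h1, h2⟩, h3⟩
    exact ⟨h1.1.1, h2, h3⟩
  · rintro ⟨h1, h2, h3⟩
    refine ⟨⟨?_, h2⟩, h3⟩
    have hH := hr_nonneg D p
    have h4 : Hr D p ^ D.d ≤ τ ^ D.d := by
      have h5 : w ^ D.m * Hr D p ^ D.d ≤ τ ^ D.d * w ^ D.m := h3.trans (by gcongr)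
      have h6 : w ^ D.m * Hr D p ^ D.d ≤ w ^ D.m * τ ^ D.d := by linarith
      exact le_of_mul_le_mul_left h6 (by positivity)
    have h5 : Hr D p ≤ τ := le_of_pow_le_pow_left₀ (by omega) hτ.le h4
    have h6 : Hr D p ≤ max 1 τ := h5.trans (le_max_right _ _)
    have h7 : |p.2| ≤ Hr D p := le_max_right _ _
    unfold Bx
    rw [Set.mem_prod, Set.mem_Icc, Set.mem_Icc, ← abs_le]
    exact ⟨⟨h1, fst_le D h1 (le_max_left _ _) h6⟩, h7.trans h6⟩

theorem rl_sub (τ w : ℝ) : Rl D τ w ⊆ Rinf D w := fun _ h => ⟨h.1, h.2.1⟩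

theorem rl_mono {τ τ' : ℝ} (hτ : 0 ≤ τ) (h : τ ≤ τ') (w : ℝ) : Rl D τ w ⊆ Rl D τ' w := by
  rintro p ⟨h1, h2, h3⟩
  exact ⟨h1, h2, h3.trans (by gcongr)⟩

/-- the limit law -/
noncomputable def GG (τ : ℝ) : ℝ := ∑' w : ℕ, ρ D S w * (volume (Rl D τ w)).toReal

theorem gg_le (τ : ℝ) (w : ℕ) : ρ D S w * (volume (Rl D τ w)).toReal ≤
    ρ D S w * (volume (Rinf D w)).toReal :=
  mul_le_mul_of_nonneg_left (ENNReal.toReal_mono (rinf_fin' D w) (measure_mono (rl_sub D τ w)))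
    (ρ_nonneg D S w)

theorem gg_nonneg (τ : ℝ) (w : ℕ) : 0 ≤ ρ D S w * (volume (Rl D τ w)).toReal :=
  mul_nonneg (ρ_nonneg D S w) ENNReal.toReal_nonneg

theorem gg_sum (τ : ℝ) : Summable (fun w : ℕ => ρ D S w * (volume (Rl D τ w)).toReal) :=
  Summable.of_nonneg_of_le (gg_nonneg D S τ) (gg_le D S τ) (sum_rinf D S)

theorem gg_mono : MonotoneOn (GG D S) (Set.Ioi 0) := by
  intro τ hτ τ' hτ' h
  refine (gg_sum D S τ).tsum_le_tsum (fun w => ?_) (gg_sum D S τ')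
  refine mul_le_mul_of_nonneg_left ?_ (ρ_nonneg D S w)
  exact ENNReal.toReal_mono ((measure_mono (rl_sub D τ' w)).trans_lt (rinf_fin' D w).lt_top).ne
    (measure_mono (rl_mono D (le_of_lt hτ) h w))

theorem gr_bound {p : ℝ × ℝ} (h : 0 ≤ p.1) :
    |Gr D p| ^ D.m ≤ Cf D ^ (D.q * D.m) * Hr D p ^ D.d := by
  have hH := hr_nonneg D p
  have h1 := pow_hr D h
  have h2 : |p.2| ≤ Hr D p := le_max_right _ _
  have hC := cf_one (D := D)
  have hf : ∀ i, |fr D i p| ≤ Cf D * Hr D p := by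
    intro i
    have h0 : 0 ≤ p.1 ^ D.m := by positivity
    unfold fr
    calc |(D.α i : ℝ) * p.2 + D.γ i * p.1 ^ D.m|
        ≤ |(D.α i : ℝ) * p.2| + |(D.γ i : ℝ) * p.1 ^ D.m| := abs_add_le _ _
      _ = |(D.α i : ℝ)| * |p.2| + |(D.γ i : ℝ)| * p.1 ^ D.m := by
          rw [abs_mul, abs_mul, abs_of_nonneg h0]
      _ ≤ |(D.α i : ℝ)| * Hr D p + |(D.γ i : ℝ)| * Hr D p := by gcongr
      _ = (|(D.α i : ℝ)| + |(D.γ i : ℝ)|) * Hr D p := by ring
      _ ≤ _ := by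
          gcongr
          exact cf_ge i
  have hprod : |∏ i, fr D i p| ≤ (Cf D * Hr D p) ^ D.q := by
    rw [abs_prod]
    calc ∏ i, |fr D i p| ≤ ∏ _i : Fin D.q, (Cf D * Hr D p) :=
          prod_le_prod (fun i _ => abs_nonneg _) (fun i _ => hf i)
      _ = _ := by rw [prod_const, card_univ, Fintype.card_fin]
  unfold Gr Dat.d
  rw [abs_mul, abs_pow, abs_of_nonneg h, mul_pow, ← pow_mul, mul_comm D.j D.m, pow_mul]
  calc (p.1 ^ D.m) ^ D.j * |∏ i, fr D i p| ^ D.m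
      ≤ Hr D p ^ D.j * ((Cf D * Hr D p) ^ D.q) ^ D.m := by gcongr
    _ = _ := by
        rw [← pow_mul, mul_pow, pow_add]
        ring

theorem gg_small : ∃ τ₀ : ℝ, 0 < τ₀ ∧ ∀ τ : ℝ, 0 < τ → τ < τ₀ → GG D S τ = 0 := by
  have hC := cf_one (D := D)
  have hd := D.d_pos
  have hC1 : 1 ≤ Cf D ^ (D.q * D.m) := one_le_pow₀ hC
  refine ⟨1 / Cf D ^ (D.q * D.m), by positivity, fun τ hτ hτ' => ?_⟩
  have hτ1 : τ < 1 := hτ'.trans_le (by rw [div_le_one (by positivity)]; exact hC1)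
  have hτd : τ ^ D.d * Cf D ^ (D.q * D.m) < 1 := by
    have h1 : τ ^ D.d ≤ τ := pow_le_of_le_one hτ.le hτ1.le (by omega)
    rw [lt_div_iff₀ (by positivity)] at hτ'
    have : 0 < Cf D ^ (D.q * D.m) := by positivity
    nlinarith
  unfold GG
  rw [← tsum_zero (β := ℕ)]
  refine tsum_congr (fun w => ?_)
  rcases Nat.eq_zero_or_pos w with h0 | h0
  · rw [h0, rho_zero, zero_mul]
  · have hw1 : (1 : ℝ) ≤ w := by exact_mod_cast h0
    have hsub : Rl D τ w ⊆ {p : ℝ × ℝ | p.2 = 0} := by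
      rintro p ⟨h1, h2, h3⟩
      have h4 := gr_bound D h1
      have hH := hr_nonneg D p
      have h5 : |p.2| ≤ Hr D p := le_max_right _ _
      have h6 : Hr D p ^ D.d ≤ (τ ^ D.d * Cf D ^ (D.q * D.m)) * Hr D p ^ D.d := by
        calc Hr D p ^ D.d = 1 * Hr D p ^ D.d := (one_mul _).symm
          _ ≤ (w : ℝ) ^ D.m * Hr D p ^ D.d := by
              gcongr
              exact one_le_pow₀ hw1
          _ ≤ τ ^ D.d * |Gr D p| ^ D.m := h3
          _ ≤ τ ^ D.d * (Cf D ^ (D.q * D.m) * Hr D p ^ D.d) := by gcongr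
          _ = _ := by ring
      have h7 : Hr D p = 0 := by
        by_contra hne
        have h8 : 0 < Hr D p := lt_of_le_of_ne hH (Ne.symm hne)
        have h9 : 0 < Hr D p ^ D.d := by positivity
        nlinarith
      rw [h7] at h5
      exact abs_nonpos_iff.1 h5
    have h0 : volume {p : ℝ × ℝ | p.2 = 0} = 0 := by
      refine null_rows _ (isClosed_eq continuous_snd continuous_const).measurableSet (fun s _ => ?_)
      exact (Set.finite_singleton (0 : ℝ)).subset (fun t ht => ht)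
    rw [measure_mono_null hsub h0]
    simp

theorem gg_lim : Tendsto (GG D S) atTop (𝓝 (cc D S)) := by
  have hd := D.d_pos
  have key : Tendsto (fun τ : ℝ => GG D S (max τ 0)) atTop (𝓝 (cc D S)) := by
    unfold GG cc
    refine tendsto_tsum_of_dominated_convergence (sum_rinf D S) (fun w => ?_) ?_
    · have hmono : Monotone (fun τ : ℝ => Rl D (max τ 0) w) := by
        intro τ τ' h
        exact rl_mono D (le_max_right _ _) (max_le_max h le_rfl) w
      have h1 := tendsto_measure_iUnion_atTop (μ := (volume : Measure (ℝ × ℝ))) hmono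
      have h2 : volume (⋃ τ : ℝ, Rl D (max τ 0) w) = volume (Rinf D w) := by
        refine le_antisymm (measure_mono (Set.iUnion_subset (fun τ => rl_sub D _ w))) ?_
        have h3 : Rinf D w ⊆ (⋃ τ : ℝ, Rl D (max τ 0) w) ∪ {p : ℝ × ℝ | |Gr D p| = 0} := by
          intro p hp
          by_cases h4 : |Gr D p| = 0
          · exact Or.inr h4
          · left
            have h5 : 0 < |Gr D p| := lt_of_le_of_ne (abs_nonneg _) (Ne.symm h4)
            rw [Set.mem_iUnion]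
            have hH := hr_nonneg D p
            set M : ℝ := (w : ℝ) ^ D.m * Hr D p ^ D.d / |Gr D p| ^ D.m with hM
            have hM0 : 0 ≤ M := by positivity
            refine ⟨max M 1, hp.1, hp.2, ?_⟩
            have h6 : 0 < |Gr D p| ^ D.m := by positivity
            have h7 : M ≤ (max (max M 1) 0) ^ D.d := by
              have h8 : (1 : ℝ) ≤ max (max M 1) 0 := (le_max_right M 1).trans (le_max_left _ _)
              calc M ≤ max (max M 1) 0 := (le_max_left M 1).trans (le_max_left _ _)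
                _ ≤ _ := le_self_pow₀ h8 (by omega)
            calc (w : ℝ) ^ D.m * Hr D p ^ D.d = M * |Gr D p| ^ D.m := by
                  rw [hM]
                  field_simp
              _ ≤ _ := by gcongr
        refine (measure_mono h3).trans ((measure_union_le _ _).trans (le_of_eq ?_))
        rw [null_a D 0, add_zero]
      rw [h2] at h1
      exact ((ENNReal.tendsto_toReal (rinf_fin' D w)).comp h1).const_mul _
    · refine Eventually.of_forall (fun τ w => ?_)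
      rw [Real.norm_of_nonneg (gg_nonneg D S _ w)]
      exact gg_le D S _ w
  refine key.congr' ?_
  filter_upwards [eventually_ge_atTop 0] with τ hτ
  rw [max_eq_left hτ]

/-- the set of the law -/
def Lw (τ T : ℝ) : Set (ℤ × ℤ) := {p | D.Ok p ∧ (RS D S p : ℝ) ≤ T ^ D.d ∧
  (Ht D p : ℝ) ^ D.d ≤ τ ^ D.d * (RS D S p : ℝ) ^ D.m}

theorem lw_eq {τ T : ℝ} (hτ : 0 < τ) (hT : 0 < T) :
    Lw D S τ T = Pt (Fn D S (fun w => Rb D (max 1 τ) τ w)) T (T ^ D.m) := by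
  have hm := D.hm
  have hd := D.d_pos
  ext p
  rw [mem_rb hT]
  constructor
  · rintro ⟨h1, h2, h3⟩
    refine ⟨h1, ?_, h2, h3⟩
    have hH0 : (0 : ℝ) ≤ Ht D p := by exact_mod_cast ht_nonneg (D := D) p
    have h4 : (Ht D p : ℝ) ^ D.d ≤ (τ * T ^ D.m) ^ D.d := by
      calc (Ht D p : ℝ) ^ D.d ≤ τ ^ D.d * (RS D S p : ℝ) ^ D.m := h3
        _ ≤ τ ^ D.d * (T ^ D.d) ^ D.m := by gcongr
        _ = (τ * T ^ D.m) ^ D.d := by
            rw [mul_pow, ← pow_mul, ← pow_mul, mul_comm D.d D.m]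
    have h5 : (Ht D p : ℝ) ≤ τ * T ^ D.m :=
      le_of_pow_le_pow_left₀ (by omega) (by positivity) h4
    have h6 : Hr D ((p.1 : ℝ) / T, (p.2 : ℝ) / T ^ D.m) ≤ max 1 τ := by
      rw [hr_scale p hT, div_le_iff₀ (by positivity)]
      refine h5.trans ?_
      gcongr
      exact le_max_right _ _
    have hx0 : (0 : ℝ) < p.1 := by exact_mod_cast h1.x0
    have h7 : |(p.2 : ℝ) / T ^ D.m| ≤ Hr D ((p.1 : ℝ) / T, (p.2 : ℝ) / T ^ D.m) := le_max_right _ _
    have h8 : (0 : ℝ) ≤ ((p.1 : ℝ) / T, (p.2 : ℝ) / T ^ D.m).1 := by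
      simp only
      positivity
    unfold Bx
    rw [Set.mem_prod, Set.mem_Icc, Set.mem_Icc, ← abs_le]
    exact ⟨⟨h8, fst_le D h8 (le_max_left _ _) h6⟩, h7.trans h6⟩
  · rintro ⟨h1, -, h2, h3⟩
    exact ⟨h1, h2, h3⟩

/-- **The limit law.** -/
theorem law {τ : ℝ} (hτ : 0 < τ) :
    Tendsto (fun T : ℝ => ((Lw D S τ T).ncard : ℝ) / (T * T ^ D.m)) atTop (𝓝 (GG D S τ)) := by
  have hK : 0 < max 1 τ := lt_max_of_lt_left one_pos
  obtain ⟨L, h1, h2⟩ := lim_sum D S (max 1 τ) hK (fun w => Rb D (max 1 τ) τ w)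
    (fun w => rb_nice D _ τ w hτ.ne') (fun w => rb_sub D _ τ w)
  have h3 : GG D S τ = L := by
    rw [← h2.tsum_eq]
    unfold GG
    refine tsum_congr (fun w => ?_)
    rcases Nat.eq_zero_or_pos w with h0 | h0
    · rw [h0, rho_zero, zero_mul, zero_mul]
    · rw [rl_eq D hτ (by exact_mod_cast h0)]
  rw [h3]
  refine h1.congr' ?_
  filter_upwards [eventually_gt_atTop 0] with T hT
  unfold Nr
  rw [lw_eq D S hτ hT]

end Pool.Agent.T2h82.Ln
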