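import Pool.Agent.T2h82.Ln.Bad

/-!
# The limit of the number of the pairs in regions given by the repeated part
-/

set_option autoImplicit false

namespace Pool.Agent.T2h82.Ln

open Finset Filter Topology MeasureTheory
open Pool.Agent.T2h82 (pw)
open Pool.Agent.T2h82.As (Nice Pt pt_finite equi_per equi_ap nice_box exists_lim)
open scoped Nat

variable (D : Dat) (S : Finset ℕ)

open Classical in
/-- the region attached to a pair -/
noncomputable def Fn (Reg : ℕ → Set (ℝ × ℝ)) (x u : ℤ) : Set (ℝ × ℝ) :=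
  if D.Ok (x, u) then Reg (eS S (D.G (x, u)).natAbs) else ∅

open Classical in
/-- the truncated region -/
noncomputable def Gn (Reg : ℕ → Set (ℝ × ℝ)) (W : ℕ) (x u : ℤ) : Set (ℝ × ℝ) :=
  if Nat.Coprime (Int.gcd (D.σ * x) (W ! : ℤ)) (Int.gcd u (W ! : ℤ)) then
    Reg (eS S (Int.gcd (D.G (x, u)) (W ! : ℤ))) else ∅

theorem modEq_prod {ι : Type} (s : Finset ι) (f g : ι → ℤ) (n : ℤ)
    (h : ∀ i ∈ s, f i ≡ g i [ZMOD n]) : ∏ i ∈ s, f i ≡ ∏ i ∈ s, g i [ZMOD n] := by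
  classical
  induction s using Finset.induction_on with
  | empty => exact Int.ModEq.refl _
  | insert a s ha ih =>
    rw [prod_insert ha, prod_insert ha]
    exact (h a (mem_insert_self a s)).mul (ih (fun i hi => h i (mem_insert_of_mem hi)))

theorem gcd_congr {a b n : ℤ} (h : a ≡ b [ZMOD n]) : Int.gcd a n = Int.gcd b n := by
  obtain ⟨k, hk⟩ := h.dvd
  have : b = a + n * k := by linarith
  rw [this, Int.gcd_add_mul_left_left]

theorem G_congr {x x' u u' n : ℤ} (hx : x ≡ x' [ZMOD n]) (hu : u ≡ u' [ZMOD n]) :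
    D.G (x, u) ≡ D.G (x', u') [ZMOD n] := by
  unfold Dat.G
  refine (hx.pow _).mul (modEq_prod _ _ _ _ (fun i _ => ?_))
  unfold Dat.f
  exact (hu.mul_left _).add ((hx.pow _).mul_left _)

theorem gn_per (Reg : ℕ → Set (ℝ × ℝ)) (W : ℕ) (x u i j : ℤ) :
    Gn D S Reg W (x + (W ! : ℕ) * i) (u + (W ! : ℕ) * j) = Gn D S Reg W x u := by
  have hx : x + (W ! : ℕ) * i ≡ x [ZMOD (W ! : ℤ)] := by
    have : x + ((W ! : ℕ) : ℤ) * i ≡ x + 0 [ZMOD ((W ! : ℕ) : ℤ)] :=
      Int.ModEq.add_left _ (Int.modEq_zero_iff_dvd.2 (Dvd.intro _ rfl))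
    simpa using this
  have hu : u + (W ! : ℕ) * j ≡ u [ZMOD (W ! : ℤ)] := by
    have : u + ((W ! : ℕ) : ℤ) * j ≡ u + 0 [ZMOD ((W ! : ℕ) : ℤ)] :=
      Int.ModEq.add_left _ (Int.modEq_zero_iff_dvd.2 (Dvd.intro _ rfl))
    simpa using this
  unfold Gn
  rw [gcd_congr (hx.mul_left D.σ), gcd_congr hu, gcd_congr (G_congr D hx hu)]

/-- the size of the modulus -/
def Wof (V : ℕ) : ℕ := (D.M₀ S * V) ^ (D.q + 1)

theorem le_Wof {V : ℕ} (hV : 1 ≤ V) : D.M₀ S ≤ Wof D S V ∧ V ≤ Wof D S V := by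
  have hM := D.M₀_pos S
  have h1 : D.M₀ S * V ≤ Wof D S V := Nat.le_self_pow (by omega) _
  exact ⟨(Nat.le_mul_of_pos_right _ (by omega)).trans h1,
    (Nat.le_mul_of_pos_left _ hM).trans h1⟩

theorem fn_eq_gn (Reg : ℕ → Set (ℝ × ℝ)) {V : ℕ} (hV : 1 ≤ V) {x u : ℤ} (hx0 : 0 ≤ x)
    (h : ¬ Bad D V (x, u)) : Fn D S Reg x u = Gn D S Reg (Wof D S V) x u := by
  unfold Bad at h
  push Not at h
  obtain ⟨hx, hu, hf, h1, h4⟩ := h
  simp only at hx hu h4
  obtain ⟨w1, w2⟩ := le_Wof D S hV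
  set W := Wof D S V with hW
  have hc : IsCoprime (D.σ * x) u ↔
      Nat.Coprime (Int.gcd (D.σ * x) (W ! : ℤ)) (Int.gcd u (W ! : ℤ)) := by
    constructor
    · intro hc
      have : Nat.Coprime (D.σ * x).natAbs u.natAbs := Int.isCoprime_iff_gcd_eq_one.1 hc
      refine Nat.Coprime.coprime_dvd_left ?_ (Nat.Coprime.coprime_dvd_right ?_ this)
      · rw [Int.gcd_eq_natAbs_gcd_natAbs]
        exact Nat.gcd_dvd_left _ _
      · rw [Int.gcd_eq_natAbs_gcd_natAbs]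
        exact Nat.gcd_dvd_left _ _
    · intro hc
      rw [Int.isCoprime_iff_gcd_eq_one, Int.gcd_eq_natAbs_gcd_natAbs]
      by_contra hne
      obtain ⟨r, hr, hd⟩ := Nat.exists_prime_and_dvd hne
      have d1 : r ∣ (D.σ * x).natAbs := hd.trans (Nat.gcd_dvd_left _ _)
      have d2 : r ∣ u.natAbs := hd.trans (Nat.gcd_dvd_right _ _)
      rcases Nat.lt_or_ge W r with hlt | hle
      · have d3 : (r : ℤ) ∣ D.σ * x := Int.natCast_dvd.2 d1
        have d4 : ¬ (r : ℤ) ∣ D.σ :=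
          Dat.not_dvd_of_le D.hσ (D.sigma_le S) (by omega)
        have d5 : (r : ℤ) ∣ x := by
          rcases (Nat.prime_iff_prime_int.1 hr).dvd_or_dvd d3 with h | h
          · exact absurd h d4
          · exact h
        exact h4 r (by omega) d5 (Int.natCast_dvd.2 d2)
      · have d3 : r ∣ W ! := Nat.dvd_factorial hr.pos hle
        have d4 : r ∣ Nat.gcd (Int.gcd (D.σ * x) (W ! : ℤ)) (Int.gcd u (W ! : ℤ)) := by
          refine Nat.dvd_gcd ?_ ?_
          · rw [Int.gcd_eq_natAbs_gcd_natAbs, Int.natAbs_natCast]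
            exact Nat.dvd_gcd d1 d3
          · rw [Int.gcd_eq_natAbs_gcd_natAbs, Int.natAbs_natCast]
            exact Nat.dvd_gcd d2 d3
        rw [Nat.Coprime] at hc
        rw [hc] at d4
        exact hr.one_lt.ne' (Nat.dvd_one.1 d4)
  unfold Fn Gn
  by_cases hcc : Nat.Coprime (Int.gcd (D.σ * x) (W ! : ℤ)) (Int.gcd u (W ! : ℤ))
  · have hok : D.Ok (x, u) := ⟨lt_of_le_of_ne hx0 (Ne.symm hx), hf, hc.2 hcc⟩
    rw [if_pos hok, if_pos hcc]
    have h5 := eS_gcd (Int.natAbs_ne_zero.2 hok.G0) (sees S hV hok h1)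
    rw [Int.gcd_eq_natAbs_gcd_natAbs, Int.natAbs_natCast]
    show Reg _ = Reg (eS S (Nat.gcd _ ((Wof D S V) !)))
    unfold Wof
    rw [h5]
  · rw [if_neg hcc, if_neg]
    rintro ⟨-, -, k1⟩
    exact hcc (hc.1 k1)

/-- the box -/
def Bx (K : ℝ) : Set (ℝ × ℝ) := Set.Icc 0 K ×ˢ Set.Icc (-K) K

theorem bx_bdd (K : ℝ) : Bornology.IsBounded (Bx K) :=
  (Metric.isBounded_Icc _ _).prod (Metric.isBounded_Icc _ _)

theorem bx_nice (K : ℝ) : Nice (Bx K) :=
  ⟨measurableSet_Icc.prod measurableSet_Icc, bx_bdd K,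
    ((convex_Icc _ _).prod (convex_Icc _ _)).addHaar_frontier _⟩

/-- the exceptional pairs of the box are few -/
theorem bad_box (K : ℝ) (hK : 0 < K) (ε : ℝ) (hε : 0 < ε) : ∃ V : ℕ, 1 ≤ V ∧
    ∀ᶠ T : ℝ in atTop, ∀ P : Set (ℤ × ℤ),
      (∀ p ∈ P, ((p.1 : ℝ) / T, (p.2 : ℝ) / T ^ D.m) ∈ Bx K ∧ Bad D V p) →
      (P.ncard : ℝ) ≤ ε * (T * T ^ D.m) := by
  classical
  obtain ⟨C, hC, hbad⟩ := bad_all D K hK
  obtain ⟨E, hE1, hE2⟩ : ∃ E : ℝ, 1 ≤ E ∧ 2 * C / ε ≤ E := ⟨max 1 (2 * C / ε), le_max_left _ _,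
    le_max_right _ _⟩
  obtain ⟨V, hV⟩ := exists_nat_ge (E ^ 3)
  have hV1 : 1 ≤ V := by
    have : (1 : ℝ) ≤ V := (one_le_pow₀ hE1).trans hV
    exact_mod_cast this
  refine ⟨V, hV1, ?_⟩
  filter_upwards [eventually_ge_atTop (max 1 (2 * C / ε))] with T hT
  intro P hP
  have hT1 : 1 ≤ T := (le_max_left _ _).trans hT
  have hT2 : 2 * C / ε ≤ T := (le_max_right _ _).trans hT
  have hT0 : 0 < T := by linarith
  have hTm : 0 < T ^ D.m := by positivity
  have hfin : P.Finite :=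
    (pt_finite (fun _ _ => Bx K) _ (bx_bdd K) (fun _ _ => subset_rfl) hT0 hTm).subset
      (fun p hp => (hP p hp).1)
  rw [Set.ncard_eq_toFinset_card _ hfin]
  have h1 := hbad E V T hE1 hV hT1 hfin.toFinset (fun p hp => by
    rw [Set.Finite.mem_toFinset] at hp
    obtain ⟨⟨⟨k0, k1⟩, k2⟩, k3⟩ := hP p hp
    simp only [Set.mem_Icc] at k0 k1 k2
    refine ⟨?_, ?_, k3⟩
    · rw [div_le_iff₀ hT0] at k1
      have : 0 ≤ (p.1 : ℝ) := by
        by_contra hneg
        push Not at hneg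
        have := div_neg_of_neg_of_pos hneg hT0
        linarith
      rw [abs_of_nonneg this]
      exact k1
    · rw [← abs_le, abs_div, abs_of_pos hTm, div_le_iff₀ hTm] at k2
      exact k2)
  refine h1.trans ?_
  have h2 : C * (T ^ (D.m + 1) / E) ≤ ε / 2 * T ^ (D.m + 1) := by
    have h3 : C / E ≤ ε / 2 := by
      rw [div_le_iff₀ (by linarith)]
      rw [div_le_iff₀ hε] at hE2
      linarith
    calc C * (T ^ (D.m + 1) / E) = (C / E) * T ^ (D.m + 1) := by ring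
      _ ≤ _ := by gcongr
  have h4 : C * T ^ D.m ≤ ε / 2 * T ^ (D.m + 1) := by
    rw [div_le_iff₀ hε] at hT2
    rw [pow_succ]
    nlinarith
  calc C * (T ^ (D.m + 1) / E + T ^ D.m) = C * (T ^ (D.m + 1) / E) + C * T ^ D.m := by ring
    _ ≤ ε / 2 * T ^ (D.m + 1) + ε / 2 * T ^ (D.m + 1) := add_le_add h2 h4
    _ = _ := by ring

/-- the number of the pairs -/
noncomputable def Nr (Reg : ℕ → Set (ℝ × ℝ)) (T : ℝ) : ℝ :=
  ((Pt (Fn D S Reg) T (T ^ D.m)).ncard : ℝ) / (T * T ^ D.m)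

theorem fn_sub {Reg : ℕ → Set (ℝ × ℝ)} {B : Set (ℝ × ℝ)} (hB : ∀ w, Reg w ⊆ B) (x u : ℤ) :
    Fn D S Reg x u ⊆ B := by
  unfold Fn
  split_ifs
  · exact hB _
  · exact Set.empty_subset _

theorem gn_sub {Reg : ℕ → Set (ℝ × ℝ)} {B : Set (ℝ × ℝ)} (hB : ∀ w, Reg w ⊆ B) (W : ℕ) (x u : ℤ) :
    Gn D S Reg W x u ⊆ B := by
  unfold Gn
  split_ifs
  · exact hB _
  · exact Set.empty_subset _

theorem gn_nice {Reg : ℕ → Set (ℝ × ℝ)} (hn : ∀ w, Nice (Reg w)) (W : ℕ) (x u : ℤ) :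
    Nice (Gn D S Reg W x u) := by
  unfold Gn
  split_ifs
  · exact hn _
  · exact Pool.Agent.T2h82.As.Nice.empty

theorem tm_top : Tendsto (fun T : ℝ => T ^ D.m) atTop atTop :=
  tendsto_pow_atTop (by have := D.hm; omega)

/-- the truncated pairs approximate, with the limit of the truncated pairs -/
theorem close (K : ℝ) (hK : 0 < K) (ε : ℝ) (hε : 0 < ε) : ∃ V : ℕ, 1 ≤ V ∧
    ∀ Reg : ℕ → Set (ℝ × ℝ), (∀ w, Nice (Reg w)) → (∀ w, Reg w ⊆ Bx K) →
      ∀ᶠ T in atTop, |Nr D S Reg T - ∑ r ∈ range ((Wof D S V) !) ×ˢ range ((Wof D S V) !),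
        (volume (Gn D S Reg (Wof D S V) r.1 r.2)).toReal / (((Wof D S V) ! : ℕ) : ℝ) ^ 2| ≤ ε := by
  classical
  obtain ⟨V, hV1, hbad⟩ := bad_box D K hK (ε / 2) (by positivity)
  refine ⟨V, hV1, fun Reg hn hB => ?_⟩
  set W := Wof D S V with hW
  have hlim := equi_per (W !) (Nat.factorial_pos _) (Gn D S Reg W) (gn_nice D S hn W) (Bx K)
    (bx_bdd K) (gn_sub D S hB W) (fun x u i j => gn_per D S Reg W x u i j) (fun T => T)
    (fun T => T ^ D.m) tendsto_id (tm_top D)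
  set L := ∑ r ∈ range (W !) ×ˢ range (W !),
    (volume (Gn D S Reg W r.1 r.2)).toReal / ((W ! : ℕ) : ℝ) ^ 2
  have h2 : ∀ᶠ T : ℝ in atTop, |((Pt (Gn D S Reg W) T (T ^ D.m)).ncard : ℝ) / (T * T ^ D.m) - L| <
      ε / 2 := by
    have := (Metric.tendsto_nhds.1 hlim) (ε / 2) (by positivity)
    simpa only [Real.dist_eq] using this
  filter_upwards [h2, hbad, eventually_gt_atTop 0] with T h3 h4 h5
  have h6 : 0 < T ^ D.m := by positivity
  have hfF := pt_finite (Fn D S Reg) (Bx K) (bx_bdd K) (fn_sub D S hB) h5 h6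
  have hfG := pt_finite (Gn D S Reg W) (Bx K) (bx_bdd K) (gn_sub D S hB W) h5 h6
  have hfB : (Pt (fun _ _ => Bx K) T (T ^ D.m)).Finite :=
    pt_finite (fun _ _ => Bx K) _ (bx_bdd K) (fun _ _ => subset_rfl) h5 h6
  obtain ⟨P, hP⟩ : ∃ P : Set (ℤ × ℤ), P = {p : ℤ × ℤ | ((p.1 : ℝ) / T, (p.2 : ℝ) / T ^ D.m) ∈ Bx K ∧
    Bad D V p} := ⟨_, rfl⟩
  have hPc := h4 P (fun p hp => by rw [hP] at hp; exact hp)
  have hfD : P.Finite := hfB.subset (fun p hp => by rw [hP] at hp; exact hp.1)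
  have key : ∀ p : ℤ × ℤ, ((p.1 : ℝ) / T, (p.2 : ℝ) / T ^ D.m) ∈ Bx K → p ∉ P →
      Fn D S Reg p.1 p.2 = Gn D S Reg W p.1 p.2 := by
    intro p hp hpP
    have hb : ¬ Bad D V p := fun hb => hpP (by rw [hP]; exact ⟨hp, hb⟩)
    refine fn_eq_gn D S Reg hV1 ?_ hb
    have h7 := hp.1.1
    simp only at h7
    by_contra hneg
    push Not at hneg
    have h8 : (p.1 : ℝ) < 0 := by exact_mod_cast hneg
    have := div_neg_of_neg_of_pos h8 h5
    linarith
  have s1 : Pt (Fn D S Reg) T (T ^ D.m) ⊆ Pt (Gn D S Reg W) T (T ^ D.m) ∪ P := by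
    intro p hp
    by_cases e : p ∈ P
    · exact Or.inr e
    · left
      unfold Pt at hp ⊢
      show _ ∈ Gn D S Reg W p.1 p.2
      rw [← key p (fn_sub D S hB _ _ hp) e]
      exact hp
  have s2 : Pt (Gn D S Reg W) T (T ^ D.m) ⊆ Pt (Fn D S Reg) T (T ^ D.m) ∪ P := by
    intro p hp
    by_cases e : p ∈ P
    · exact Or.inr e
    · left
      unfold Pt at hp ⊢
      show _ ∈ Fn D S Reg p.1 p.2
      rw [key p (gn_sub D S hB W _ _ hp) e]
      exact hp
  have c1 : ((Pt (Fn D S Reg) T (T ^ D.m)).ncard : ℝ) ≤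
      (Pt (Gn D S Reg W) T (T ^ D.m)).ncard + P.ncard := by
    exact_mod_cast (Set.ncard_le_ncard s1 (hfG.union hfD)).trans (Set.ncard_union_le _ _)
  have c2 : ((Pt (Gn D S Reg W) T (T ^ D.m)).ncard : ℝ) ≤
      (Pt (Fn D S Reg) T (T ^ D.m)).ncard + P.ncard := by
    exact_mod_cast (Set.ncard_le_ncard s2 (hfF.union hfD)).trans (Set.ncard_union_le _ _)
  have hp : 0 < T * T ^ D.m := by positivity
  have d1 : |Nr D S Reg T - ((Pt (Gn D S Reg W) T (T ^ D.m)).ncard : ℝ) / (T * T ^ D.m)| ≤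
      ε / 2 := by
    unfold Nr
    rw [← sub_div, abs_div, abs_of_pos hp, div_le_iff₀ hp, abs_le]
    constructor <;> linarith
  have h3' := h3.le
  rw [abs_le] at d1 h3' ⊢
  constructor <;> linarith [d1.1, d1.2, h3'.1, h3'.2]

/-- **The limit exists.** -/
theorem lim_exists (K : ℝ) (hK : 0 < K) (Reg : ℕ → Set (ℝ × ℝ)) (hn : ∀ w, Nice (Reg w))
    (hB : ∀ w, Reg w ⊆ Bx K) : ∃ L : ℝ, Tendsto (Nr D S Reg) atTop (𝓝 L) := by
  refine exists_lim _ (fun ε hε => ?_)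
  obtain ⟨V, -, h⟩ := close D S K hK ε hε
  exact ⟨_, h Reg hn hB⟩

open Classical in
/-- the same region for all pairs with repeated part `w` -/
noncomputable def One (w : ℕ) (R : Set (ℝ × ℝ)) (w' : ℕ) : Set (ℝ × ℝ) := if w' = w then R else ∅

theorem one_nice {w : ℕ} {R : Set (ℝ × ℝ)} (hR : Nice R) (w' : ℕ) : Nice (One w R w') := by
  unfold One
  split_ifs
  · exact hR
  · exact Pool.Agent.T2h82.As.Nice.empty

theorem one_sub {w : ℕ} {R B : Set (ℝ × ℝ)} (hR : R ⊆ B) (w' : ℕ) : One w R w' ⊆ B := by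
  unfold One
  split_ifs
  · exact hR
  · exact Set.empty_subset _

theorem lim_one (w : ℕ) (R : Set (ℝ × ℝ)) (K : ℝ) (hK : 0 < K) (hR : Nice R) (hB : R ⊆ Bx K) :
    ∃ L : ℝ, Tendsto (Nr D S (One w R)) atTop (𝓝 L) :=
  lim_exists D S K hK _ (one_nice hR) (one_sub hB)

/-- the unit square -/
def Un : Set (ℝ × ℝ) := Set.Icc 0 1 ×ˢ Set.Icc 0 1

theorem un_nice : Nice Un :=
  ⟨measurableSet_Icc.prod measurableSet_Icc, (Metric.isBounded_Icc _ _).prod
    (Metric.isBounded_Icc _ _), ((convex_Icc _ _).prod (convex_Icc _ _)).addHaar_frontier _⟩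

theorem un_sub : Un ⊆ Bx 1 :=
  Set.prod_mono subset_rfl (Set.Icc_subset_Icc (by norm_num) le_rfl)

/-- the density of the pairs with repeated part `w` -/
noncomputable def ρ (w : ℕ) : ℝ :=
  Classical.choose (lim_one D S w Un 1 one_pos un_nice un_sub)

theorem ρ_spec (w : ℕ) : Tendsto (Nr D S (One w Un)) atTop (𝓝 (ρ D S w)) :=
  Classical.choose_spec (lim_one D S w Un 1 one_pos un_nice un_sub)

theorem nr_nonneg (Reg : ℕ → Set (ℝ × ℝ)) {T : ℝ} (hT : 0 ≤ T) : 0 ≤ Nr D S Reg T := by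
  unfold Nr
  positivity

theorem ρ_nonneg (w : ℕ) : 0 ≤ ρ D S w :=
  ge_of_tendsto (ρ_spec D S w) (by
    filter_upwards [eventually_ge_atTop 0] with T hT
    exact nr_nonneg D S _ hT)

/-- the product formula -/
theorem lim_mul (w : ℕ) (R : Set (ℝ × ℝ)) (K : ℝ) (hK : 0 < K) (hR : Nice R) (hB : R ⊆ Bx K) :
    Tendsto (Nr D S (One w R)) atTop (𝓝 (ρ D S w * (volume R).toReal)) := by
  classical
  obtain ⟨L, hL⟩ := lim_one D S w R K hK hR hB
  have hvU : (volume Un).toReal = 1 := by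
    unfold Un
    rw [Measure.volume_eq_prod, Measure.prod_prod, Real.volume_Icc]
    simp
  have hK' : 0 < max K 1 := lt_max_of_lt_right one_pos
  have key : ∀ ε : ℝ, 0 < ε → |L - ρ D S w * (volume R).toReal| ≤
      ε * (1 + (volume R).toReal) := by
    intro ε hε
    obtain ⟨V, -, h⟩ := close D S (max K 1) hK' ε hε
    set W := Wof D S V with hW
    set c : ℝ := ((((range (W !) ×ˢ range (W !)).filter (fun r : ℕ × ℕ =>
      Nat.Coprime (Int.gcd (D.σ * r.1) (W ! : ℤ)) (Int.gcd r.2 (W ! : ℤ)) ∧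
      eS S (Int.gcd (D.G (r.1, r.2)) (W ! : ℤ)) = w)).card : ℕ) : ℝ) / ((W ! : ℕ) : ℝ) ^ 2 with hc
    have hsum : ∀ Q : Set (ℝ × ℝ), ∑ r ∈ range (W !) ×ˢ range (W !),
        (volume (Gn D S (One w Q) W r.1 r.2)).toReal / ((W ! : ℕ) : ℝ) ^ 2 =
        c * (volume Q).toReal := by
      intro Q
      rw [hc, card_filter, Nat.cast_sum, sum_div, sum_mul]
      refine sum_congr rfl (fun r _ => ?_)
      unfold Gn One
      by_cases h1 : Nat.Coprime (Int.gcd (D.σ * r.1) (W ! : ℤ)) (Int.gcd r.2 (W ! : ℤ))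
      · by_cases h2 : eS S (Int.gcd (D.G (r.1, r.2)) (W ! : ℤ)) = w
        · rw [if_pos h1, if_pos h2, if_pos ⟨h1, h2⟩]
          push_cast
          ring
        · rw [if_pos h1, if_neg h2, if_neg (fun h => h2 h.2)]
          simp
      · rw [if_neg h1, if_neg (fun h => h1 h.1)]
        simp
    have hbx : ∀ K' : ℝ, K' ≤ max K 1 → Bx K' ⊆ Bx (max K 1) := fun K' h =>
      Set.prod_mono (Set.Icc_subset_Icc le_rfl h) (Set.Icc_subset_Icc (by linarith) h)
    have a1 : |L - c * (volume R).toReal| ≤ ε := by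
      have := h (One w R) (one_nice hR) (one_sub (hB.trans (hbx K (le_max_left _ _))))
      rw [hsum] at this
      exact le_of_tendsto ((hL.sub_const _).abs) this
    have a2 : |ρ D S w - c| ≤ ε := by
      have := h (One w Un) (one_nice un_nice) (one_sub (un_sub.trans (hbx 1 (le_max_right _ _))))
      rw [hsum, hvU, mul_one] at this
      exact le_of_tendsto (((ρ_spec D S w).sub_const _).abs) this
    have hv : 0 ≤ (volume R).toReal := ENNReal.toReal_nonneg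
    calc |L - ρ D S w * (volume R).toReal|
        = |(L - c * (volume R).toReal) - (ρ D S w - c) * (volume R).toReal| := by
          congr 1
          ring
      _ ≤ |L - c * (volume R).toReal| + |(ρ D S w - c) * (volume R).toReal| := abs_sub _ _
      _ ≤ ε + ε * (volume R).toReal := by
          rw [abs_mul, abs_of_nonneg hv]
          gcongr
      _ = _ := by ring
  have hz : |L - ρ D S w * (volume R).toReal| ≤ 0 := by
    refine le_of_forall_pos_le_add (fun η hη => ?_)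
    have hv : 0 ≤ (volume R).toReal := ENNReal.toReal_nonneg
    have h1 : 0 < 1 + (volume R).toReal := by linarith
    have h2 := key (η / (1 + (volume R).toReal)) (by positivity)
    rw [div_mul_cancel₀ _ h1.ne'] at h2
    linarith
  have : L = ρ D S w * (volume R).toReal := by
    have := abs_nonpos_iff.1 hz
    linarith
  rw [← this]
  exact hL

end Pool.Agent.T2h82.Ln
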