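import Pool.Agent.T2h82.Ln.Row
import Pool.Agent.T2h82.PowSum
import Pool.Agent.T2h82.Rankin2
import Pool.Agent.T2h82.Sq.Row

/-!
# The pairs with large height and small radical
-/

set_option autoImplicit false

namespace Pool.Agent.T2h82.Ln

open Finset
open Pool.Agent.H328R2.ABC (rad rad_pos rad_le)
open Pool.Agent.T2h82 (pw pw_pos pw_dvd gp gp_nonneg sum_gp pful_pw Pful mul_rad_eq)
open Pool.Agent.T2h82.Sq (sum_mult)

variable {D : Dat} {p : ℤ × ℤ}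

/-- the multiples of `v` up to `Z` -/
theorem card_mult (v : ℕ) (hv : 0 < v) (Z : ℝ) (hZ : 0 ≤ Z)
    (F : Finset ℤ) (h : ∀ x ∈ F, 0 < x ∧ (v : ℤ) ∣ x ∧ (x : ℝ) ≤ Z) :
    (F.card : ℝ) ≤ Z / v := by
  classical
  have hv0 : (0 : ℝ) < v := by exact_mod_cast hv
  have hvz : (0 : ℤ) < v := by exact_mod_cast hv
  have h1 : F.card ≤ (Icc (1 : ℤ) ⌊Z / v⌋).card := by
    refine card_le_card_of_injOn (fun x => x / v) ?_ ?_
    · intro x hx
      obtain ⟨h1, ⟨y, rfl⟩, h3⟩ := h x hx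
      have hy : 0 < y := by
        by_contra hcon
        push Not at hcon
        nlinarith
      simp only [coe_Icc, Set.mem_Icc]
      rw [Int.mul_ediv_cancel_left _ hvz.ne']
      refine ⟨by omega, Int.le_floor.2 ?_⟩
      rw [le_div_iff₀ hv0]
      push_cast at h3
      linarith
    · intro x hx x' hx' hxx
      obtain ⟨h1, ⟨y, rfl⟩, h3⟩ := h x hx
      obtain ⟨h1', ⟨y', rfl⟩, h3'⟩ := h x' hx'
      simp only at hxx
      rw [Int.mul_ediv_cancel_left _ hvz.ne', Int.mul_ediv_cancel_left _ hvz.ne'] at hxx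
      rw [hxx]
  have h2 : 0 ≤ ⌊Z / v⌋ := Int.floor_nonneg.2 (by positivity)
  rw [Int.card_Icc] at h1
  have h3 : ((⌊Z / v⌋ + 1 - 1).toNat : ℤ) = ⌊Z / v⌋ := by
    rw [add_sub_cancel_right]
    exact Int.toNat_of_nonneg h2
  calc (F.card : ℝ) ≤ (((⌊Z / v⌋ + 1 - 1).toNat : ℕ) : ℝ) := by exact_mod_cast h1
    _ = ((⌊Z / v⌋ : ℤ) : ℝ) := by exact_mod_cast h3
    _ ≤ Z / v := Int.floor_le _

/-- the sum over the multiples of `v` -/
theorem sum_mult' (j : ℕ) (hj : j ≤ 1) (s : ℝ) (hs0 : 0 < s) (hs1 : s < 1) (v : ℕ) (hv : 0 < v)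
    (Z : ℝ) (hZ : 0 ≤ Z)
    (F : Finset ℤ) (h : ∀ x ∈ F, 0 < x ∧ (v : ℤ) ∣ x ∧ (x : ℝ) ≤ Z) :
    ∑ x ∈ F, (x : ℝ) ^ (-(j * s)) ≤ Z ^ (1 - j * s) / (1 - s) / v := by
  have h1s : 0 < 1 - s := by linarith
  rcases Nat.eq_zero_or_pos j with h0 | h0
  · subst h0
    simp only [Nat.cast_zero, zero_mul, neg_zero, Real.rpow_zero, sum_const, nsmul_eq_mul, mul_one,
      sub_zero, Real.rpow_one]
    refine (card_mult v hv Z hZ F h).trans ?_
    have : Z ≤ Z / (1 - s) := by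
      rw [le_div_iff₀ h1s]
      nlinarith
    gcongr
  · have : j = 1 := by omega
    subst this
    simp only [Nat.cast_one, one_mul]
    exact sum_mult s hs0 hs1 v hv Z hZ F h

/-- the pairs with a small form -/
theorem rows (s : ℝ) (hs0 : 0 < s) (hs1 : s < 1) (Z A : ℝ) (hZ : 0 ≤ Z) (hA : 0 ≤ A)
    (e0 : ℕ) (he0 : 0 < e0) (e : Fin D.q → ℕ) (he : ∀ i, 0 < e i) (i₀ : Fin D.q)
    (S : Finset (ℤ × ℤ)) (h : ∀ p ∈ S, D.Ok p ∧ (p.1 : ℝ) ≤ Z ∧ (e0 : ℤ) ∣ p.1 ∧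
      (∀ i, (e i : ℤ) ∣ D.f i p) ∧ |((D.f i₀ p : ℤ) : ℝ)| ≤ A * (p.1 : ℝ) ^ (-(D.j * s))) :
    (S.card : ℝ) ≤ 2 * Bc D univ * (A * (Z ^ (1 - D.j * s) / (1 - s) / e0)) /
      ((∏ i, e i : ℕ) : ℝ) + Z := by
  classical
  set F : Finset ℤ := S.image Prod.fst with hF
  have hFm : ∀ x ∈ F, 0 < x ∧ (e0 : ℤ) ∣ x ∧ (x : ℝ) ≤ Z := by
    intro x hx
    rw [hF, mem_image] at hx
    obtain ⟨p, hp, rfl⟩ := hx
    obtain ⟨h1, h2, h3, -⟩ := h p hp
    exact ⟨h1.x0, h3, h2⟩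
  have hcard : (S.card : ℝ) = ∑ x ∈ F, ((S.filter (fun p => p.1 = x)).card : ℝ) := by
    exact_mod_cast card_eq_sum_card_fiberwise (fun p hp => mem_image_of_mem _ hp)
  have hrow : ∀ x ∈ F, ((S.filter (fun p => p.1 = x)).card : ℝ) ≤
      2 * Bc D univ * (A * (x : ℝ) ^ (-(D.j * s))) / ((∏ i, e i : ℕ) : ℝ) + 1 := by
    intro x hx
    have hx0 : (0 : ℝ) < x := by exact_mod_cast (hFm x hx).1
    have h1 : (S.filter (fun p => p.1 = x)).card =
        ((S.filter (fun p => p.1 = x)).image Prod.snd).card := by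
      rw [card_image_of_injOn]
      intro p hp p' hp' hpp
      rw [mem_coe, mem_filter] at hp hp'
      exact Prod.ext (hp.2.trans hp'.2.symm) hpp
    rw [h1]
    refine row x e he i₀ _ (by positivity) _ ?_
    intro u hu
    rw [mem_image] at hu
    obtain ⟨p, hp, rfl⟩ := hu
    rw [mem_filter] at hp
    obtain ⟨h1, h2, h3, h4, h5⟩ := h p hp.1
    have hpe : (x, p.2) = p := by rw [← hp.2]
    rw [hpe, ← hp.2]
    exact ⟨h1, h4, h5⟩
  rw [hcard]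
  have hFc : (F.card : ℝ) ≤ Z := by
    have := card_mult 1 one_pos Z hZ F (fun x hx => by
      obtain ⟨a, b, c⟩ := hFm x hx
      exact ⟨a, one_dvd _, c⟩)
    simpa using this
  have hP : (0 : ℝ) < ((∏ i, e i : ℕ) : ℝ) := by
    exact_mod_cast prod_pos (fun i _ => he i)
  calc ∑ x ∈ F, ((S.filter (fun p => p.1 = x)).card : ℝ)
      ≤ ∑ x ∈ F, (2 * Bc D univ * (A * (x : ℝ) ^ (-(D.j * s))) / ((∏ i, e i : ℕ) : ℝ) + 1) :=
        sum_le_sum hrow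
    _ = 2 * Bc D univ * (A * ∑ x ∈ F, (x : ℝ) ^ (-(D.j * s))) / ((∏ i, e i : ℕ) : ℝ) + F.card := by
        rw [sum_add_distrib, sum_const, nsmul_eq_mul, mul_one, mul_sum, mul_sum, sum_div]
    _ ≤ _ := by
        have := sum_mult' D.j D.hj s hs0 hs1 e0 he0 Z hZ F hFm
        gcongr

/-- the constant of the interpolation -/
noncomputable def C2 (D : Dat) (s : ℝ) : ℝ :=
  (1 / (2 ^ D.m * (2 * Cf D))) ^ (-(((D.q : ℝ) - 1) * s)) * Cf D ^ (1 - s)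

theorem C2_pos (s : ℝ) : 0 < C2 D s := by
  have := cf_one (D := D)
  unfold C2
  positivity

theorem interp (s : ℝ) (hs0 : 0 < s) (hs1 : s < 1) (Z Q : ℝ) (hZ : 0 < Z) (hQ : 0 < Q)
    (h : D.Ok p) (h1 : (hgt D p : ℝ) ≤ Z ^ D.m) (h2 : (Z / 2) ^ D.m < (hgt D p : ℝ))
    (h3 : (p.1 : ℝ) ^ D.j * ∏ i, |((D.f i p : ℤ) : ℝ)| ≤ Q) :
    ∃ i₀, |((D.f i₀ p : ℤ) : ℝ)| ≤
      C2 D s * Q ^ s * Z ^ ((D.m : ℝ) - D.m * D.q * s) * (p.1 : ℝ) ^ (-(D.j * s)) := by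
  have hC := cf_one (D := D)
  have hq2 := D.q2
  have hx0 : (0 : ℝ) < p.1 := by exact_mod_cast h.x0
  set c1 : ℝ := 1 / (2 ^ D.m * (2 * Cf D)) with hc1
  have hc10 : 0 < c1 := by positivity
  set y : ℝ := c1 * Z ^ D.m with hy
  have hy0 : 0 < y := by positivity
  obtain ⟨i₀, hi₀⟩ := one_small h hy0.le (by
    refine lt_of_eq_of_lt ?_ h2
    rw [hy, hc1, div_pow]
    field_simp)
  refine ⟨i₀, ?_⟩
  set F : ℝ := |((D.f i₀ p : ℤ) : ℝ)| with hF
  have hF0 : 0 < F := by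
    rw [hF]
    have := h.f0 i₀
    exact abs_pos.2 (by exact_mod_cast this)
  have hcard : (univ.erase i₀ : Finset (Fin D.q)).card = D.q - 1 := by
    rw [card_erase_of_mem (mem_univ _), card_univ, Fintype.card_fin]
  have k1 : F * y ^ (D.q - 1) ≤ ∏ i, |((D.f i p : ℤ) : ℝ)| := by
    rw [← mul_prod_erase univ (fun i => |((D.f i p : ℤ) : ℝ)|) (mem_univ i₀), ← hcard,
      ← prod_const]
    refine mul_le_mul_of_nonneg_left (prod_le_prod (fun _ _ => hy0.le) (fun k hk => ?_)) hF0.le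
    rw [mem_erase] at hk
    exact hi₀ k hk.1
  have k2 : F ≤ Q * ((p.1 : ℝ) ^ D.j * y ^ (D.q - 1))⁻¹ := by
    rw [← div_eq_mul_inv, le_div_iff₀ (by positivity)]
    calc F * ((p.1 : ℝ) ^ D.j * y ^ (D.q - 1)) = (p.1 : ℝ) ^ D.j * (F * y ^ (D.q - 1)) := by ring
      _ ≤ (p.1 : ℝ) ^ D.j * ∏ i, |((D.f i p : ℤ) : ℝ)| := by gcongr
      _ ≤ Q := h3
  have k3 : F ≤ Cf D * Z ^ D.m := f_le h i₀ h1
  have k4 : F = F ^ s * F ^ (1 - s) := by
    rw [← Real.rpow_add hF0]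
    norm_num
  have hq1 : (((D.q - 1 : ℕ) : ℕ) : ℝ) = (D.q : ℝ) - 1 := by
    rw [Nat.cast_sub (by omega)]
    norm_num
  calc F = F ^ s * F ^ (1 - s) := k4
    _ ≤ (Q * ((p.1 : ℝ) ^ D.j * y ^ (D.q - 1))⁻¹) ^ s * (Cf D * Z ^ D.m) ^ (1 - s) := by
        refine mul_le_mul (Real.rpow_le_rpow hF0.le k2 hs0.le)
          (Real.rpow_le_rpow hF0.le k3 (by linarith)) (by positivity) (by positivity)
    _ = C2 D s * Q ^ s * Z ^ ((D.m : ℝ) - D.m * D.q * s) * (p.1 : ℝ) ^ (-(D.j * s)) := by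
        have e1 : ((p.1 : ℝ) ^ D.j)⁻¹ ^ s = (p.1 : ℝ) ^ (-(D.j * s)) := by
          rw [← Real.rpow_natCast, ← Real.rpow_neg hx0.le, ← Real.rpow_mul hx0.le]
          congr 1
          ring
        have e2 : (y ^ (D.q - 1))⁻¹ ^ s = c1 ^ (-(((D.q : ℝ) - 1) * s)) *
            Z ^ (-(D.m * ((D.q : ℝ) - 1) * s)) := by
          rw [← Real.rpow_natCast y, ← Real.rpow_neg hy0.le, ← Real.rpow_mul hy0.le, hy, hq1,
            Real.mul_rpow hc10.le (by positivity), ← Real.rpow_natCast Z, ← Real.rpow_mul hZ.le]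
          congr 2
          · ring
          · ring
        have e3 : (Cf D * Z ^ D.m) ^ (1 - s) = Cf D ^ (1 - s) * Z ^ (D.m * (1 - s)) := by
          rw [Real.mul_rpow (by linarith) (by positivity), ← Real.rpow_natCast Z,
            ← Real.rpow_mul hZ.le]
        have e4 : Z ^ (-(D.m * ((D.q : ℝ) - 1) * s)) * Z ^ (D.m * (1 - s)) =
            Z ^ ((D.m : ℝ) - D.m * D.q * s) := by
          rw [← Real.rpow_add hZ]
          congr 1
          ring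
        rw [mul_inv, Real.mul_rpow hQ.le (by positivity), Real.mul_rpow (by positivity)
          (by positivity), e1, e2, e3, ← e4]
        unfold C2
        ring

/-- one type of powerful parts -/
theorem fibre (s : ℝ) (hs0 : 0 < s) (hs1 : s < 1) : ∃ C : ℝ, 0 < C ∧ ∀ Z X : ℝ, 0 < Z → 0 < X →
    ∀ τ : Option (Fin D.q) → ℕ, ∀ S : Finset (ℤ × ℤ), (∀ p ∈ S, D.Ok p ∧
      (hgt D p : ℝ) ≤ Z ^ D.m ∧ (Z / 2) ^ D.m < (hgt D p : ℝ) ∧
      (rad (D.G p).natAbs : ℝ) ≤ X ∧ ∀ o, pw (D.g o p).natAbs = τ o) →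
    (S.card : ℝ) ≤ C * (X ^ s * Z ^ ((D.m : ℝ) + 1 - D.d * s) * ∏ o, gp s (τ o)) + D.q * Z := by
  classical
  have h1s : 0 < 1 - s := by linarith
  have hRc : (0 : ℝ) < Rc D := by
    have : 0 < Rc D := Nat.pow_pos (D.M₀_pos ∅)
    exact_mod_cast this
  have hBc : (0 : ℝ) < (Bc D univ : ℝ) := by exact_mod_cast Bc_pos (D := D) univ
  have hC2 := C2_pos (D := D) s
  have hq0 : (0 : ℝ) < D.q := by
    have := D.q2
    exact_mod_cast (by omega : 0 < D.q)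
  refine ⟨D.q * (2 * Bc D univ * C2 D s * (Rc D : ℝ) ^ s / (1 - s)), by positivity, ?_⟩
  intro Z X hZ hX τ S hS
  rcases S.eq_empty_or_nonempty with h0 | ⟨p0, hp0⟩
  · rw [h0, card_empty]
    have : 0 ≤ ∏ o, gp s (τ o) := prod_nonneg (fun o _ => gp_nonneg s _)
    push_cast
    positivity
  have hτ0 : ∀ o, 0 < τ o := fun o => by
    rw [← (hS p0 hp0).2.2.2.2 o]
    exact pw_pos _
  have hτp : ∀ o, Pful (τ o) := fun o => by
    rw [← (hS p0 hp0).2.2.2.2 o]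
    exact pful_pw (Int.natAbs_ne_zero.2 ((hS p0 hp0).1.g0 o))
  have ht0 : ∀ o, (0 : ℝ) < τ o := fun o => by exact_mod_cast hτ0 o
  have hr0 : ∀ o, (0 : ℝ) < rad (τ o) := fun o => by exact_mod_cast rad_pos (τ o)
  have ht1 : ∀ o, (1 : ℝ) ≤ τ o / rad (τ o) := fun o => by
    rw [one_le_div (hr0 o)]
    exact_mod_cast rad_le (hτ0 o).ne'
  set Q : ℝ := Rc D * X * ∏ o, ((τ o : ℝ) / rad (τ o)) with hQ
  have hP0 : (0 : ℝ) < ∏ o, ((τ o : ℝ) / rad (τ o)) := prod_pos (fun o _ => by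
    have := ht0 o
    have := hr0 o
    positivity)
  have hQ0 : 0 < Q := by positivity
  have key : ∀ p ∈ S, (p.1 : ℝ) ^ D.j * ∏ i, |((D.f i p : ℤ) : ℝ)| ≤ Q := by
    intro p hp
    obtain ⟨h1, h2, h3, h4, h5⟩ := hS p hp
    have e0 : ∀ o, |((D.g o p : ℤ) : ℝ)| = rad (D.g o p).natAbs * ((τ o : ℝ) / rad (τ o)) := by
      intro o
      have a1 := mul_rad_eq (n := (D.g o p).natAbs) (Int.natAbs_ne_zero.2 (h1.g0 o))
      rw [h5 o] at a1
      have a2 : ((D.g o p).natAbs : ℝ) * rad (τ o) = rad (D.g o p).natAbs * τ o := by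
        exact_mod_cast a1
      rw [mul_div_assoc', eq_div_iff (hr0 o).ne', ← a2, Nat.cast_natAbs]
      push_cast
      rfl
    have e1 : (p.1 : ℝ) = rad p.1.natAbs * ((τ none : ℝ) / rad (τ none)) := by
      have := e0 none
      rw [Dat.g_none, abs_of_pos (by exact_mod_cast h1.x0)] at this
      exact this
    have e2 : ∏ i, |((D.f i p : ℤ) : ℝ)| = (∏ i, (rad (D.f i p).natAbs : ℝ)) *
        ∏ i, ((τ (some i) : ℝ) / rad (τ (some i))) := by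
      rw [← prod_mul_distrib]
      exact prod_congr rfl (fun i _ => e0 (some i))
    have e3 : (p.1 : ℝ) ^ D.j ≤ (rad p.1.natAbs : ℝ) ^ D.j * ((τ none : ℝ) / rad (τ none)) := by
      have a1 : ((τ none : ℝ) / rad (τ none)) ^ D.j ≤ ((τ none : ℝ) / rad (τ none)) ^ 1 :=
        pow_le_pow_right₀ (ht1 none) D.hj
      rw [pow_one] at a1
      calc (p.1 : ℝ) ^ D.j = (rad p.1.natAbs * ((τ none : ℝ) / rad (τ none))) ^ D.j := by
            rw [← e1]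
        _ = (rad p.1.natAbs : ℝ) ^ D.j * ((τ none : ℝ) / rad (τ none)) ^ D.j := mul_pow _ _ _
        _ ≤ _ := by gcongr
    have e4 : (rad p.1.natAbs : ℝ) ^ D.j * ∏ i, (rad (D.f i p).natAbs : ℝ) ≤ Rc D * X := by
      have a1 := rads_le h1
      have a2 : (rad p.1.natAbs : ℝ) ^ D.j * ∏ i, (rad (D.f i p).natAbs : ℝ) ≤
          Rc D * rad (D.G p).natAbs := by exact_mod_cast a1
      refine a2.trans ?_
      gcongr
    have t0 : 0 ≤ (τ none : ℝ) / rad (τ none) := le_trans zero_le_one (ht1 none)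
    have t1 : 0 ≤ ∏ i, ((τ (some i) : ℝ) / rad (τ (some i))) :=
      prod_nonneg (fun i _ => le_trans zero_le_one (ht1 _))
    calc (p.1 : ℝ) ^ D.j * ∏ i, |((D.f i p : ℤ) : ℝ)|
        ≤ ((rad p.1.natAbs : ℝ) ^ D.j * ((τ none : ℝ) / rad (τ none))) *
          ((∏ i, (rad (D.f i p).natAbs : ℝ)) * ∏ i, ((τ (some i) : ℝ) / rad (τ (some i)))) := by
          rw [e2]
          gcongr
      _ = ((rad p.1.natAbs : ℝ) ^ D.j * ∏ i, (rad (D.f i p).natAbs : ℝ)) *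
          (((τ none : ℝ) / rad (τ none)) * ∏ i, ((τ (some i) : ℝ) / rad (τ (some i)))) := by ring
      _ ≤ (Rc D * X) *
          (((τ none : ℝ) / rad (τ none)) * ∏ i, ((τ (some i) : ℝ) / rad (τ (some i)))) := by gcongr
      _ = Q := by
          rw [hQ, Fintype.prod_option]
  -- the choice of the small form
  have hch : ∀ p ∈ S, ∃ i₀, |((D.f i₀ p : ℤ) : ℝ)| ≤
      C2 D s * Q ^ s * Z ^ ((D.m : ℝ) - D.m * D.q * s) * (p.1 : ℝ) ^ (-(D.j * s)) := by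
    intro p hp
    obtain ⟨h1, h2, h3, h4, h5⟩ := hS p hp
    exact interp s hs0 hs1 Z Q hZ hQ0 h1 h2 h3 (key p hp)
  set A : ℝ := C2 D s * Q ^ s * Z ^ ((D.m : ℝ) - D.m * D.q * s) with hA
  have hA0 : 0 ≤ A := by positivity
  have hrow : ∀ i₀ : Fin D.q, ((S.filter (fun p => |((D.f i₀ p : ℤ) : ℝ)| ≤
      A * (p.1 : ℝ) ^ (-(D.j * s)))).card : ℝ) ≤
      2 * Bc D univ * (A * (Z ^ (1 - D.j * s) / (1 - s) / τ none)) /
      ((∏ i, τ (some i) : ℕ) : ℝ) + Z := by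
    intro i₀
    refine rows s hs0 hs1 Z A hZ.le hA0 (τ none) (hτ0 none) (fun i => τ (some i))
      (fun i => hτ0 _) i₀ _ (fun p hp => ?_)
    rw [mem_filter] at hp
    obtain ⟨hp, hp'⟩ := hp
    obtain ⟨h1, h2, h3, h4, h5⟩ := hS p hp
    refine ⟨h1, ?_, ?_, ?_, hp'⟩
    · have hx0 : (0 : ℝ) < p.1 := by exact_mod_cast h1.x0
      have a1 : (p.1 : ℝ) ^ D.m ≤ Z ^ D.m := by
        refine le_trans ?_ h2
        have : p.1 ^ D.m ≤ hgt D p := le_max_left _ _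
        exact_mod_cast this
      exact le_of_pow_le_pow_left₀ (by have := D.hm; omega) hZ.le a1
    · rw [← h5 none, Dat.g_none]
      exact Int.natCast_dvd.2 (pw_dvd (by have := h1.x0; omega))
    · intro i
      rw [← h5 (some i), Dat.g_some]
      exact Int.natCast_dvd.2 (pw_dvd (Int.natAbs_ne_zero.2 (h1.f0 i)))
  have hsub : S ⊆ univ.biUnion (fun i₀ : Fin D.q => S.filter (fun p => |((D.f i₀ p : ℤ) : ℝ)| ≤
      A * (p.1 : ℝ) ^ (-(D.j * s)))) := by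
    intro p hp
    obtain ⟨i₀, hi₀⟩ := hch p hp
    rw [mem_biUnion]
    exact ⟨i₀, mem_univ _, mem_filter.2 ⟨hp, hi₀⟩⟩
  have htot : (S.card : ℝ) ≤ D.q * (2 * Bc D univ * (A * (Z ^ (1 - D.j * s) / (1 - s) / τ none)) /
      ((∏ i, τ (some i) : ℕ) : ℝ) + Z) := by
    have h1 : (S.card : ℝ) ≤ ∑ i₀ : Fin D.q, ((S.filter (fun p => |((D.f i₀ p : ℤ) : ℝ)| ≤
      A * (p.1 : ℝ) ^ (-(D.j * s)))).card : ℝ) := by
      exact_mod_cast (card_le_card hsub).trans card_biUnion_le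
    refine h1.trans ((sum_le_sum (fun i _ => hrow i)).trans ?_)
    rw [sum_const, card_univ, Fintype.card_fin, nsmul_eq_mul]
  refine htot.trans (le_of_eq ?_)
  have e5 : Q ^ s * ((τ none : ℝ) * ((∏ i, τ (some i) : ℕ) : ℝ))⁻¹ =
      (Rc D : ℝ) ^ s * X ^ s * ∏ o, gp s (τ o) := by
    have e6 : ∏ o, gp s (τ o) = ∏ o, (((τ o : ℝ) / rad (τ o)) ^ s * (τ o : ℝ)⁻¹) := by
      refine prod_congr rfl (fun o _ => ?_)
      unfold gp
      rw [if_pos (hτp o), Real.div_rpow (ht0 o).le (hr0 o).le, Real.rpow_sub_one (ht0 o).ne',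
        Real.rpow_neg (hr0 o).le]
      field_simp
    rw [e6, prod_mul_distrib, Real.finset_prod_rpow _ _ (fun o _ => by
      have := ht0 o
      have := hr0 o
      positivity), hQ, Real.mul_rpow (by positivity) hP0.le, Real.mul_rpow hRc.le hX.le,
      prod_inv_distrib, Fintype.prod_option (fun o => (τ o : ℝ))]
    push_cast
    ring
  have e7 : Z ^ ((D.m : ℝ) - D.m * D.q * s) * Z ^ (1 - D.j * s) =
      Z ^ ((D.m : ℝ) + 1 - D.d * s) := by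
    rw [← Real.rpow_add hZ]
    congr 1
    unfold Dat.d
    push_cast
    ring
  calc D.q * (2 * Bc D univ * (A * (Z ^ (1 - D.j * s) / (1 - s) / τ none)) /
      ((∏ i, τ (some i) : ℕ) : ℝ) + Z)
      = D.q * (2 * Bc D univ * C2 D s / (1 - s)) *
        (Z ^ ((D.m : ℝ) - D.m * D.q * s) * Z ^ (1 - D.j * s)) *
        (Q ^ s * ((τ none : ℝ) * ((∏ i, τ (some i) : ℕ) : ℝ))⁻¹) + D.q * Z := by
        rw [hA, mul_inv]
        ring
    _ = _ := by
        rw [e5, e7]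
        ring

end Pool.Agent.T2h82.Ln
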