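import Pool.Agent.T2h82.Ln.Sum
import Pool.Agent.T2h82.Ln.Tail

/-!
# Some density is positive
-/

set_option autoImplicit false

namespace Pool.Agent.T2h82.Ln

open Finset Filter Topology MeasureTheory
open Pool.Agent.T2h82 (pw card_class)
open Pool.Agent.T2h82.As (Nice Pt pt_finite card_prod_le)

variable (D : Dat) (S : Finset ℕ)

theorem sum_inv_sq (V : ℕ) : ∑ r ∈ Icc 2 V, (1 : ℝ) / (r : ℝ) ^ 2 ≤ 3 / 4 := by
  have h : ∀ V : ℕ, 2 ≤ V → ∑ r ∈ Icc 2 V, (1 : ℝ) / (r : ℝ) ^ 2 ≤ 3 / 4 - 1 / V := by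
    intro V hV
    induction V, hV using Nat.le_induction with
    | base => norm_num
    | succ V hV ih =>
      rw [sum_Icc_succ_top (by omega)]
      have hV0 : (0 : ℝ) < V := by exact_mod_cast (by omega : 0 < V)
      have h1 : (1 : ℝ) / ((V + 1 : ℕ) : ℝ) ^ 2 ≤ 1 / V - 1 / ((V + 1 : ℕ) : ℝ) := by
        push_cast
        rw [div_sub_div _ _ hV0.ne' (by positivity), div_le_div_iff₀ (by positivity) (by positivity)]
        nlinarith
      linarith
  rcases Nat.lt_or_ge V 2 with hV | hV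
  · rw [Icc_eq_empty (by omega), sum_empty]
    norm_num
  · have := h V hV
    have : (0 : ℝ) ≤ 1 / V := by positivity
    linarith [h V hV]

/-- the pairs with a fixed common divisor -/
theorem card_common (s r n N : ℕ) (hr : 2 ≤ r) (F : Finset (ℤ × ℤ))
    (hF : ∀ p ∈ F, 1 ≤ p.1 ∧ p.1 ≤ n ∧ 1 ≤ p.2 ∧ p.2 ≤ N ∧ (r : ℤ) ∣ p.1 ∧ (r : ℤ) ∣ 1 + s * p.2) :
    (F.card : ℝ) ≤ (n / r : ℝ) * (N / r + 1) := by
  classical
  have hr0 : 0 < r := by omega
  have h1 : ∀ p ∈ F, p.1 ∈ F.image Prod.fst ∧ p.2 ∈ F.image Prod.snd := fun p hp =>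
    ⟨mem_image_of_mem _ hp, mem_image_of_mem _ hp⟩
  refine card_prod_le F _ _ h1 _ _ ?_ ?_
  · refine card_mult r hr0 n (Nat.cast_nonneg n) _ (fun x hx => ?_)
    rw [mem_image] at hx
    obtain ⟨p, hp, rfl⟩ := hx
    obtain ⟨a1, a2, a3, a4, a5, a6⟩ := hF p hp
    exact ⟨by omega, a5, by exact_mod_cast a2⟩
  · refine card_class _ r hr0 0 N (Nat.cast_nonneg N) (fun y hy => ?_) (fun y hy z hz => ?_)
    · rw [mem_image] at hy
      obtain ⟨p, hp, rfl⟩ := hy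
      obtain ⟨a1, a2, a3, a4, a5, a6⟩ := hF p hp
      constructor
      · have : (1 : ℝ) ≤ p.2 := by exact_mod_cast a3
        linarith
      · rw [zero_add]
        exact_mod_cast a4
    · rw [mem_image] at hy hz
      obtain ⟨p, hp, rfl⟩ := hy
      obtain ⟨p', hp', rfl⟩ := hz
      obtain ⟨a1, a2, a3, a4, a5, a6⟩ := hF p hp
      obtain ⟨b1, b2, b3, b4, b5, b6⟩ := hF p' hp'
      have h2 : (r : ℤ) ∣ s * (p.2 - p'.2) := by
        have : (s : ℤ) * (p.2 - p'.2) = (1 + s * p.2) - (1 + s * p'.2) := by ring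
        rw [this]
        exact dvd_sub a6 b6
      have h3 : IsCoprime (r : ℤ) (s : ℤ) := by
        obtain ⟨k, hk⟩ := a6
        exact ⟨k, -p.2, by linarith⟩
      exact h3.dvd_of_dvd_mul_left h2

/-- the embedding of the pairs with `u ≡ 1` modulo `σ` -/
def em (p : ℤ × ℤ) : ℤ × ℤ := (p.1, 1 + (D.σ.natAbs : ℤ) * p.2)

theorem em_inj : Function.Injective (em D) := by
  intro p p' h
  unfold em at h
  simp only [Prod.mk.injEq, add_right_inj] at h
  have hs : (D.σ.natAbs : ℤ) ≠ 0 := by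
    have := D.hσ
    omega
  exact Prod.ext h.1 (mul_left_cancel₀ hs h.2)

theorem em_ok {V : ℕ} {p : ℤ × ℤ} (h1 : 1 ≤ p.1) (hB : ¬ Bad D V (em D p))
    (hr : ∀ r : ℕ, 2 ≤ r → r ≤ V → ¬ ((r : ℤ) ∣ p.1 ∧ (r : ℤ) ∣ 1 + (D.σ.natAbs : ℤ) * p.2)) :
    D.Ok (em D p) := by
  unfold Bad at hB
  push Not at hB
  obtain ⟨b1, b2, b3, b4, b5⟩ := hB
  refine ⟨by unfold em; exact h1, b3, ?_⟩
  refine IsCoprime.mul_left ?_ ?_
  · have h2 : IsCoprime ((D.σ.natAbs : ℤ)) (em D p).2 := ⟨-p.2, 1, by unfold em; ring⟩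
    obtain ⟨a, b, hab⟩ := h2
    rcases Int.natAbs_eq D.σ with h3 | h3
    · exact ⟨a, b, by rw [h3]; exact hab⟩
    · exact ⟨-a, b, by rw [h3, neg_mul_neg]; exact hab⟩
  · rw [Int.isCoprime_iff_gcd_eq_one, Int.gcd_eq_natAbs_gcd_natAbs]
    by_contra hne
    obtain ⟨r, hr', hd⟩ := Nat.exists_prime_and_dvd hne
    have d1 : (r : ℤ) ∣ (em D p).1 := Int.natCast_dvd.2 (hd.trans (Nat.gcd_dvd_left _ _))
    have d2 : (r : ℤ) ∣ (em D p).2 := Int.natCast_dvd.2 (hd.trans (Nat.gcd_dvd_right _ _))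
    rcases Nat.lt_or_ge V r with hlt | hle
    · exact b5 r hlt d1 d2
    · exact hr r hr'.two_le hle ⟨d1, d2⟩

/-- the pairs have positive lower density -/
theorem low : ∃ K : ℝ, 0 < K ∧ ∀ᶠ n : ℕ in atTop,
    1 / 8 ≤ Nr D S (fun _ => Bx K) (n : ℝ) := by
  classical
  set s : ℕ := D.σ.natAbs with hs
  have hs1 : 1 ≤ s := by
    have := D.hσ
    omega
  set K : ℝ := s + 1 with hK
  have hK0 : 0 < K := by positivity
  obtain ⟨C, hC, hbad⟩ := bad_all D K hK0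
  obtain ⟨E, hE1, hE2⟩ : ∃ E : ℝ, 1 ≤ E ∧ 16 * C ≤ E := ⟨max 1 (16 * C), le_max_left _ _,
    le_max_right _ _⟩
  obtain ⟨V, hV⟩ := exists_nat_ge (E ^ 3)
  have hV1 : 1 ≤ V := by
    have : (1 : ℝ) ≤ V := (one_le_pow₀ hE1).trans hV
    exact_mod_cast this
  refine ⟨K, hK0, ?_⟩
  filter_upwards [eventually_ge_atTop (max 1 (32 * V)), eventually_ge_atTop ⌈32 * C⌉₊]
    with n hn1 hn2
  have hn : 1 ≤ n := (le_max_left _ _).trans hn1
  have hnV : 32 * V ≤ n := (le_max_right _ _).trans hn1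
  have hnC : 32 * C ≤ n := (Nat.le_ceil _).trans (by exact_mod_cast hn2)
  have hnr : (1 : ℝ) ≤ n := by exact_mod_cast hn
  have hn0 : (0 : ℝ) < n := by linarith
  have hm := D.hm
  set N : ℕ := n ^ D.m with hN
  have hNr : (N : ℝ) = (n : ℝ) ^ D.m := by rw [hN]; push_cast; rfl
  have hnN : (n : ℝ) ≤ N := by
    rw [hNr]
    exact le_self_pow₀ hnr (by omega)
  have hN1 : (1 : ℝ) ≤ N := hnr.trans hnN
  set P : Finset (ℤ × ℤ) := Icc (1 : ℤ) n ×ˢ Icc (1 : ℤ) N with hP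
  have hPc : (P.card : ℝ) = n * N := by
    rw [hP, card_product, Int.card_Icc, Int.card_Icc]
    push_cast
    simp
  have hPm : ∀ p ∈ P, 1 ≤ p.1 ∧ p.1 ≤ n ∧ 1 ≤ p.2 ∧ p.2 ≤ N := by
    intro p hp
    rw [hP, mem_product, mem_Icc, mem_Icc] at hp
    exact ⟨hp.1.1, hp.1.2, hp.2.1, hp.2.2⟩
  have hbox : ∀ p ∈ P, |((em D p).1 : ℝ)| ≤ K * n ∧ |((em D p).2 : ℝ)| ≤ K * (n : ℝ) ^ D.m := by
    intro p hp
    obtain ⟨a1, a2, a3, a4⟩ := hPm p hp
    have a1' : (1 : ℝ) ≤ p.1 := by exact_mod_cast a1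
    have a2' : (p.1 : ℝ) ≤ n := by exact_mod_cast a2
    have a3' : (1 : ℝ) ≤ p.2 := by exact_mod_cast a3
    have a4' : (p.2 : ℝ) ≤ N := by exact_mod_cast a4
    have hs1' : (1 : ℝ) ≤ s := by exact_mod_cast hs1
    have e0 : |(D.σ : ℝ)| = s := by
      rw [hs, Nat.cast_natAbs]
      push_cast
      rfl
    unfold em
    push_cast
    rw [← hNr, e0, hK]
    constructor
    · rw [abs_of_pos (by linarith)]
      nlinarith
    · rw [abs_of_pos (by positivity)]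
      nlinarith
  -- the bad pairs
  have b1 : ((P.filter (fun p => Bad D V (em D p))).card : ℝ) ≤
      C * ((n : ℝ) ^ (D.m + 1) / E + (n : ℝ) ^ D.m) := by
    rw [← card_image_of_injective _ (em_inj D)]
    refine hbad E V n hE1 hV hnr _ (fun p hp => ?_)
    rw [mem_image] at hp
    obtain ⟨p', hp', rfl⟩ := hp
    rw [mem_filter] at hp'
    exact ⟨(hbox p' hp'.1).1, (hbox p' hp'.1).2, hp'.2⟩
  have b2 : ∀ r ∈ Icc 2 V, ((P.filter (fun p => (r : ℤ) ∣ p.1 ∧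
      (r : ℤ) ∣ 1 + (s : ℤ) * p.2)).card : ℝ) ≤ (n / r : ℝ) * (N / r + 1) := by
    intro r hr
    rw [mem_Icc] at hr
    refine card_common s r n N hr.1 _ (fun p hp => ?_)
    rw [mem_filter] at hp
    obtain ⟨a1, a2, a3, a4⟩ := hPm p hp.1
    exact ⟨a1, a2, a3, a4, hp.2.1, hp.2.2⟩
  have hsub : P ⊆ P.filter (fun p => D.Ok (em D p)) ∪ (P.filter (fun p => Bad D V (em D p)) ∪
      (Icc 2 V).biUnion (fun r => P.filter (fun p => (r : ℤ) ∣ p.1 ∧
      (r : ℤ) ∣ 1 + (s : ℤ) * p.2))) := by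
    intro p hp
    by_contra hcon
    simp only [mem_union, mem_filter, mem_biUnion, mem_Icc, not_or, not_and, not_exists] at hcon
    obtain ⟨c1, c2, c3⟩ := hcon
    refine c1 hp (em_ok D (hPm p hp).1 (c2 hp) (fun r h1 h2 h3 => ?_))
    exact c3 r ⟨h1, h2⟩ hp h3.1 h3.2
  have hcount : (P.card : ℝ) ≤ (P.filter (fun p => D.Ok (em D p))).card +
      (C * ((n : ℝ) ^ (D.m + 1) / E + (n : ℝ) ^ D.m) +
        ∑ r ∈ Icc 2 V, (n / r : ℝ) * (N / r + 1)) := by
    have u := fun (X Y : Finset (ℤ × ℤ)) => (by exact_mod_cast card_union_le X Y :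
      ((X ∪ Y).card : ℝ) ≤ (X.card : ℝ) + (Y.card : ℝ))
    refine (Nat.cast_le.2 (card_le_card hsub)).trans ((u _ _).trans ?_)
    refine add_le_add le_rfl ((u _ _).trans (add_le_add b1 ?_))
    have h1 : ((((Icc 2 V).biUnion (fun r => P.filter (fun p => (r : ℤ) ∣ p.1 ∧
      (r : ℤ) ∣ 1 + (s : ℤ) * p.2))).card : ℕ) : ℝ) ≤ ∑ r ∈ Icc 2 V,
        (((P.filter (fun p => (r : ℤ) ∣ p.1 ∧ (r : ℤ) ∣ 1 + (s : ℤ) * p.2)).card : ℕ) : ℝ) := by
      exact_mod_cast card_biUnion_le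
    exact h1.trans (sum_le_sum b2)
  have hsum : ∑ r ∈ Icc 2 V, (n / r : ℝ) * (N / r + 1) ≤ 3 / 4 * (n * N) + V * n := by
    calc ∑ r ∈ Icc 2 V, (n / r : ℝ) * (N / r + 1)
        ≤ ∑ r ∈ Icc 2 V, ((n * N : ℝ) * (1 / (r : ℝ) ^ 2) + n) := by
          refine sum_le_sum (fun r hr => ?_)
          rw [mem_Icc] at hr
          have hr1 : (1 : ℝ) ≤ r := by exact_mod_cast (by omega : 1 ≤ r)
          have hr0 : (0 : ℝ) < r := by linarith
          have e1 : (n / r : ℝ) * (N / r + 1) = (n * N : ℝ) * (1 / (r : ℝ) ^ 2) + n / r := by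
            field_simp
          rw [e1]
          have : (n / r : ℝ) ≤ n := div_le_self hn0.le hr1
          linarith
      _ = (n * N : ℝ) * (∑ r ∈ Icc 2 V, 1 / (r : ℝ) ^ 2) + (Icc 2 V).card * n := by
          rw [sum_add_distrib, ← mul_sum, sum_const, nsmul_eq_mul]
      _ ≤ (n * N : ℝ) * (3 / 4) + V * n := by
          have h1 := sum_inv_sq V
          have h2 : (((Icc 2 V).card : ℕ) : ℝ) ≤ V := by
            have : (Icc 2 V).card ≤ V := by
              rw [Nat.card_Icc]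
              omega
            exact_mod_cast this
          gcongr
      _ = _ := by ring
  have hnp : (n : ℝ) ^ (D.m + 1) = n * N := by rw [hNr, pow_succ]; ring
  have hnm : (n : ℝ) ^ D.m = N := hNr.symm
  rw [hPc, hnp, hnm] at hcount
  have hx1 : C * (n * N / E) ≤ 1 / 16 * (n * N) := by
    have : C / E ≤ 1 / 16 := by
      rw [div_le_iff₀ (by linarith)]
      linarith
    calc C * (n * N / E) = (C / E) * (n * N) := by ring
      _ ≤ _ := by gcongr
  have hx2 : C * N ≤ 1 / 32 * (n * N) := by nlinarith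
  have hx3 : (V : ℝ) * n ≤ 1 / 32 * (n * N) := by
    have h32 : 32 * (V : ℝ) ≤ n := by exact_mod_cast hnV
    nlinarith
  have hok : 1 / 8 * (n * N : ℝ) ≤ (P.filter (fun p => D.Ok (em D p))).card := by
    have : C * ((n : ℝ) * N / E + N) = C * (n * N / E) + C * N := by ring
    rw [this] at hcount
    linarith
  -- comparison
  have hfin : (Pt (Fn D S (fun _ => Bx K)) (n : ℝ) ((n : ℝ) ^ D.m)).Finite :=
    pt_finite _ (Bx K) (bx_bdd K) (fn_sub D S (fun _ => subset_rfl)) hn0 (by positivity)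
  have hle : (P.filter (fun p => D.Ok (em D p))).card ≤
      (Pt (Fn D S (fun _ => Bx K)) (n : ℝ) ((n : ℝ) ^ D.m)).ncard := by
    rw [← card_image_of_injective _ (em_inj D), ← Set.ncard_coe_finset]
    refine Set.ncard_le_ncard (fun p hp => ?_) hfin
    rw [mem_coe, mem_image] at hp
    obtain ⟨p', hp', rfl⟩ := hp
    rw [mem_filter] at hp'
    rw [mem_pt]
    refine ⟨hp'.2, ?_⟩
    obtain ⟨c1, c2⟩ := hbox p' hp'.1
    have hx0 := hp'.2.x0
    have hx0' : (0 : ℝ) < (em D p').1 := by exact_mod_cast hx0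
    unfold Bx
    rw [Set.mem_prod, Set.mem_Icc, Set.mem_Icc]
    simp only
    refine ⟨⟨by positivity, ?_⟩, ?_⟩
    · rw [div_le_iff₀ hn0]
      rw [abs_of_pos hx0'] at c1
      exact c1
    · rw [← abs_le, abs_div, abs_of_pos (by positivity : (0 : ℝ) < (n : ℝ) ^ D.m),
        div_le_iff₀ (by positivity)]
      exact c2
  unfold Nr
  rw [le_div_iff₀ (by positivity), ← hNr]
  refine hok.trans ?_
  exact_mod_cast hle

/-- some density is positive -/
theorem rho_pos : ∃ w, 0 < ρ D S w := by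
  obtain ⟨K, hK, h⟩ := low D S
  obtain ⟨L, hL, hsum⟩ := lim_sum D S K hK (fun _ => Bx K) (fun _ => bx_nice K)
    (fun _ => subset_rfl)
  have hL8 : 1 / 8 ≤ L := ge_of_tendsto (hL.comp tendsto_natCast_atTop_atTop) h
  by_contra hcon
  push Not at hcon
  have h0 : (fun w => ρ D S w * (volume (Bx K)).toReal) = fun _ => 0 := by
    funext w
    have := le_antisymm (hcon w) (ρ_nonneg D S w)
    rw [this, zero_mul]
  rw [h0] at hsum
  have := hsum.unique hasSum_zero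
  linarith

end Pool.Agent.T2h82.Ln
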