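import Pool.Agent.T2h82.Ln.Pos
import Pool.Agent.T2h82.As.Vol

/-!
# The regions
-/

set_option autoImplicit false

namespace Pool.Agent.T2h82.Ln

open Finset Filter Topology MeasureTheory Polynomial
open Pool.Agent.T2h82.As (Nice Pt pt_finite null_rows vol_scale)
open Pool.Agent.T2h82.As.Nice (inter_le)

variable (D : Dat)

/-- the real form -/
noncomputable def fr (i : Fin D.q) (p : ℝ × ℝ) : ℝ := (D.α i : ℝ) * p.2 + D.γ i * p.1 ^ D.m

/-- the real product -/
noncomputable def Gr (p : ℝ × ℝ) : ℝ := p.1 ^ D.j * ∏ i, fr D i p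

/-- the real height -/
noncomputable def Hr (p : ℝ × ℝ) : ℝ := max (|(D.σ : ℝ)| * p.1 ^ D.m) |p.2|

theorem fr_cont (i : Fin D.q) : Continuous (fr D i) := by
  unfold fr
  fun_prop

theorem gr_cont : Continuous (Gr D) := by
  unfold Gr
  exact (continuous_fst.pow _).mul (continuous_finset_prod _ (fun i _ => fr_cont D i))

theorem hr_cont : Continuous (Hr D) := by
  unfold Hr
  fun_prop

/-- the region of the bounded pairs -/
def Ra (K w : ℝ) : Set (ℝ × ℝ) := Bx K ∩ {p | |Gr D p| ≤ w}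

/-- the region of the law -/
def Rb (K τ w : ℝ) : Set (ℝ × ℝ) :=
  Ra D K w ∩ {p | w ^ D.m * Hr D p ^ D.d ≤ τ ^ D.d * |Gr D p| ^ D.m}

/-- the row polynomial -/
noncomputable def Pf (s : ℝ) : ℝ[X] :=
  C (s ^ D.j) * ∏ i, (C (D.α i : ℝ) * X + C (D.γ i * s ^ D.m))

theorem pf_eval (s t : ℝ) : (Pf D s).eval t = Gr D (s, t) := by
  unfold Pf Gr fr
  simp [eval_mul, eval_prod]

theorem pf_ne {s : ℝ} (hs : s ≠ 0) : Pf D s ≠ 0 := by
  unfold Pf
  refine mul_ne_zero (C_ne_zero.2 (pow_ne_zero _ hs)) (prod_ne_zero_iff.2 (fun i _ => ?_))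
  intro h
  have h1 := congrArg (fun P => P.coeff 1) h
  simp only [coeff_add, coeff_C_mul, coeff_X_one, mul_one, coeff_C_succ, add_zero,
    coeff_zero] at h1
  exact D.hα i (by exact_mod_cast h1)

theorem poly_fin {P : ℝ[X]} (hP : P ≠ 0) (Z : Set ℝ) (h : ∀ t ∈ Z, P.eval t = 0) : Z.Finite :=
  (Polynomial.finite_setOfPred_isRoot hP).subset (fun t ht => h t ht)

theorem gr_root (i : Fin D.q) (s : ℝ) : Gr D (s, -(D.γ i * s ^ D.m) / D.α i) = 0 := by
  unfold Gr
  rw [prod_eq_zero (mem_univ i), mul_zero]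
  unfold fr
  have : (D.α i : ℝ) ≠ 0 := by exact_mod_cast D.hα i
  field_simp
  simp

/-- some `γ i` is not zero -/
theorem exists_gamma : ∃ i, D.γ i ≠ 0 := by
  have h2 := D.q2
  by_contra hcon
  push Not at hcon
  have h1 := D.hdet ⟨0, by omega⟩ ⟨1, by omega⟩ (by simp)
  rw [hcon, hcon] at h1
  simp at h1

theorem null_a (w : ℝ) : volume {p : ℝ × ℝ | |Gr D p| = w} = 0 := by
  refine null_rows _ ?_ (fun s hs => ?_)
  · exact (isClosed_eq (gr_cont D).abs continuous_const).measurableSet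
  · have hP : (Pf D s) ^ 2 - C (w ^ 2) ≠ 0 := by
      by_cases hw : w = 0
      · rw [hw]
        simp only [ne_eq, OfNat.ofNat_ne_zero, not_false_eq_true, zero_pow, map_zero, sub_zero]
        exact pow_ne_zero _ (pf_ne D hs)
      · intro h
        have h2 := D.q2
        have h1 := congrArg (fun P => P.eval (-(D.γ ⟨0, by omega⟩ * s ^ D.m) / D.α ⟨0, by omega⟩)) h
        simp only [eval_sub, eval_pow, pf_eval, gr_root, eval_C, eval_zero] at h1
        have : w ^ 2 = 0 := by linarith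
        exact hw (pow_eq_zero_iff (by norm_num) |>.1 this)
    refine poly_fin hP _ (fun t ht => ?_)
    simp only [Set.mem_ofPred_eq] at ht
    simp only [eval_sub, eval_pow, pf_eval, eval_C]
    rw [← sq_abs, ht, sub_self]

theorem null_b (τ w : ℝ) (hτ : τ ≠ 0) :
    volume {p : ℝ × ℝ | w ^ D.m * Hr D p ^ D.d = τ ^ D.d * |Gr D p| ^ D.m} = 0 := by
  have hσ : (0 : ℝ) < |(D.σ : ℝ)| := abs_pos.2 (by exact_mod_cast D.hσ)
  refine null_rows _ ?_ (fun s hs => ?_)
  · exact (isClosed_eq (((hr_cont D).pow _).const_mul _ |> fun h => h)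
      (((gr_cont D).abs.pow _).const_mul _ |> fun h => h)).measurableSet
  · set A : ℝ := (w ^ D.m * (|(D.σ : ℝ)| * s ^ D.m) ^ D.d) ^ 2 with hA
    have hP1 : C A - C ((τ ^ D.d) ^ 2) * ((Pf D s) ^ D.m) ^ 2 ≠ 0 := by
      intro h
      by_cases hw : w = 0
      · have hA0 : A = 0 := by
          rw [hA, hw, zero_pow (by have := D.hm; omega)]
          ring
        rw [hA0, map_zero, zero_sub, neg_eq_zero] at h
        refine mul_ne_zero (C_ne_zero.2 (by positivity)) (pow_ne_zero _ (pow_ne_zero _ (pf_ne D hs))) h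
      · have h2 := D.q2
        have h1 := congrArg (fun P => P.eval (-(D.γ ⟨0, by omega⟩ * s ^ D.m) / D.α ⟨0, by omega⟩)) h
        simp only [eval_sub, eval_mul, eval_pow, pf_eval, gr_root, eval_C, eval_zero] at h1
        rw [zero_pow (by have := D.hm; omega)] at h1
        have : A = 0 := by linarith
        have hA0 : A ≠ 0 := by
          rw [hA]
          refine pow_ne_zero _ (mul_ne_zero (pow_ne_zero _ hw) (pow_ne_zero _ (mul_ne_zero hσ.ne' ?_)))
          exact pow_ne_zero _ hs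
        exact hA0 this
    have hP2 : C ((w ^ D.m) ^ 2) * (X ^ D.d) ^ 2 - C ((τ ^ D.d) ^ 2) * ((Pf D s) ^ D.m) ^ 2 ≠ 0 := by
      intro h
      by_cases hw : w = 0
      · rw [hw, zero_pow (by have := D.hm; omega)] at h
        rw [zero_pow two_ne_zero, map_zero, zero_mul, zero_sub, neg_eq_zero] at h
        refine mul_ne_zero (C_ne_zero.2 (by positivity)) (pow_ne_zero _ (pow_ne_zero _ (pf_ne D hs))) h
      · obtain ⟨i, hi⟩ := exists_gamma D
        have h1 := congrArg (fun P => P.eval (-(D.γ i * s ^ D.m) / D.α i)) h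
        simp only [eval_sub, eval_mul, eval_pow, pf_eval, gr_root, eval_C, eval_zero, eval_X] at h1
        rw [zero_pow (by have := D.hm; omega)] at h1
        have h3 : (w ^ D.m) ^ 2 * ((-(D.γ i * s ^ D.m) / D.α i) ^ D.d) ^ 2 = 0 := by linarith
        have hαi : (D.α i : ℝ) ≠ 0 := by exact_mod_cast D.hα i
        have hγi : (D.γ i : ℝ) ≠ 0 := by exact_mod_cast hi
        have h4 : (-(D.γ i * s ^ D.m) / D.α i : ℝ) ≠ 0 :=
          div_ne_zero (neg_ne_zero.2 (mul_ne_zero hγi (pow_ne_zero _ hs))) hαi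
        exact mul_ne_zero (pow_ne_zero _ (pow_ne_zero _ hw)) (pow_ne_zero _ (pow_ne_zero _ h4)) h3
    have hf1 : {t : ℝ | (C A - C ((τ ^ D.d) ^ 2) * ((Pf D s) ^ D.m) ^ 2).eval t = 0}.Finite :=
      poly_fin hP1 _ (fun t ht => ht)
    have hf2 : {t : ℝ | (C ((w ^ D.m) ^ 2) * (X ^ D.d) ^ 2 -
        C ((τ ^ D.d) ^ 2) * ((Pf D s) ^ D.m) ^ 2).eval t = 0}.Finite :=
      poly_fin hP2 _ (fun t ht => ht)
    refine (hf1.union hf2).subset ?_
    intro t ht
    simp only [Set.mem_ofPred_eq] at ht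
    simp only [Set.mem_union, Set.mem_ofPred_eq, eval_sub, eval_mul, eval_pow, pf_eval, eval_C,
      eval_X]
    have ht2 : (w ^ D.m * Hr D (s, t) ^ D.d) ^ 2 = (τ ^ D.d) ^ 2 * ((Gr D (s, t)) ^ D.m) ^ 2 := by
      have e : (|Gr D (s, t)| ^ D.m) ^ 2 = (Gr D (s, t) ^ D.m) ^ 2 := by
        rw [← abs_pow, sq_abs]
      rw [ht, mul_pow, e]
    unfold Hr at ht2
    rcases le_total (|(D.σ : ℝ)| * s ^ D.m) |t| with hle | hle
    · right
      rw [max_eq_right hle] at ht2
      have e : (|t| ^ D.d) ^ 2 = (t ^ D.d) ^ 2 := by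
        rw [← abs_pow, sq_abs]
      rw [← ht2, mul_pow, e, sub_self]
    · left
      rw [max_eq_left hle] at ht2
      rw [← ht2, hA, sub_self]

theorem ra_nice (K w : ℝ) : Nice (Ra D K w) :=
  (bx_nice K).inter_le (gr_cont D).abs continuous_const (null_a D w)

theorem rb_nice (K τ w : ℝ) (hτ : τ ≠ 0) : Nice (Rb D K τ w) :=
  (ra_nice D K w).inter_le (((hr_cont D).pow _).const_mul _) (((gr_cont D).abs.pow _).const_mul _)
    (null_b D τ w hτ)

theorem ra_sub (K w : ℝ) : Ra D K w ⊆ Bx K := Set.inter_subset_left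

theorem rb_sub (K τ w : ℝ) : Rb D K τ w ⊆ Bx K := Set.inter_subset_left.trans (ra_sub D K w)

end Pool.Agent.T2h82.Ln
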