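import Pool.Agent.T2h82.Ln.Bad

/-!
# Rows, radicals and sizes
-/

set_option autoImplicit false

namespace Pool.Agent.T2h82.Ln

open Finset
open Pool.Agent.H328R2.ABC (rad rad_pos rad_le)
open Pool.Agent.T2h82 (pw pw_pos pw_dvd card_class)

variable {D : Dat} {p : ℤ × ℤ}

/-! ### divisibility -/

theorem mul_dvd_gcd {a b n : ℕ} (ha : a ∣ n) (hb : b ∣ n) : a * b ∣ Nat.gcd a b * n := by
  rw [← Nat.gcd_mul_lcm a b]
  exact mul_dvd_mul_left _ (Nat.lcm_dvd ha hb)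

theorem gcd_prod_dvd {ι : Type} (s : Finset ι) (a : ℕ) (b : ι → ℕ) :
    Nat.gcd a (∏ i ∈ s, b i) ∣ ∏ i ∈ s, Nat.gcd a (b i) := by
  classical
  induction s using Finset.induction_on with
  | empty => simp
  | insert c s hc ih =>
    rw [prod_insert hc, prod_insert hc]
    exact (Nat.gcd_mul_right_dvd_mul_gcd a (b c) _).trans (mul_dvd_mul_left _ ih)

/-- the constant of the rows -/
def Bc (D : Dat) (s : Finset (Fin D.q)) : ℕ :=
  ∏ i ∈ s, ((D.α i).natAbs * ∏ k ∈ univ.erase i, (D.δ i k).natAbs)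

theorem Bc_pos (s : Finset (Fin D.q)) : 0 < Bc D s := by
  unfold Bc
  refine prod_pos (fun i _ => Nat.mul_pos ?_ (prod_pos (fun k hk => ?_)))
  · have := D.hα i
    omega
  · rw [mem_erase] at hk
    have := D.hdet i k (Ne.symm hk.1)
    unfold Dat.δ
    omega

theorem dvd_row {x u u' : ℤ} (h : D.Ok (x, u)) (e : Fin D.q → ℕ)
    (h1 : ∀ i, (e i : ℤ) ∣ D.f i (x, u)) (h2 : ∀ i, (e i : ℤ) ∣ D.f i (x, u'))
    (s : Finset (Fin D.q)) : ∏ i ∈ s, e i ∣ Bc D s * (u - u').natAbs := by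
  classical
  have h3 : ∀ i, e i ∣ (D.α i).natAbs * (u - u').natAbs := by
    intro i
    have h4 : (e i : ℤ) ∣ D.α i * (u - u') := by
      have : D.α i * (u - u') = D.f i (x, u) - D.f i (x, u') := by
        unfold Dat.f
        ring
      rw [this]
      exact dvd_sub (h1 i) (h2 i)
    rw [← Int.natAbs_mul]
    exact Int.natCast_dvd.1 h4
  have h5 : ∀ i k, Nat.gcd (e i) (e k) ∣ (D.δ i k).natAbs := by
    intro i k
    have h6 : ((Nat.gcd (e i) (e k) : ℕ) : ℤ) ∣ D.δ i k :=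
      h.dvd_det ((Int.natCast_dvd_natCast.2 (Nat.gcd_dvd_left _ _)).trans (h1 i))
        ((Int.natCast_dvd_natCast.2 (Nat.gcd_dvd_right _ _)).trans (h1 k))
    exact Int.natCast_dvd.1 h6
  induction s using Finset.induction_on with
  | empty => simp
  | insert a s ha ih =>
    rw [prod_insert ha]
    have k1 : e a ∣ Bc D s * ((D.α a).natAbs * (u - u').natAbs) := (h3 a).mul_left _
    have k2 : ∏ i ∈ s, e i ∣ Bc D s * ((D.α a).natAbs * (u - u').natAbs) := by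
      refine ih.trans ?_
      exact mul_dvd_mul_left _ (Dvd.intro_left _ rfl)
    have k3 := mul_dvd_gcd k1 k2
    have k4 : Nat.gcd (e a) (∏ i ∈ s, e i) ∣ ∏ k ∈ univ.erase a, (D.δ a k).natAbs := by
      refine (gcd_prod_dvd s (e a) e).trans ?_
      refine (prod_dvd_prod_of_dvd _ _ (fun i _ => h5 a i)).trans ?_
      refine prod_dvd_prod_of_subset _ _ _ (fun i hi => ?_)
      rw [mem_erase]
      exact ⟨fun he => ha (he ▸ hi), mem_univ _⟩
    refine k3.trans ?_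
    unfold Bc
    rw [prod_insert ha]
    refine (mul_dvd_mul_right k4 _).trans (dvd_of_eq ?_)
    ring

/-- integers of a class in an interval, the modulus known up to a factor -/
theorem card_class' (F : Finset ℤ) (m B : ℕ) (hm : 0 < m) (hB : 0 < B) (x L : ℝ) (hL : 0 ≤ L)
    (h : ∀ y ∈ F, x ≤ (y : ℝ) ∧ (y : ℝ) ≤ x + L)
    (hc : ∀ y ∈ F, ∀ z ∈ F, m ∣ B * (y - z).natAbs) : (F.card : ℝ) ≤ L * B / m + 1 := by
  set g := Nat.gcd m B with hg
  have hg0 : 0 < g := Nat.gcd_pos_of_pos_left _ hm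
  have hgm : g ∣ m := Nat.gcd_dvd_left _ _
  have hk : 0 < m / g := Nat.div_pos (Nat.le_of_dvd hm hgm) hg0
  have h1 := card_class F (m / g) hk x L hL h (by
    intro y hy z hz
    have h2 := hc y hy z hz
    have h3 : m / g ∣ B / g * (y - z).natAbs := by
      obtain ⟨c, hc'⟩ := h2
      have hgB : g ∣ B := Nat.gcd_dvd_right _ _
      refine ⟨c, Nat.eq_of_mul_eq_mul_left hg0 ?_⟩
      calc g * (B / g * (y - z).natAbs) = (g * (B / g)) * (y - z).natAbs := by ring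
        _ = B * (y - z).natAbs := by rw [Nat.mul_div_cancel' hgB]
        _ = m * c := hc'
        _ = (g * (m / g)) * c := by rw [Nat.mul_div_cancel' hgm]
        _ = g * (m / g * c) := by ring
    have h4 : m / g ∣ (y - z).natAbs :=
      (Nat.coprime_div_gcd_div_gcd hg0).dvd_of_dvd_mul_left h3
    exact Int.natCast_dvd.2 h4)
  refine h1.trans ?_
  have hm0 : (0 : ℝ) < m := by exact_mod_cast hm
  have hk0 : (0 : ℝ) < ((m / g : ℕ) : ℝ) := by exact_mod_cast hk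
  have h5 : (m : ℝ) ≤ B * ((m / g : ℕ) : ℝ) := by
    have : m ≤ B * (m / g) := by
      calc m = g * (m / g) := (Nat.mul_div_cancel' hgm).symm
        _ ≤ B * (m / g) := Nat.mul_le_mul_right _ (Nat.gcd_le_right _ hB)
    exact_mod_cast this
  have h6 : L / ((m / g : ℕ) : ℝ) ≤ L * B / m := by
    rw [div_le_div_iff₀ hk0 hm0]
    calc L * m ≤ L * (B * ((m / g : ℕ) : ℝ)) := by gcongr
      _ = _ := by ring
  linarith

/-- the number of the `u` of a row with a small form -/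
theorem row (x : ℤ) (e : Fin D.q → ℕ) (he : ∀ i, 0 < e i) (i₀ : Fin D.q) (Y : ℝ) (hY : 0 ≤ Y)
    (F : Finset ℤ) (h : ∀ u ∈ F, D.Ok (x, u) ∧ (∀ i, (e i : ℤ) ∣ D.f i (x, u)) ∧
      |((D.f i₀ (x, u) : ℤ) : ℝ)| ≤ Y) :
    (F.card : ℝ) ≤ 2 * Bc D univ * Y / ((∏ i, e i : ℕ) : ℝ) + 1 := by
  have hα : D.α i₀ ≠ 0 := D.hα i₀
  have hα1 : (1 : ℝ) ≤ |(D.α i₀ : ℝ)| := by
    have : (1 : ℤ) ≤ |D.α i₀| := Int.one_le_abs hα
    exact_mod_cast this
  have hα0 : (D.α i₀ : ℝ) ≠ 0 := by exact_mod_cast hα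
  set c : ℝ := -(D.γ i₀ * (x : ℝ) ^ D.m) / D.α i₀ with hc
  have h1 := card_class' F (∏ i, e i) (Bc D univ) (prod_pos (fun i _ => he i)) (Bc_pos _)
    (c - Y) (2 * Y) (by positivity) (by
      intro u hu
      obtain ⟨-, -, h3⟩ := h u hu
      have h4 : |(u : ℝ) - c| ≤ Y := by
        have h5 : ((D.f i₀ (x, u) : ℤ) : ℝ) = D.α i₀ * ((u : ℝ) - c) := by
          rw [hc]
          unfold Dat.f
          push_cast
          field_simp
          ring
        rw [h5, abs_mul] at h3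
        calc |(u : ℝ) - c| = 1 * |(u : ℝ) - c| := (one_mul _).symm
          _ ≤ |(D.α i₀ : ℝ)| * |(u : ℝ) - c| := by gcongr
          _ ≤ Y := h3
      rw [abs_le] at h4
      constructor <;> linarith [h4.1, h4.2]) (by
      intro u hu u' hu'
      obtain ⟨h2, h3, -⟩ := h u hu
      obtain ⟨-, h3', -⟩ := h u' hu'
      exact dvd_row h2 e h3 h3' univ)
  refine h1.trans (le_of_eq ?_)
  ring

/-! ### radicals -/

theorem rad_dvd {n : ℕ} (hn : n ≠ 0) : rad n ∣ n := Nat.prod_primeFactors_dvd n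

theorem rad_mono {a b : ℕ} (hb : b ≠ 0) (h : a ∣ b) : rad a ∣ rad b :=
  prod_dvd_prod_of_subset _ _ _ (Nat.primeFactors_mono h hb)

theorem rad_mul_le {a b : ℕ} (ha : a ≠ 0) (hb : b ≠ 0) :
    rad a * rad b ≤ Nat.gcd a b * rad (a * b) := by
  have hab : a * b ≠ 0 := mul_ne_zero ha hb
  have h1 : Nat.gcd (rad a) (rad b) ∣ Nat.gcd a b :=
    Nat.gcd_dvd_gcd_of_dvd_left _ (rad_dvd ha) |>.trans (Nat.gcd_dvd_gcd_of_dvd_right _ (rad_dvd hb))
  have h2 : Nat.lcm (rad a) (rad b) ∣ rad (a * b) :=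
    Nat.lcm_dvd (rad_mono hab (Dvd.intro _ rfl)) (rad_mono hab (Dvd.intro_left _ rfl))
  calc rad a * rad b = Nat.gcd (rad a) (rad b) * Nat.lcm (rad a) (rad b) :=
        (Nat.gcd_mul_lcm _ _).symm
    _ ≤ Nat.gcd a b * rad (a * b) :=
        Nat.mul_le_mul (Nat.le_of_dvd (Nat.gcd_pos_of_pos_left _ (Nat.pos_of_ne_zero ha)) h1)
          (Nat.le_of_dvd (rad_pos _) h2)

/-- the product of the radicals of numbers with small common divisors -/
theorem prod_rad_le {ι : Type} [DecidableEq ι] (a : ι → ℕ) (ha : ∀ i, a i ≠ 0) (M : ℕ) (hM : 1 ≤ M)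
    (hg : ∀ i k, i ≠ k → Nat.gcd (a i) (a k) ≤ M) (s : Finset ι) :
    ∏ i ∈ s, rad (a i) ≤ M ^ (s.card * s.card) * rad (∏ i ∈ s, a i) := by
  induction s using Finset.induction_on with
  | empty => simp [rad]
  | insert c s hc ih =>
    rw [prod_insert hc, prod_insert hc, card_insert_of_notMem hc]
    have hp : ∏ i ∈ s, a i ≠ 0 := prod_ne_zero_iff.2 (fun i _ => ha i)
    have h1 : Nat.gcd (a c) (∏ i ∈ s, a i) ≤ M ^ s.card := by
      have h2 := Nat.le_of_dvd (prod_pos (fun i _ => Nat.gcd_pos_of_pos_left _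
        (Nat.pos_of_ne_zero (ha c)))) (gcd_prod_dvd s (a c) a)
      refine h2.trans ?_
      calc ∏ i ∈ s, Nat.gcd (a c) (a i) ≤ ∏ _i ∈ s, M :=
            prod_le_prod' (fun i hi => hg c i (fun he => hc (he ▸ hi)))
        _ = M ^ s.card := by rw [prod_const]
    calc rad (a c) * ∏ i ∈ s, rad (a i)
        ≤ rad (a c) * (M ^ (s.card * s.card) * rad (∏ i ∈ s, a i)) := Nat.mul_le_mul_left _ ih
      _ = M ^ (s.card * s.card) * (rad (a c) * rad (∏ i ∈ s, a i)) := by ring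
      _ ≤ M ^ (s.card * s.card) * (Nat.gcd (a c) (∏ i ∈ s, a i) * rad (a c * ∏ i ∈ s, a i)) :=
          Nat.mul_le_mul_left _ (rad_mul_le (ha c) hp)
      _ ≤ M ^ (s.card * s.card) * (M ^ s.card * rad (a c * ∏ i ∈ s, a i)) := by gcongr
      _ = M ^ (s.card * s.card + s.card) * rad (a c * ∏ i ∈ s, a i) := by rw [pow_add]; ring
      _ ≤ _ := by
          refine Nat.mul_le_mul_right _ (Nat.pow_le_pow_right hM ?_)
          nlinarith

/-- the constant for the radicals -/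
def Rc (D : Dat) : ℕ := D.M₀ ∅ ^ ((D.q + 1) * (D.q + 1))

theorem gcd_le (h : D.Ok p) {o o' : Option (Fin D.q)} (hoo : o ≠ o') :
    Nat.gcd (D.g o p).natAbs (D.g o' p).natAbs ≤ D.M₀ ∅ := by
  have key : ∀ {a : ℤ}, a ≠ 0 → a.natAbs ≤ D.M₀ ∅ → ∀ {g : ℕ}, (g : ℤ) ∣ a → g ≤ D.M₀ ∅ := by
    intro a ha hM g hg
    exact (Nat.le_of_dvd (by omega) (Int.natCast_dvd.1 hg)).trans hM
  set g := Nat.gcd (D.g o p).natAbs (D.g o' p).natAbs with hg
  have g1 : (g : ℤ) ∣ D.g o p := Int.natCast_dvd.2 (Nat.gcd_dvd_left _ _)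
  have g2 : (g : ℤ) ∣ D.g o' p := Int.natCast_dvd.2 (Nat.gcd_dvd_right _ _)
  cases o with
  | none =>
    cases o' with
    | none => exact absurd rfl hoo
    | some i => exact key (D.hα i) (D.alpha_le ∅ i) (h.dvd_alpha g1 g2)
  | some i =>
    cases o' with
    | none => exact key (D.hα i) (D.alpha_le ∅ i) (h.dvd_alpha g2 g1)
    | some k =>
      exact key (D.hdet i k (fun e => hoo (by rw [e]))) (D.delta_le ∅ i k) (h.dvd_det g1 g2)

/-- the product of the radicals -/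
theorem rads_le (h : D.Ok p) : rad (p.1.natAbs) ^ D.j * ∏ i, rad (D.f i p).natAbs ≤
    Rc D * rad (D.G p).natAbs := by
  classical
  have hM := D.M₀_pos ∅
  have h0 : ∀ o, (D.g o p).natAbs ≠ 0 := fun o => Int.natAbs_ne_zero.2 (h.g0 o)
  have hj := D.hj
  have hfabs : (∏ i, D.f i p).natAbs = ∏ i, (D.f i p).natAbs := map_prod Int.natAbsHom _ _
  rcases Nat.eq_zero_or_pos D.j with h1 | h1
  · have h2 := prod_rad_le (fun o => (D.g o p).natAbs) h0 (D.M₀ ∅) hM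
      (fun o o' hoo => gcd_le h hoo) (univ.map ⟨some, Option.some_injective _⟩)
    rw [prod_map, prod_map, card_map, card_univ, Fintype.card_fin] at h2
    have e1 : (D.G p).natAbs = ∏ i, (D.f i p).natAbs := by
      unfold Dat.G
      rw [h1, pow_zero, one_mul, hfabs]
    rw [h1, pow_zero, one_mul, e1]
    refine h2.trans (Nat.mul_le_mul_right _ ?_)
    unfold Rc
    exact Nat.pow_le_pow_right hM (Nat.mul_le_mul (by omega) (by omega))
  · have hj1 : D.j = 1 := by omega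
    have h2 := prod_rad_le (fun o => (D.g o p).natAbs) h0 (D.M₀ ∅) hM
      (fun o o' hoo => gcd_le h hoo) univ
    rw [Fintype.prod_option, Fintype.prod_option, card_univ, Fintype.card_option,
      Fintype.card_fin] at h2
    have e1 : (D.G p).natAbs = p.1.natAbs * ∏ i, (D.f i p).natAbs := by
      unfold Dat.G
      rw [hj1, pow_one, Int.natAbs_mul, hfabs]
    rw [hj1, pow_one, e1]
    exact h2

/-! ### sizes -/

/-- a bound for the coefficients -/
noncomputable def Cf (D : Dat) : ℝ := ∑ i, (|(D.α i : ℝ)| + |(D.γ i : ℝ)|)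

theorem cf_ge (i : Fin D.q) : |(D.α i : ℝ)| + |(D.γ i : ℝ)| ≤ Cf D := by
  unfold Cf
  exact single_le_sum (f := fun i => |(D.α i : ℝ)| + |(D.γ i : ℝ)|) (fun _ _ => by positivity)
    (mem_univ i)

theorem cf_one : 1 ≤ Cf D := by
  have h2 := D.q2
  have h1 := cf_ge (D := D) ⟨0, by omega⟩
  have h3 : (1 : ℤ) ≤ |D.α ⟨0, by omega⟩| := Int.one_le_abs (D.hα _)
  have h4 : (1 : ℝ) ≤ |(D.α ⟨0, by omega⟩ : ℝ)| := by exact_mod_cast h3
  have h5 : 0 ≤ |(D.γ ⟨0, by omega⟩ : ℝ)| := abs_nonneg _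
  linarith

/-- the height of a pair -/
def hgt (D : Dat) (p : ℤ × ℤ) : ℤ := max (p.1 ^ D.m) |p.2|

theorem f_le (h : D.Ok p) (i : Fin D.q) {Y : ℝ} (hY : (hgt D p : ℝ) ≤ Y) :
    |((D.f i p : ℤ) : ℝ)| ≤ Cf D * Y := by
  have hx : (0 : ℝ) ≤ (p.1 : ℝ) ^ D.m := by
    have : (0 : ℝ) < p.1 := by exact_mod_cast h.x0
    positivity
  have h1 : (p.1 : ℝ) ^ D.m ≤ Y := by
    refine le_trans ?_ hY
    have : p.1 ^ D.m ≤ hgt D p := le_max_left _ _
    exact_mod_cast this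
  have h2 : |(p.2 : ℝ)| ≤ Y := by
    refine le_trans ?_ hY
    have : |p.2| ≤ hgt D p := le_max_right _ _
    exact_mod_cast this
  have hY0 : 0 ≤ Y := (abs_nonneg _).trans h2
  unfold Dat.f
  push_cast
  calc |(D.α i : ℝ) * p.2 + D.γ i * (p.1 : ℝ) ^ D.m|
      ≤ |(D.α i : ℝ) * p.2| + |(D.γ i : ℝ) * (p.1 : ℝ) ^ D.m| := abs_add_le _ _
    _ = |(D.α i : ℝ)| * |(p.2 : ℝ)| + |(D.γ i : ℝ)| * (p.1 : ℝ) ^ D.m := by
        rw [abs_mul, abs_mul, abs_of_nonneg hx]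
    _ ≤ |(D.α i : ℝ)| * Y + |(D.γ i : ℝ)| * Y := by gcongr
    _ = (|(D.α i : ℝ)| + |(D.γ i : ℝ)|) * Y := by ring
    _ ≤ Cf D * Y := by
        gcongr
        exact cf_ge i

/-- two small forms make the height small -/
theorem two_small (h : D.Ok p) {i k : Fin D.q} (hik : i ≠ k) {y : ℝ} (hy : 0 ≤ y)
    (h1 : |((D.f i p : ℤ) : ℝ)| ≤ y) (h2 : |((D.f k p : ℤ) : ℝ)| ≤ y) :
    (hgt D p : ℝ) ≤ 2 * Cf D * y := by
  have hδ : (1 : ℤ) ≤ |D.δ i k| := Int.one_le_abs (D.hdet i k hik)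
  have hδ1 : (1 : ℝ) ≤ |(D.δ i k : ℝ)| := by exact_mod_cast hδ
  have hx : (0 : ℝ) ≤ (p.1 : ℝ) ^ D.m := by
    have : (0 : ℝ) < p.1 := by exact_mod_cast h.x0
    positivity
  have hCi := cf_ge (D := D) i
  have hCk := cf_ge (D := D) k
  have n1 := abs_nonneg (D.α i : ℝ)
  have n2 := abs_nonneg (D.α k : ℝ)
  have n3 := abs_nonneg (D.γ i : ℝ)
  have n4 := abs_nonneg (D.γ k : ℝ)
  have e1 : (D.δ i k : ℝ) * (p.1 : ℝ) ^ D.m = D.α i * (D.f k p : ℤ) - D.α k * (D.f i p : ℤ) := by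
    have := Dat.id1 (D := D) i k p
    exact_mod_cast this.symm
  have e2 : (D.δ i k : ℝ) * (p.2 : ℝ) = D.γ k * (D.f i p : ℤ) - D.γ i * (D.f k p : ℤ) := by
    have := Dat.id2 (D := D) i k p
    exact_mod_cast this.symm
  have k1 : (p.1 : ℝ) ^ D.m ≤ 2 * Cf D * y := by
    calc (p.1 : ℝ) ^ D.m = 1 * |(p.1 : ℝ) ^ D.m| := by rw [one_mul, abs_of_nonneg hx]
      _ ≤ |(D.δ i k : ℝ)| * |(p.1 : ℝ) ^ D.m| := by gcongr
      _ = |(D.α i : ℝ) * (D.f k p : ℤ) - D.α k * (D.f i p : ℤ)| := by rw [← abs_mul, e1]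
      _ ≤ |(D.α i : ℝ) * (D.f k p : ℤ)| + |(D.α k : ℝ) * (D.f i p : ℤ)| := abs_sub _ _
      _ ≤ |(D.α i : ℝ)| * y + |(D.α k : ℝ)| * y := by
          rw [abs_mul, abs_mul]
          gcongr
      _ ≤ Cf D * y + Cf D * y := by
          gcongr
          · linarith
          · linarith
      _ = _ := by ring
  have k2 : |(p.2 : ℝ)| ≤ 2 * Cf D * y := by
    calc |(p.2 : ℝ)| = 1 * |(p.2 : ℝ)| := (one_mul _).symm
      _ ≤ |(D.δ i k : ℝ)| * |(p.2 : ℝ)| := by gcongr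
      _ = |(D.γ k : ℝ) * (D.f i p : ℤ) - D.γ i * (D.f k p : ℤ)| := by rw [← abs_mul, e2]
      _ ≤ |(D.γ k : ℝ) * (D.f i p : ℤ)| + |(D.γ i : ℝ) * (D.f k p : ℤ)| := abs_sub _ _
      _ ≤ |(D.γ k : ℝ)| * y + |(D.γ i : ℝ)| * y := by
          rw [abs_mul, abs_mul]
          gcongr
      _ ≤ Cf D * y + Cf D * y := by
          gcongr
          · linarith
          · linarith
      _ = _ := by ring
  unfold hgt
  push_cast
  exact max_le k1 k2

/-- all forms but one are large -/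
theorem one_small (h : D.Ok p) {y : ℝ} (hy : 0 ≤ y) (hh : 2 * Cf D * y < hgt D p) :
    ∃ i : Fin D.q, ∀ k, k ≠ i → y ≤ |((D.f k p : ℤ) : ℝ)| := by
  by_cases hs : ∃ i : Fin D.q, |((D.f i p : ℤ) : ℝ)| ≤ y
  · obtain ⟨i, hi⟩ := hs
    refine ⟨i, fun k hk => ?_⟩
    by_contra hcon
    push Not at hcon
    have := two_small h (Ne.symm hk) hy hi hcon.le
    linarith
  · push Not at hs
    have h2 := D.q2
    exact ⟨⟨0, by omega⟩, fun k _ => (hs k).le⟩

end Pool.Agent.T2h82.Ln
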