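import Pool.Agent.T2h82.Ln.Fin

/-!
# The integral points of the stacky line
-/

set_option autoImplicit false

namespace Pool.Agent.T2h82.Ln

open Finset Filter Topology MeasureTheory

/-- the points of the boundary -/
structure Pre where
  m : ℕ
  q : ℕ
  j : ℕ
  α : Fin q → ℤ
  γ : Fin q → ℤ
  hm : 1 ≤ m
  hj : j ≤ 1
  hα : ∀ i, α i ≠ 0
  hdet : ∀ i k, i ≠ k → α i * γ k - α k * γ i ≠ 0
  hd : m + 2 ≤ q * m + j

namespace Pre

variable (P : Pre) (S : Finset ℕ)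

/-- the data of the twist by `σ` -/
def dat (σ : ℕ) : Dat where
  m := P.m
  q := P.q
  j := P.j
  α := P.α
  γ := fun i => P.γ i * (if σ = 0 then 1 else (σ : ℤ))
  σ := if σ = 0 then 1 else (σ : ℤ)
  hm := P.hm
  hj := P.hj
  hα := P.hα
  hdet := fun i k hik => by
    have h1 := P.hdet i k hik
    have h2 : (if σ = 0 then 1 else (σ : ℤ)) ≠ 0 := by
      split_ifs with h
      · exact one_ne_zero
      · exact_mod_cast h
    have : P.α i * (P.γ k * (if σ = 0 then 1 else (σ : ℤ))) -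
        P.α k * (P.γ i * (if σ = 0 then 1 else (σ : ℤ))) =
        (P.α i * P.γ k - P.α k * P.γ i) * (if σ = 0 then 1 else (σ : ℤ)) := by ring
    rw [this]
    exact mul_ne_zero h1 h2
  hσ := by
    split_ifs with h
    · exact one_ne_zero
    · exact_mod_cast h
  hd := P.hd

/-- the linear form -/
def L (i : Fin P.q) (p : ℤ × ℤ) : ℤ := P.γ i * p.1 + P.α i * p.2

/-- the integral points -/
structure Pt (p : ℤ × ℤ) : Prop where
  pos : 0 < p.1
  cop : IsCoprime p.1 p.2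
  ne : ∀ i, P.L i p ≠ 0
  dvd : ∀ r : ℕ, r.Prime → r ∉ S → P.m ∣ p.1.natAbs.factorization r

/-- the truncated counting function -/
def R (p : ℤ × ℤ) : ℕ := radS S (p.1 ^ P.j * ∏ i, P.L i p).natAbs

end Pre

/-- the height -/
def Hh (p : ℤ × ℤ) : ℤ := max |p.1| |p.2|

/-- the classes modulo the powers -/
def Sig (m : ℕ) (S : Finset ℕ) : Finset ℕ := (∏ r ∈ S, r ^ (m - 1)).divisors

theorem fac_prod (A : Finset ℕ) (hA : ∀ r ∈ A, r.Prime) (e : ℕ → ℕ) (r : ℕ) :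
    (∏ t ∈ A, t ^ e t).factorization r = if r ∈ A then e r else 0 := by
  rw [Nat.factorization_prod (fun t ht => pow_ne_zero _ (hA t ht).ne_zero), Finsupp.finsetSum_apply]
  have h1 : ∀ t ∈ A, ((t ^ e t).factorization r) = if t = r then e t else 0 := by
    intro t ht
    rw [(hA t ht).factorization_pow, Finsupp.single_apply]
  rw [sum_congr rfl h1, sum_ite_eq' A r e]

variable {m : ℕ} {S : Finset ℕ}

theorem sig_ne (hS : ∀ r ∈ S, r.Prime) : ∏ r ∈ S, r ^ (m - 1) ≠ 0 :=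
  prod_ne_zero_iff.2 (fun r hr => pow_ne_zero _ (hS r hr).ne_zero)

theorem sig_pos {σ : ℕ} (h : σ ∈ Sig m S) : 0 < σ := Nat.pos_of_mem_divisors h

theorem sig_fac (hS : ∀ r ∈ S, r.Prime) {σ : ℕ} (h : σ ∈ Sig m S) (r : ℕ) :
    σ.factorization r ≤ if r ∈ S then m - 1 else 0 := by
  unfold Sig at h
  rw [Nat.mem_divisors] at h
  have h1 := (Nat.factorization_le_iff_dvd (Nat.pos_of_mem_divisors (Nat.mem_divisors.2 h)).ne'
    h.2).2 h.1 r
  rwa [fac_prod S hS] at h1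

theorem sig_prime (hS : ∀ r ∈ S, r.Prime) {σ : ℕ} (h : σ ∈ Sig m S) {r : ℕ} (hr : r.Prime)
    (hd : r ∣ σ) : r ∈ S := by
  by_contra hcon
  have h1 := sig_fac hS h r
  rw [if_neg hcon] at h1
  have h2 := hr.factorization_pos_of_dvd (sig_pos h).ne' hd
  omega

/-- existence of the decomposition -/
theorem dec_exists (hm : 1 ≤ m) (hS : ∀ r ∈ S, r.Prime) {n : ℕ} (hn : n ≠ 0)
    (h : ∀ r : ℕ, r.Prime → r ∉ S → m ∣ n.factorization r) :
    ∃ σ ∈ Sig m S, ∃ x : ℕ, x ≠ 0 ∧ n = σ * x ^ m := by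
  have hσ0 : ∏ r ∈ S, r ^ (n.factorization r % m) ≠ 0 :=
    prod_ne_zero_iff.2 (fun r hr => pow_ne_zero _ (hS r hr).ne_zero)
  have hx0 : ∏ r ∈ n.primeFactors, r ^ (n.factorization r / m) ≠ 0 :=
    prod_ne_zero_iff.2 (fun r hr => pow_ne_zero _ (Nat.prime_of_mem_primeFactors hr).ne_zero)
  refine ⟨∏ r ∈ S, r ^ (n.factorization r % m), ?_,
    ∏ r ∈ n.primeFactors, r ^ (n.factorization r / m), hx0, ?_⟩
  · unfold Sig
    rw [Nat.mem_divisors]
    refine ⟨prod_dvd_prod_of_dvd _ _ (fun r _ => pow_dvd_pow r ?_), sig_ne hS⟩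
    have := Nat.mod_lt (n.factorization r) (show 0 < m by omega)
    omega
  · refine Nat.eq_of_factorization_eq hn (mul_ne_zero hσ0 (pow_ne_zero _ hx0)) (fun r => ?_)
    rw [Nat.factorization_mul hσ0 (pow_ne_zero _ hx0), Nat.factorization_pow, Finsupp.add_apply,
      Finsupp.smul_apply, fac_prod S hS,
      fac_prod n.primeFactors (fun r hr => Nat.prime_of_mem_primeFactors hr), smul_eq_mul]
    by_cases hr : r ∈ n.primeFactors
    · rw [if_pos hr]
      by_cases hrS : r ∈ S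
      · rw [if_pos hrS]
        exact (Nat.mod_add_div _ _).symm
      · rw [if_neg hrS, zero_add]
        exact (Nat.mul_div_cancel' (h r (Nat.prime_of_mem_primeFactors hr) hrS)).symm
    · rw [if_neg hr]
      have h0 : n.factorization r = 0 := by
        rw [← Finsupp.notMem_support_iff, Nat.support_factorization]
        exact hr
      rw [h0]
      simp

/-- uniqueness of the decomposition -/
theorem dec_unique (hm : 1 ≤ m) (hS : ∀ r ∈ S, r.Prime) {σ σ' x x' : ℕ} (h : σ ∈ Sig m S)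
    (h' : σ' ∈ Sig m S) (hx : x ≠ 0) (hx' : x' ≠ 0) (he : σ * x ^ m = σ' * x' ^ m) :
    σ = σ' ∧ x = x' := by
  have key : ∀ r, σ.factorization r = σ'.factorization r ∧ x.factorization r = x'.factorization r := by
    intro r
    have h1 : (σ * x ^ m).factorization r = (σ' * x' ^ m).factorization r := by rw [he]
    rw [Nat.factorization_mul (sig_pos h).ne' (pow_ne_zero _ hx),
      Nat.factorization_mul (sig_pos h').ne' (pow_ne_zero _ hx'), Nat.factorization_pow,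
      Nat.factorization_pow, Finsupp.add_apply, Finsupp.add_apply, Finsupp.smul_apply,
      Finsupp.smul_apply, smul_eq_mul, smul_eq_mul] at h1
    have h2 := sig_fac hS h r
    have h3 := sig_fac hS h' r
    have h4 : σ.factorization r < m := by
      split_ifs at h2 <;> omega
    have h5 : σ'.factorization r < m := by
      split_ifs at h3 <;> omega
    have h6 := congrArg (fun n => n % m) h1
    simp only [Nat.add_mul_mod_self_left] at h6
    rw [Nat.mod_eq_of_lt h4, Nat.mod_eq_of_lt h5] at h6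
    refine ⟨h6, ?_⟩
    rw [h6] at h1
    exact Nat.eq_of_mul_eq_mul_left (show 0 < m by omega) (Nat.add_left_cancel h1)
  exact ⟨Nat.eq_of_factorization_eq (sig_pos h).ne' (sig_pos h').ne' (fun r => (key r).1),
    Nat.eq_of_factorization_eq hx hx' (fun r => (key r).2)⟩

/-- the parametrization -/
def ph (m σ : ℕ) (p : ℤ × ℤ) : ℤ × ℤ := ((σ : ℤ) * p.1 ^ m, p.2)

variable (P : Pre)

theorem dat_f {σ : ℕ} (hσ : σ ≠ 0) (i : Fin P.q) (p : ℤ × ℤ) :
    (P.dat σ).f i p = P.L i (ph P.m σ p) := by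
  unfold Dat.f Pre.dat Pre.L ph
  simp only [if_neg hσ]
  ring

theorem dat_ht {σ : ℕ} (hσ : σ ≠ 0) {p : ℤ × ℤ} (h : 0 < p.1) :
    Ht (P.dat σ) p = Hh (ph P.m σ p) := by
  have h1 : 0 < p.1 ^ P.m := pow_pos h _
  unfold Ht Hh ph Pre.dat
  simp only [if_neg hσ]
  rw [abs_mul, abs_of_pos h1]

theorem radS_congr {a b : ℕ} (ha : a ≠ 0) (hb : b ≠ 0)
    (h : ∀ r : ℕ, r.Prime → r ∉ S → (r ∣ a ↔ r ∣ b)) : radS S a = radS S b := by
  unfold radS
  refine prod_congr ?_ (fun _ _ => rfl)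
  ext r
  rw [mem_filter, mem_filter, Nat.mem_primeFactors, Nat.mem_primeFactors]
  constructor
  · rintro ⟨⟨h1, h2, -⟩, h3⟩
    exact ⟨⟨h1, (h r h1 h3).1 h2, hb⟩, h3⟩
  · rintro ⟨⟨h1, h2, -⟩, h3⟩
    exact ⟨⟨h1, (h r h1 h3).2 h2, ha⟩, h3⟩

theorem dat_rs (hS : ∀ r ∈ S, r.Prime) {σ : ℕ} (hσ : σ ∈ Sig P.m S) {p : ℤ × ℤ}
    (h : (P.dat σ).Ok p) : RS (P.dat σ) S p = P.R S (ph P.m σ p) := by
  have hσ0 := (sig_pos hσ).ne'
  have hm := P.hm
  have hσz : (σ : ℤ) ≠ 0 := by exact_mod_cast hσ0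
  have hx0 := h.x0
  have hf0 : ∀ i, P.L i (ph P.m σ p) ≠ 0 := fun i => by
    rw [← dat_f P hσ0]
    exact h.f0 i
  have e1 : (P.dat σ).G p = p.1 ^ P.j * ∏ i, P.L i (ph P.m σ p) := by
    unfold Dat.G
    congr 1
    exact prod_congr rfl (fun i _ => dat_f P hσ0 i p)
  unfold RS Pre.R
  rw [e1]
  refine radS_congr (Int.natAbs_ne_zero.2 (mul_ne_zero (pow_ne_zero _ hx0.ne')
    (prod_ne_zero_iff.2 (fun i _ => hf0 i)))) (Int.natAbs_ne_zero.2 (mul_ne_zero (pow_ne_zero _ ?_)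
    (prod_ne_zero_iff.2 (fun i _ => hf0 i)))) (fun r hr hrS => ?_)
  · unfold ph
    exact mul_ne_zero hσz (pow_ne_zero _ hx0.ne')
  · rw [← Int.natCast_dvd, ← Int.natCast_dvd]
    have hrp : Prime (r : ℤ) := Nat.prime_iff_prime_int.1 hr
    have hrσ : ¬ (r : ℤ) ∣ (σ : ℤ) := fun hd =>
      hrS (sig_prime hS hσ hr (Int.natCast_dvd_natCast.1 hd))
    have hkey : (r : ℤ) ∣ p.1 ^ P.j ↔ (r : ℤ) ∣ (ph P.m σ p).1 ^ P.j := by
      unfold ph
      rcases Nat.eq_zero_or_pos P.j with hj | hj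
      · rw [hj, pow_zero, pow_zero]
      · constructor
        · intro h1
          have h2 := hrp.dvd_of_dvd_pow h1
          exact dvd_pow ((dvd_pow h2 (by omega)).mul_left _) (by omega)
        · intro h1
          have h2 := hrp.dvd_of_dvd_pow h1
          simp only at h2
          rcases hrp.dvd_or_dvd h2 with h3 | h3
          · exact absurd h3 hrσ
          · exact dvd_pow (hrp.dvd_of_dvd_pow h3) (by omega)
    rw [hrp.dvd_mul, hrp.dvd_mul, hkey]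

theorem ph_ok (hS : ∀ r ∈ S, r.Prime) {σ : ℕ} (hσ : σ ∈ Sig P.m S) {p : ℤ × ℤ}
    (h : (P.dat σ).Ok p) : P.Pt S (ph P.m σ p) := by
  have hσ0 := (sig_pos hσ).ne'
  have hσp : (0 : ℤ) < σ := by exact_mod_cast sig_pos hσ
  have hx0 := h.x0
  have hc : IsCoprime ((σ : ℤ) * p.1) p.2 := by
    have := h.cop
    unfold Pre.dat at this
    simp only [if_neg hσ0] at this
    exact this
  refine ⟨mul_pos hσp (pow_pos hx0 _), ?_, fun i => ?_, fun r hr hrS => ?_⟩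
  · unfold ph
    exact IsCoprime.mul_left hc.of_mul_left_left (hc.of_mul_left_right.pow_left)
  · rw [← dat_f P hσ0]
    exact h.f0 i
  · unfold ph
    simp only
    rw [Int.natAbs_mul, Int.natAbs_pow, Int.natAbs_natCast,
      Nat.factorization_mul hσ0 (pow_ne_zero _ (Int.natAbs_ne_zero.2 hx0.ne')),
      Nat.factorization_pow, Finsupp.add_apply, Finsupp.smul_apply, smul_eq_mul]
    have h1 := sig_fac hS hσ r
    rw [if_neg hrS] at h1
    have h2 : σ.factorization r = 0 := by omega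
    rw [h2, zero_add]
    exact Dvd.intro _ rfl

theorem ph_surj (hS : ∀ r ∈ S, r.Prime) {p : ℤ × ℤ} (h : P.Pt S p) :
    ∃ σ ∈ Sig P.m S, ∃ p', (P.dat σ).Ok p' ∧ ph P.m σ p' = p := by
  have hp0 := h.pos
  obtain ⟨σ, hσ, x, hx, he⟩ := dec_exists P.hm hS (Int.natAbs_ne_zero.2 hp0.ne') h.dvd
  have hσ0 := (sig_pos hσ).ne'
  have hσz : (σ : ℤ) ≠ 0 := by exact_mod_cast hσ0
  have he' : p.1 = (σ : ℤ) * (x : ℤ) ^ P.m := by
    have : ((p.1.natAbs : ℕ) : ℤ) = p.1 := Int.natAbs_of_nonneg hp0.le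
    rw [← this, he]
    push_cast
    rfl
  have hph : ph P.m σ ((x : ℤ), p.2) = p := by
    unfold ph
    rw [← he']
  have hcop := h.cop
  rw [he'] at hcop
  refine ⟨σ, hσ, ((x : ℤ), p.2), ⟨?_, fun i => ?_, ?_⟩, hph⟩
  · show (0 : ℤ) < (x : ℤ)
    exact_mod_cast Nat.pos_of_ne_zero hx
  · have h7 := dat_f P hσ0 i ((x : ℤ), p.2)
    rw [hph] at h7
    exact fun h8 => h.ne i (h7.symm.trans h8)
  · unfold Pre.dat
    simp only [if_neg hσ0]
    exact IsCoprime.mul_left hcop.of_mul_left_left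
      ((IsCoprime.pow_left_iff (by have := P.hm; omega)).1 hcop.of_mul_left_right)

theorem ph_inj (hS : ∀ r ∈ S, r.Prime) {σ σ' : ℕ} (hσ : σ ∈ Sig P.m S) (hσ' : σ' ∈ Sig P.m S)
    {p p' : ℤ × ℤ} (h : 0 < p.1) (h' : 0 < p'.1) (he : ph P.m σ p = ph P.m σ' p') :
    σ = σ' ∧ p = p' := by
  unfold ph at he
  simp only [Prod.mk.injEq] at he
  obtain ⟨h1, h2⟩ := he
  have h3 : σ * p.1.natAbs ^ P.m = σ' * p'.1.natAbs ^ P.m := by
    have := congrArg Int.natAbs h1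
    simpa [Int.natAbs_mul, Int.natAbs_pow] using this
  obtain ⟨h4, h5⟩ := dec_unique P.hm hS hσ hσ' (Int.natAbs_ne_zero.2 h.ne')
    (Int.natAbs_ne_zero.2 h'.ne') h3
  refine ⟨h4, Prod.ext ?_ h2⟩
  omega

/-- **The number of the integral points is a sum over the twists.** -/
theorem ncard_pts (hS : ∀ r ∈ S, r.Prime) (Q : ℕ → ℤ → Prop)
    (hfin : ∀ σ ∈ Sig P.m S, {p | (P.dat σ).Ok p ∧ Q (RS (P.dat σ) S p) (Ht (P.dat σ) p)}.Finite) :
    {p | P.Pt S p ∧ Q (P.R S p) (Hh p)}.ncard =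
      ∑ σ ∈ Sig P.m S, {p | (P.dat σ).Ok p ∧ Q (RS (P.dat σ) S p) (Ht (P.dat σ) p)}.ncard := by
  classical
  have h1 : ∀ σ ∈ Sig P.m S, ph P.m σ '' {p | (P.dat σ).Ok p ∧ Q (RS (P.dat σ) S p)
      (Ht (P.dat σ) p)} ⊆ {p | P.Pt S p ∧ Q (P.R S p) (Hh p)} := by
    rintro σ hσ p ⟨p', ⟨h2, h3⟩, rfl⟩
    refine ⟨ph_ok P hS hσ h2, ?_⟩
    rw [← dat_rs P hS hσ h2, ← dat_ht P (sig_pos hσ).ne' h2.x0]
    exact h3
  set B : ℕ → Finset (ℤ × ℤ) := fun σ => if hσ : σ ∈ Sig P.m S then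
    ((hfin σ hσ).image (ph P.m σ)).toFinset else ∅ with hB
  have hBm : ∀ σ, ∀ hσ : σ ∈ Sig P.m S, ∀ p, p ∈ B σ ↔ p ∈ ph P.m σ ''
      {p | (P.dat σ).Ok p ∧ Q (RS (P.dat σ) S p) (Ht (P.dat σ) p)} := by
    intro σ hσ p
    rw [hB]
    simp only [dif_pos hσ, Set.Finite.mem_toFinset]
  have hU : {p | P.Pt S p ∧ Q (P.R S p) (Hh p)} = (((Sig P.m S).biUnion B : Finset (ℤ × ℤ)) :
      Set (ℤ × ℤ)) := by
    ext p
    rw [mem_coe, mem_biUnion]
    constructor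
    · rintro ⟨h2, h3⟩
      obtain ⟨σ, hσ, p', h4, rfl⟩ := ph_surj P hS h2
      refine ⟨σ, hσ, (hBm σ hσ _).2 ⟨p', ⟨h4, ?_⟩, rfl⟩⟩
      rw [dat_rs P hS hσ h4, dat_ht P (sig_pos hσ).ne' h4.x0]
      exact h3
    · rintro ⟨σ, hσ, hp⟩
      exact h1 σ hσ ((hBm σ hσ p).1 hp)
  rw [hU, Set.ncard_coe_finset, card_biUnion]
  · refine sum_congr rfl (fun σ hσ => ?_)
    have h2 : B σ = ((hfin σ hσ).image (ph P.m σ)).toFinset := by
      rw [hB]
      simp only [dif_pos hσ]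
    rw [h2, ← Set.ncard_eq_toFinset_card _ ((hfin σ hσ).image (ph P.m σ))]
    refine Set.ncard_image_of_injOn (fun p hp p' hp' he => ?_)
    exact (ph_inj P hS hσ hσ hp.1.x0 hp'.1.x0 he).2
  · intro σ hσ σ' hσ' hne
    rw [Function.onFun, Finset.disjoint_left]
    intro p hp hp'
    obtain ⟨p1, ⟨h2, -⟩, h3⟩ := (hBm σ hσ p).1 hp
    obtain ⟨p2, ⟨h4, -⟩, h5⟩ := (hBm σ' hσ' p).1 hp'
    exact hne (ph_inj P hS hσ hσ' h2.x0 h4.x0 (h3.trans h5.symm)).1

end Pool.Agent.T2h82.Ln
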