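import Pool.Agent.T2h82.Ln.Lim

/-!
# The limit as a sum over the repeated parts
-/

set_option autoImplicit false

namespace Pool.Agent.T2h82.Ln

open Finset Filter Topology MeasureTheory
open Pool.Agent.T2h82 (pw)
open Pool.Agent.T2h82.As (Nice Pt pt_finite equi_per equi_ap nice_box exists_lim)
open scoped Nat

variable (D : Dat) (S : Finset ℕ)

open Classical in
/-- the regions of the repeated parts at most `N` -/
noncomputable def Upto (Reg : ℕ → Set (ℝ × ℝ)) (N w : ℕ) : Set (ℝ × ℝ) := if w ≤ N then Reg w else ∅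

theorem upto_nice {Reg : ℕ → Set (ℝ × ℝ)} (hn : ∀ w, Nice (Reg w)) (N w : ℕ) :
    Nice (Upto Reg N w) := by
  unfold Upto
  split_ifs
  · exact hn _
  · exact Pool.Agent.T2h82.As.Nice.empty

theorem upto_sub {Reg : ℕ → Set (ℝ × ℝ)} {B : Set (ℝ × ℝ)} (hB : ∀ w, Reg w ⊆ B) (N w : ℕ) :
    Upto Reg N w ⊆ B := by
  unfold Upto
  split_ifs
  · exact hB _
  · exact Set.empty_subset _

theorem mem_pt (Reg : ℕ → Set (ℝ × ℝ)) (a b : ℝ) (p : ℤ × ℤ) : p ∈ Pt (Fn D S Reg) a b ↔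
    D.Ok p ∧ ((p.1 : ℝ) / a, (p.2 : ℝ) / b) ∈ Reg (eS S (D.G p).natAbs) := by
  unfold Pt Fn
  rw [Set.mem_ofPred_eq]
  by_cases h : D.Ok p
  · rw [if_pos h]
    exact ⟨fun k => ⟨h, k⟩, fun k => k.2⟩
  · rw [if_neg h]
    exact ⟨fun k => absurd k (Set.notMem_empty _), fun k => absurd k.1 h⟩

theorem nr_upto (K : ℝ) (Reg : ℕ → Set (ℝ × ℝ))
    (hB : ∀ w, Reg w ⊆ Bx K) (N : ℕ) {T : ℝ} (hT : 0 < T) :
    Nr D S (Upto Reg N) T = ∑ w ∈ range (N + 1), Nr D S (One w (Reg w)) T := by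
  classical
  have hTm : 0 < T ^ D.m := by positivity
  unfold Nr
  rw [← sum_div]
  congr 1
  have hf : (Pt (Fn D S (Upto Reg N)) T (T ^ D.m)).Finite :=
    pt_finite _ (Bx K) (bx_bdd K) (fn_sub D S (upto_sub hB N)) hT hTm
  have hg : ∀ w, (Pt (Fn D S (One w (Reg w))) T (T ^ D.m)).Finite := fun w =>
    pt_finite _ (Bx K) (bx_bdd K) (fn_sub D S (one_sub (hB w))) hT hTm
  rw [Set.ncard_eq_toFinset_card _ hf, card_eq_sum_card_fiberwise (f := fun p => eS S (D.G p).natAbs)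
    (t := range (N + 1))]
  · push_cast
    refine sum_congr rfl (fun w hw => ?_)
    rw [Set.ncard_eq_toFinset_card _ (hg w)]
    congr 2
    ext p
    rw [mem_filter, Set.Finite.mem_toFinset, Set.Finite.mem_toFinset, mem_pt, mem_pt]
    unfold Upto One
    rw [mem_range] at hw
    constructor
    · rintro ⟨⟨h1, h2⟩, h3⟩
      rw [h3, if_pos (by omega)] at h2
      refine ⟨h1, ?_⟩
      rw [if_pos h3]
      exact h2
    · rintro ⟨h1, h2⟩
      split_ifs at h2 with h3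
      · refine ⟨⟨h1, ?_⟩, h3⟩
        rw [h3, if_pos (by omega)]
        exact h2
      · exact absurd h2 (Set.notMem_empty _)
  · intro p hp
    rw [mem_coe, Set.Finite.mem_toFinset, mem_pt] at hp
    unfold Upto at hp
    obtain ⟨-, h2⟩ := hp
    split_ifs at h2 with h3
    · rw [mem_coe, mem_range]
      exact Nat.lt_succ_of_le h3
    · exact absurd h2 (Set.notMem_empty _)

/-- few pairs have a large repeated part -/
theorem tail_w (K : ℝ) (hK : 0 < K) (ε : ℝ) (hε : 0 < ε) : ∃ N₀ : ℕ, ∀ N : ℕ, N₀ ≤ N →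
    ∀ Reg : ℕ → Set (ℝ × ℝ), (∀ w, Reg w ⊆ Bx K) →
      ∀ᶠ T in atTop, |Nr D S Reg T - Nr D S (Upto Reg N) T| ≤ ε := by
  classical
  obtain ⟨V, hV1, hbad⟩ := bad_box D K hK ε hε
  refine ⟨∏ _p ∈ range (Wof D S V + 1), (Wof D S V) ^ (Wof D S V), fun N hN Reg hB => ?_⟩
  filter_upwards [hbad, eventually_gt_atTop 0] with T h4 h5
  have h6 : 0 < T ^ D.m := by positivity
  have hf : (Pt (Fn D S Reg) T (T ^ D.m)).Finite :=
    pt_finite _ (Bx K) (bx_bdd K) (fn_sub D S hB) h5 h6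
  have hf' : (Pt (Fn D S (Upto Reg N)) T (T ^ D.m)).Finite :=
    pt_finite _ (Bx K) (bx_bdd K) (fn_sub D S (upto_sub hB N)) h5 h6
  obtain ⟨P, hP⟩ : ∃ P : Set (ℤ × ℤ), P = {p : ℤ × ℤ | ((p.1 : ℝ) / T, (p.2 : ℝ) / T ^ D.m) ∈ Bx K ∧
    Bad D V p} := ⟨_, rfl⟩
  have hPc := h4 P (fun p hp => by rw [hP] at hp; exact hp)
  have hfB : (Pt (fun _ _ => Bx K) T (T ^ D.m)).Finite :=
    pt_finite (fun _ _ => Bx K) _ (bx_bdd K) (fun _ _ => subset_rfl) h5 h6
  have hfD : P.Finite := hfB.subset (fun p hp => by rw [hP] at hp; exact hp.1)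
  have s2 : Pt (Fn D S (Upto Reg N)) T (T ^ D.m) ⊆ Pt (Fn D S Reg) T (T ^ D.m) := by
    intro p hp
    rw [mem_pt] at hp ⊢
    refine ⟨hp.1, ?_⟩
    have h2 := hp.2
    unfold Upto at h2
    split_ifs at h2
    · exact h2
    · exact absurd h2 (Set.notMem_empty _)
  have s1 : Pt (Fn D S Reg) T (T ^ D.m) ⊆ Pt (Fn D S (Upto Reg N)) T (T ^ D.m) ∪ P := by
    intro p hp
    by_cases e : p ∈ P
    · exact Or.inr e
    · left
      rw [mem_pt] at hp ⊢
      refine ⟨hp.1, ?_⟩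
      have hb : ¬ Bad D V p := fun hb => e (by rw [hP]; exact ⟨hB _ hp.2, hb⟩)
      unfold Bad at hb
      push Not at hb
      have h7 := eS_le (sees S hV1 hp.1 hb.2.2.2.1)
      unfold Upto
      rw [if_pos]
      · exact hp.2
      · exact h7.trans hN
  have c1 : ((Pt (Fn D S Reg) T (T ^ D.m)).ncard : ℝ) ≤
      (Pt (Fn D S (Upto Reg N)) T (T ^ D.m)).ncard + P.ncard := by
    exact_mod_cast (Set.ncard_le_ncard s1 (hf'.union hfD)).trans (Set.ncard_union_le _ _)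
  have c2 : ((Pt (Fn D S (Upto Reg N)) T (T ^ D.m)).ncard : ℝ) ≤
      (Pt (Fn D S Reg) T (T ^ D.m)).ncard := by
    exact_mod_cast Set.ncard_le_ncard s2 hf
  have hp : 0 < T * T ^ D.m := by positivity
  unfold Nr
  rw [← sub_div, abs_div, abs_of_pos hp, div_le_iff₀ hp, abs_le]
  constructor <;> linarith

/-- **The limit is a sum over the repeated parts.** -/
theorem lim_sum (K : ℝ) (hK : 0 < K) (Reg : ℕ → Set (ℝ × ℝ)) (hn : ∀ w, Nice (Reg w))
    (hB : ∀ w, Reg w ⊆ Bx K) : ∃ L : ℝ, Tendsto (Nr D S Reg) atTop (𝓝 L) ∧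
      HasSum (fun w => ρ D S w * (volume (Reg w)).toReal) L := by
  obtain ⟨L, hL⟩ := lim_exists D S K hK Reg hn hB
  refine ⟨L, hL, ?_⟩
  rw [hasSum_iff_tendsto_nat_of_nonneg (fun w => mul_nonneg (ρ_nonneg D S w)
    ENNReal.toReal_nonneg)]
  rw [Metric.tendsto_atTop]
  intro ε hε
  obtain ⟨N₀, h⟩ := tail_w D S K hK (ε / 2) (by positivity)
  refine ⟨N₀ + 1, fun n hn' => ?_⟩
  obtain ⟨N, rfl⟩ : ∃ N, n = N + 1 := ⟨n - 1, by omega⟩
  have h1 := h N (by omega) Reg hB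
  have h2 : Tendsto (Nr D S (Upto Reg N)) atTop
      (𝓝 (∑ w ∈ range (N + 1), ρ D S w * (volume (Reg w)).toReal)) := by
    have := tendsto_finsetSum (range (N + 1)) (fun w _ => lim_mul D S w (Reg w) K hK (hn w) (hB w))
    refine this.congr' ?_
    filter_upwards [eventually_gt_atTop 0] with T hT
    exact (nr_upto D S K Reg hB N hT).symm
  have h3 := le_of_tendsto ((hL.sub h2).abs) h1
  rw [Real.dist_eq, abs_sub_comm]
  linarith

end Pool.Agent.T2h82.Ln
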