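import Pool.Agent.T2h82.Ln.Cnt

/-!
# The constant and the total count
-/

set_option autoImplicit false

namespace Pool.Agent.T2h82.Ln

open Finset Filter Topology MeasureTheory
open Pool.Agent.T2h82.As (Nice Pt pt_finite vol_scale)
open scoped ENNReal

variable (D : Dat) (S : Finset ℕ)

/-- the full region -/
def Rinf (w : ℝ) : Set (ℝ × ℝ) := {p | 0 ≤ p.1 ∧ |Gr D p| ≤ w}

theorem rinf_meas (w : ℝ) : MeasurableSet (Rinf D w) :=
  ((isClosed_le continuous_const continuous_fst).inter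
    (isClosed_le (gr_cont D).abs continuous_const)).measurableSet

theorem gr_hom {c : ℝ} (p : ℝ × ℝ) : Gr D (c * p.1, c ^ D.m * p.2) = c ^ D.d * Gr D p := by
  have h1 : ∀ i, fr D i (c * p.1, c ^ D.m * p.2) = c ^ D.m * fr D i p := by
    intro i
    unfold fr
    simp only
    rw [mul_pow]
    ring
  unfold Gr Dat.d
  rw [prod_congr rfl (fun i _ => h1 i), prod_mul_distrib, prod_const, card_univ, Fintype.card_fin,
    mul_pow, ← pow_mul, pow_add, mul_comm D.q D.m]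
  ring

theorem rinf_scale {c : ℝ} (hc : 0 < c) :
    {p : ℝ × ℝ | (c⁻¹ * p.1, (c⁻¹) ^ D.m * p.2) ∈ Rinf D 1} = Rinf D (c ^ D.d) := by
  ext p
  unfold Rinf
  simp only [Set.mem_ofPred_eq]
  rw [gr_hom, abs_mul, abs_of_pos (by positivity : (0 : ℝ) < (c⁻¹) ^ D.d), inv_pow,
    inv_mul_le_iff₀ (by positivity), mul_one]
  refine and_congr_left (fun _ => ?_)
  rw [mul_nonneg_iff_of_pos_left (inv_pos.2 hc)]

theorem vol_rinf {c : ℝ} (hc : 0 < c) :
    volume (Rinf D (c ^ D.d)) = ENNReal.ofReal (c ^ (D.m + 1)) * volume (Rinf D 1) := by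
  rw [← rinf_scale D hc, vol_scale (inv_pos.2 hc) (by positivity) (rinf_meas D 1)]
  congr 2
  rw [inv_pow, ← mul_inv, inv_inv, pow_succ]
  ring

/-- the exponent of the count -/
noncomputable def θ : ℝ := ((D.m : ℝ) + 1) / D.d

theorem vol_rinf' {w : ℝ} (hw : 0 < w) :
    volume (Rinf D w) = ENNReal.ofReal (w ^ θ D) * volume (Rinf D 1) := by
  have hd : (0 : ℝ) < D.d := by exact_mod_cast D.d_pos
  have h1 := vol_rinf D (c := w ^ (1 / (D.d : ℝ))) (by positivity)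
  have e1 : (w ^ (1 / (D.d : ℝ))) ^ D.d = w := by
    rw [← Real.rpow_natCast, ← Real.rpow_mul hw.le, one_div_mul_cancel hd.ne', Real.rpow_one]
  have e2 : (w ^ (1 / (D.d : ℝ))) ^ (D.m + 1) = w ^ θ D := by
    rw [← Real.rpow_natCast, ← Real.rpow_mul hw.le]
    congr 1
    unfold θ
    push_cast
    ring
  rw [e1, e2] at h1
  exact h1

theorem rinf_mono {w w' : ℝ} (h : w ≤ w') : Rinf D w ⊆ Rinf D w' :=
  fun _ hp => ⟨hp.1, hp.2.trans h⟩

theorem ra_sub_rinf (K w : ℝ) : Ra D K w ⊆ Rinf D w := by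
  rintro p ⟨h1, h2⟩
  exact ⟨h1.1.1, h2⟩

theorem ra_lim (w : ℝ) :
    Tendsto (fun K : ℝ => volume (Ra D K w)) atTop (𝓝 (volume (Rinf D w))) := by
  have hmono : Monotone (fun K : ℝ => Ra D K w) := by
    intro K K' hK p hp
    obtain ⟨h1, h2⟩ := hp
    refine ⟨?_, h2⟩
    unfold Bx at h1 ⊢
    rw [Set.mem_prod, Set.mem_Icc, Set.mem_Icc] at h1 ⊢
    obtain ⟨⟨a1, a2⟩, a3, a4⟩ := h1
    exact ⟨⟨by linarith, by linarith⟩, by linarith, by linarith⟩
  have h1 := tendsto_measure_iUnion_atTop (μ := (volume : Measure (ℝ × ℝ))) hmono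
  have h2 : (⋃ K : ℝ, Ra D K w) = Rinf D w := by
    ext p
    rw [Set.mem_iUnion]
    constructor
    · rintro ⟨K, h⟩
      exact ra_sub_rinf D K w h
    · intro h
      refine ⟨max |p.1| |p.2|, ?_, h.2⟩
      unfold Bx
      rw [Set.mem_prod, Set.mem_Icc, Set.mem_Icc, ← abs_le]
      exact ⟨⟨h.1, (le_abs_self _).trans (le_max_left _ _)⟩, le_max_right _ _⟩
  rw [h2] at h1
  exact h1

theorem rinf_pos : 0 < volume (Rinf D 1) := by
  have h2 := D.q2
  have hm := D.hm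
  have hop : IsOpen {p : ℝ × ℝ | 0 < p.1 ∧ |Gr D p| < 1} :=
    (isOpen_lt continuous_const continuous_fst).inter (isOpen_lt (gr_cont D).abs continuous_const)
  have hne : {p : ℝ × ℝ | 0 < p.1 ∧ |Gr D p| < 1}.Nonempty := by
    have h0 : Gr D (0, 0) = 0 := by
      unfold Gr
      rw [prod_eq_zero (mem_univ (⟨0, by omega⟩ : Fin D.q)), mul_zero]
      unfold fr
      simp only [mul_zero, zero_add]
      rw [zero_pow (by omega), mul_zero]
    have hc : Tendsto (fun s : ℝ => |Gr D (s, 0)|) (𝓝[>] 0) (𝓝 0) := by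
      have h3 : Continuous (fun s : ℝ => |Gr D (s, 0)|) :=
        ((gr_cont D).comp (by fun_prop : Continuous (fun s : ℝ => ((s, 0) : ℝ × ℝ)))).abs
      have h4 := h3.tendsto 0
      rw [h0, abs_zero] at h4
      exact h4.mono_left nhdsWithin_le_nhds
    have h5 : ∀ᶠ s : ℝ in 𝓝[>] 0, |Gr D (s, 0)| < 1 := hc.eventually_lt_const one_pos
    have h6 : ∀ᶠ s : ℝ in 𝓝[>] (0 : ℝ), 0 < s := eventually_mem_nhdsWithin
    obtain ⟨s, hs1, hs2⟩ := (h5.and h6).exists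
    exact ⟨(s, 0), hs2, hs1⟩
  refine (hop.measure_pos volume hne).trans_le (measure_mono ?_)
  rintro p ⟨h3, h4⟩
  exact ⟨h3.le, h4.le⟩

/-- the limit for the bounded pairs -/
noncomputable def LK (K : ℝ) : ℝ := ∑' w : ℕ, ρ D S w * (volume (Ra D K w)).toReal

theorem lk_spec {K : ℝ} (hK : 0 < K) : Tendsto (Nr D S (fun w => Ra D K w)) atTop (𝓝 (LK D S K)) ∧
    Summable (fun w : ℕ => ρ D S w * (volume (Ra D K w)).toReal) := by
  obtain ⟨L, h1, h2⟩ := lim_sum D S K hK (fun w => Ra D K w) (fun w => ra_nice D K w)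
    (fun w => ra_sub D K w)
  have : LK D S K = L := h2.tsum_eq
  rw [this]
  exact ⟨h1, h2.summable⟩

theorem lk_nonneg (K : ℝ) : 0 ≤ LK D S K :=
  tsum_nonneg (fun w => mul_nonneg (ρ_nonneg D S w) ENNReal.toReal_nonneg)

/-- the power of `T` lost in the tail -/
theorem pow_lim (K β γ : ℝ) (hβ : β < γ) (hK : 0 < K) (C : ℝ) :
    Tendsto (fun T : ℝ => C * ((K * T ^ β) / T ^ γ)) atTop (𝓝 0) := by
  have h1 : Tendsto (fun T : ℝ => C * K * T ^ (-(γ - β))) atTop (𝓝 (C * K * 0)) :=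
    (tendsto_rpow_neg_atTop (by linarith)).const_mul _
  rw [mul_zero] at h1
  refine h1.congr' ?_
  filter_upwards [eventually_gt_atTop 0] with T hT
  rw [mul_div_assoc, ← Real.rpow_sub hT, mul_assoc]
  congr 3
  ring

/-- the limits are bounded -/
theorem lk_bdd : ∃ B : ℝ, 0 < B ∧ ∀ K : ℝ, 1 ≤ K → LK D S K ≤ B := by
  classical
  obtain ⟨C, hC, ht⟩ := tailT D S
  have hη := eta_pos (D := D)
  refine ⟨LK D S 1 + C, by have := lk_nonneg D S 1; linarith, ?_⟩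
  intro K hK
  have hK0 : 0 < K := by linarith
  have hm := D.hm
  have h1 := (lk_spec D S hK0).1
  have h2 := (lk_spec D S one_pos).1
  have h3 := pow_lim (K ^ ((D.m : ℝ) + 1 - η D)) ((D.m : ℝ) + 1 - η D) ((D.m : ℝ) + 1)
    (by linarith) (by positivity) C
  have h4 := (h2.add_const C).add h3
  rw [add_zero] at h4
  refine le_of_tendsto_of_tendsto h1 h4 ?_
  filter_upwards [eventually_ge_atTop 1] with T hT
  have hT0 : 0 < T := by linarith
  have hTm : 0 < T ^ D.m := by positivity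
  have hfK : (Pt (Fn D S (fun w => Ra D K w)) T (T ^ D.m)).Finite :=
    pt_finite _ (Bx K) (bx_bdd K) (fn_sub D S (fun w => ra_sub D K w)) hT0 hTm
  have hf1 : (Pt (Fn D S (fun w => Ra D 1 w)) T (T ^ D.m)).Finite :=
    pt_finite _ (Bx 1) (bx_bdd 1) (fn_sub D S (fun w => ra_sub D 1 w)) hT0 hTm
  set F : Finset (ℤ × ℤ) := hfK.toFinset.filter (fun p => (1 * T) ^ D.m < (hgt D p : ℝ)) with hF
  have hFc := ht 1 T (K * T) le_rfl hT (by nlinarith) F (fun p hp => by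
    rw [hF, mem_filter, Set.Finite.mem_toFinset, mem_ra hT0] at hp
    obtain ⟨⟨a1, a2, a3⟩, a4⟩ := hp
    exact ⟨a1, hgt_of_box a1 hT0 hK a2, a4, a3⟩)
  have hsub : Pt (Fn D S (fun w => Ra D K w)) T (T ^ D.m) ⊆
      Pt (Fn D S (fun w => Ra D 1 w)) T (T ^ D.m) ∪ (F : Set (ℤ × ℤ)) := by
    intro p hp
    by_cases h : (1 * T) ^ D.m < (hgt D p : ℝ)
    · right
      rw [mem_coe, hF, mem_filter, Set.Finite.mem_toFinset]
      exact ⟨hp, h⟩
    · left
      push Not at h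
      rw [mem_ra hT0] at hp ⊢
      refine ⟨hp.1, ?_, hp.2.2⟩
      have := box_of_hgt hp.1 hT0 le_rfl h
      rwa [one_pow] at this
  have hc : ((Pt (Fn D S (fun w => Ra D K w)) T (T ^ D.m)).ncard : ℝ) ≤
      (Pt (Fn D S (fun w => Ra D 1 w)) T (T ^ D.m)).ncard + F.card := by
    have h5 := (Set.ncard_le_ncard hsub (hf1.union F.finite_toSet)).trans (Set.ncard_union_le _ _)
    rw [Set.ncard_coe_finset] at h5
    exact_mod_cast h5
  have hTT : T * T ^ D.m = T ^ ((D.m : ℝ) + 1) := by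
    have : (D.m : ℝ) + 1 = ((D.m + 1 : ℕ) : ℝ) := by push_cast; ring
    rw [this, Real.rpow_natCast, pow_succ]
    ring
  have hKT : (K * T) ^ ((D.m : ℝ) + 1 - η D) =
      K ^ ((D.m : ℝ) + 1 - η D) * T ^ ((D.m : ℝ) + 1 - η D) := Real.mul_rpow hK0.le hT0.le
  have hp : 0 < T ^ ((D.m : ℝ) + 1) := by positivity
  rw [Real.one_rpow, one_mul, hKT, hTT] at hFc
  unfold Nr
  rw [hTT, div_le_iff₀ hp]
  refine (hc.trans (add_le_add le_rfl hFc)).trans (le_of_eq ?_)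
  field_simp
  ring

theorem rho_zero : ρ D S 0 = 0 := by
  have h1 := ρ_spec D S 0
  have h2 : Nr D S (One 0 Un) = fun _ => 0 := by
    funext T
    unfold Nr
    have : Pt (Fn D S (One 0 Un)) T (T ^ D.m) = ∅ := by
      rw [Set.eq_empty_iff_forall_notMem]
      intro p hp
      rw [mem_pt] at hp
      unfold One at hp
      rw [if_neg (eS_pos _ _).ne'] at hp
      exact hp.2
    rw [this, Set.ncard_empty]
    simp
  rw [h2] at h1
  exact tendsto_nhds_unique h1 tendsto_const_nhds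

theorem rinf_fin : volume (Rinf D 1) ≠ ⊤ := by
  obtain ⟨w, hw⟩ := rho_pos D ∅
  have hw0 : w ≠ 0 := by
    rintro rfl
    rw [rho_zero] at hw
    exact lt_irrefl _ hw
  have hw1 : (1 : ℝ) ≤ w := by exact_mod_cast Nat.one_le_iff_ne_zero.2 hw0
  obtain ⟨B, hB, hb⟩ := lk_bdd D ∅
  have h1 : ∀ K : ℝ, 1 ≤ K → volume (Ra D K w) ≤ ENNReal.ofReal (B / ρ D ∅ w) := by
    intro K hK
    have h2 := (lk_spec D ∅ (K := K) (by linarith)).2
    have h3 : ρ D ∅ w * (volume (Ra D K w)).toReal ≤ LK D ∅ K :=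
      h2.le_tsum w (fun w' _ => mul_nonneg (ρ_nonneg D ∅ w') ENNReal.toReal_nonneg)
    have h4 : (volume (Ra D K w)).toReal ≤ B / ρ D ∅ w := by
      rw [le_div_iff₀ hw]
      linarith [hb K hK]
    exact (ENNReal.le_ofReal_iff_toReal_le ((ra_nice D K w).bdd.measure_lt_top).ne
      (by positivity)).2 h4
  have h5 : volume (Rinf D w) ≤ ENNReal.ofReal (B / ρ D ∅ w) :=
    le_of_tendsto (ra_lim D w) (by
      filter_upwards [eventually_ge_atTop 1] with K hK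
      exact h1 K hK)
  exact ((measure_mono (rinf_mono D hw1)).trans h5).trans_lt ENNReal.ofReal_lt_top |>.ne

theorem rinf_fin' (w : ℝ) : volume (Rinf D w) ≠ ⊤ := by
  have h1 : volume (Rinf D (max w 1)) ≠ ⊤ := by
    rw [vol_rinf' D (lt_max_of_lt_right one_pos)]
    exact ENNReal.mul_ne_top ENNReal.ofReal_ne_top (rinf_fin D)
  exact ((measure_mono (rinf_mono D (le_max_left w 1))).trans_lt h1.lt_top).ne

/-- the area of the unit region -/
noncomputable def Ar : ℝ := (volume (Rinf D 1)).toReal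

theorem ar_pos : 0 < Ar D := ENNReal.toReal_pos (rinf_pos D).ne' (rinf_fin D)

theorem vol_real {w : ℝ} (hw : 0 < w) : (volume (Rinf D w)).toReal = w ^ θ D * Ar D := by
  rw [vol_rinf' D hw, ENNReal.toReal_mul, ENNReal.toReal_ofReal (by positivity)]
  rfl

theorem sum_rinf : Summable (fun w : ℕ => ρ D S w * (volume (Rinf D w)).toReal) := by
  obtain ⟨B, hB, hb⟩ := lk_bdd D S
  refine summable_of_sum_le (c := B)
    (fun w => mul_nonneg (ρ_nonneg D S w) ENNReal.toReal_nonneg) (fun F => ?_)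
  have h1 : Tendsto (fun K : ℝ => ∑ w ∈ F, ρ D S w * (volume (Ra D K w)).toReal) atTop
      (𝓝 (∑ w ∈ F, ρ D S w * (volume (Rinf D w)).toReal)) := by
    refine tendsto_finsetSum _ (fun w _ => ?_)
    exact ((ENNReal.tendsto_toReal (rinf_fin' D w)).comp (ra_lim D w)).const_mul _
  refine le_of_tendsto h1 ?_
  filter_upwards [eventually_ge_atTop 1] with K hK
  have h2 := (lk_spec D S (K := K) (by linarith)).2
  exact (h2.sum_le_tsum F (fun w' _ => mul_nonneg (ρ_nonneg D S w') ENNReal.toReal_nonneg)).trans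
    (hb K hK)

/-- the constant -/
noncomputable def cc : ℝ := ∑' w : ℕ, ρ D S w * (volume (Rinf D w)).toReal

theorem cc_eq : HasSum (fun w : ℕ => Ar D * (ρ D S w * (w : ℝ) ^ θ D)) (cc D S) := by
  have h1 := (sum_rinf D S).hasSum
  refine h1.congr_fun (fun w => ?_)
  rcases Nat.eq_zero_or_pos w with h | h
  · rw [h, rho_zero]
    ring
  · rw [vol_real D (by exact_mod_cast h)]
    ring

theorem cc_pos : 0 < cc D S := by
  obtain ⟨w, hw⟩ := rho_pos D S
  have hw0 : w ≠ 0 := by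
    rintro rfl
    rw [rho_zero] at hw
    exact lt_irrefl _ hw
  have hw1 : (0 : ℝ) < w := by exact_mod_cast Nat.pos_of_ne_zero hw0
  have h1 := (cc_eq D S)
  have hA := ar_pos D
  have h2 := le_hasSum h1 w (fun w' _ => by
    have := ρ_nonneg D S w'
    positivity)
  refine lt_of_lt_of_le ?_ h2
  positivity

/-- the limits for the growing boxes -/
theorem lk_lim : Tendsto (LK D S) atTop (𝓝 (cc D S)) := by
  unfold LK cc
  refine tendsto_tsum_of_dominated_convergence (sum_rinf D S) (fun w => ?_) ?_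
  · exact ((ENNReal.tendsto_toReal (rinf_fin' D w)).comp (ra_lim D w)).const_mul _
  · refine Eventually.of_forall (fun K w => ?_)
    rw [Real.norm_of_nonneg (mul_nonneg (ρ_nonneg D S w) ENNReal.toReal_nonneg)]
    refine mul_le_mul_of_nonneg_left ?_ (ρ_nonneg D S w)
    exact ENNReal.toReal_mono (rinf_fin' D w) (measure_mono (ra_sub_rinf D K w))

/-- **The total count.** -/
theorem total (𝒯 : ℝ → Set (ℤ × ℤ))
    (hfin : ∀ᶠ T : ℝ in atTop, {p | D.Ok p ∧ p ∈ 𝒯 T ∧ (RS D S p : ℝ) ≤ T ^ D.d}.Finite)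
    (h1 : ∀ K : ℝ, 1 ≤ K → ∀ᶠ T : ℝ in atTop, ∀ p, D.Ok p → (hgt D p : ℝ) ≤ (K * T) ^ D.m → p ∈ 𝒯 T)
    (h2 : ∀ ε : ℝ, 0 < ε → ∃ K₀ : ℝ, ∀ K : ℝ, K₀ ≤ K → ∀ᶠ T : ℝ in atTop, ∀ F : Finset (ℤ × ℤ),
      (∀ p ∈ F, D.Ok p ∧ p ∈ 𝒯 T ∧ (RS D S p : ℝ) ≤ T ^ D.d ∧ (K * T) ^ D.m < (hgt D p : ℝ)) →
      (F.card : ℝ) ≤ ε * (T * T ^ D.m)) :
    Tendsto (fun T : ℝ => ({p | D.Ok p ∧ p ∈ 𝒯 T ∧ (RS D S p : ℝ) ≤ T ^ D.d}.ncard : ℝ) /
      (T * T ^ D.m)) atTop (𝓝 (cc D S)) := by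
  classical
  rw [Metric.tendsto_nhds]
  intro ε hε
  obtain ⟨K₀, hK₀⟩ := h2 (ε / 4) (by positivity)
  have hlk := lk_lim D S
  have hlk' : ∀ᶠ K : ℝ in atTop, |LK D S (K ^ D.m) - cc D S| < ε / 4 := by
    have := (hlk.comp (tm_top D)).eventually (Metric.ball_mem_nhds (cc D S) (by positivity : 0 < ε / 4))
    filter_upwards [this] with K hK
    rw [Real.dist_eq] at hK
    exact hK
  obtain ⟨K, hK1, hK2, hK3⟩ := (hlk'.and ((eventually_ge_atTop K₀).and (eventually_ge_atTop 1))).exists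
  have hKm : 1 ≤ K ^ D.m := one_le_pow₀ hK3
  have ha := (lk_spec D S (K := K ^ D.m) (by positivity)).1
  have ha' : ∀ᶠ T : ℝ in atTop, |Nr D S (fun w => Ra D (K ^ D.m) w) T - LK D S (K ^ D.m)| < ε / 4 := by
    have := ha.eventually (Metric.ball_mem_nhds _ (by positivity : 0 < ε / 4))
    filter_upwards [this] with T hT
    rw [Real.dist_eq] at hT
    exact hT
  filter_upwards [hfin, h1 (K ^ D.m) hKm, hK₀ K hK2, ha', eventually_ge_atTop 1] with T t1 t2 t3 t4 t5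
  have hT0 : 0 < T := by linarith
  have hTm : 0 < T ^ D.m := by positivity
  have hp : 0 < T * T ^ D.m := by positivity
  have hfK : (Pt (Fn D S (fun w => Ra D (K ^ D.m) w)) T (T ^ D.m)).Finite :=
    pt_finite _ (Bx (K ^ D.m)) (bx_bdd _) (fn_sub D S (fun w => ra_sub D _ w)) hT0 hTm
  set P : Set (ℤ × ℤ) := {p | D.Ok p ∧ p ∈ 𝒯 T ∧ (RS D S p : ℝ) ≤ T ^ D.d} with hP
  have s1 : Pt (Fn D S (fun w => Ra D (K ^ D.m) w)) T (T ^ D.m) ⊆ P := by
    intro p hp
    rw [mem_ra hT0] at hp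
    exact ⟨hp.1, t2 p hp.1 (hgt_of_box hp.1 hT0 hKm hp.2.1), hp.2.2⟩
  set F : Finset (ℤ × ℤ) := t1.toFinset.filter (fun p => (K * T) ^ D.m < (hgt D p : ℝ)) with hF
  have hFc := t3 F (fun p hp => by
    rw [hF, mem_filter, Set.Finite.mem_toFinset] at hp
    exact ⟨hp.1.1, hp.1.2.1, hp.1.2.2, hp.2⟩)
  have s2 : P ⊆ Pt (Fn D S (fun w => Ra D (K ^ D.m) w)) T (T ^ D.m) ∪ (F : Set (ℤ × ℤ)) := by
    intro p hp
    by_cases h : (K * T) ^ D.m < (hgt D p : ℝ)
    · right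
      rw [mem_coe, hF, mem_filter, Set.Finite.mem_toFinset]
      exact ⟨hp, h⟩
    · left
      push Not at h
      rw [mem_ra hT0]
      exact ⟨hp.1, box_of_hgt hp.1 hT0 hK3 h, hp.2.2⟩
  have c1 : ((Pt (Fn D S (fun w => Ra D (K ^ D.m) w)) T (T ^ D.m)).ncard : ℝ) ≤ P.ncard := by
    exact_mod_cast Set.ncard_le_ncard s1 t1
  have c2 : (P.ncard : ℝ) ≤
      (Pt (Fn D S (fun w => Ra D (K ^ D.m) w)) T (T ^ D.m)).ncard + F.card := by
    have h5 := (Set.ncard_le_ncard s2 (hfK.union F.finite_toSet)).trans (Set.ncard_union_le _ _)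
    rw [Set.ncard_coe_finset] at h5
    exact_mod_cast h5
  have d1 : |(P.ncard : ℝ) / (T * T ^ D.m) - Nr D S (fun w => Ra D (K ^ D.m) w) T| ≤ ε / 4 := by
    unfold Nr
    rw [← sub_div, abs_div, abs_of_pos hp, div_le_iff₀ hp, abs_le]
    constructor <;> linarith
  rw [Real.dist_eq]
  have e1 : (P.ncard : ℝ) / (T * T ^ D.m) - cc D S =
      ((P.ncard : ℝ) / (T * T ^ D.m) - Nr D S (fun w => Ra D (K ^ D.m) w) T) +
      (Nr D S (fun w => Ra D (K ^ D.m) w) T - LK D S (K ^ D.m)) + (LK D S (K ^ D.m) - cc D S) := by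
    ring
  rw [e1]
  have := abs_add_three ((P.ncard : ℝ) / (T * T ^ D.m) - Nr D S (fun w => Ra D (K ^ D.m) w) T)
    (Nr D S (fun w => Ra D (K ^ D.m) w) T - LK D S (K ^ D.m)) (LK D S (K ^ D.m) - cc D S)
  linarith

end Pool.Agent.T2h82.Ln
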